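import Pool.Agent.MP_410f3c_al.Q.Exp

/-!
# Nondegenerate lowest forms: the `p`-adic expansion of the moments
-/

set_option autoImplicit false
set_option linter.unusedSectionVars false

open MvPolynomial

namespace Pool.Agent.MP_410f3c_al.Q

variable {σ : Type} [Fintype σ] (P : ℕ) [hPf : Fact P.Prime]

/-- coefficientwise divisibility after weighting -/
def JJ (K n : ℕ) (Y : MvPolynomial σ ℤ_[P]) : Prop :=
  ∀ x, (P : ℤ_[P]) ^ n ∣ (P : ℤ_[P]) ^ (K + ∑ i, beta P x i) * coeff x Y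

variable {P}

theorem JJ.zero {K n : ℕ} : JJ P K n (0 : MvPolynomial σ ℤ_[P]) := fun x => by
  rw [coeff_zero, mul_zero]; exact dvd_zero _

theorem JJ.add {K n : ℕ} {Y Y' : MvPolynomial σ ℤ_[P]} (h : JJ P K n Y) (h' : JJ P K n Y') :
    JJ P K n (Y + Y') := fun x => by
  rw [coeff_add, mul_add]
  exact dvd_add (h x) (h' x)

theorem JJ.sum {K n : ℕ} {α : Type} (s : Finset α) {Y : α → MvPolynomial σ ℤ_[P]}
    (h : ∀ a ∈ s, JJ P K n (Y a)) : JJ P K n (∑ a ∈ s, Y a) := by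
  classical
  induction s using Finset.induction_on with
  | empty => rw [Finset.sum_empty]; exact JJ.zero
  | insert a s ha ih =>
    rw [Finset.sum_insert ha]
    exact (h a (Finset.mem_insert_self a s)).add
      (ih fun b hb => h b (Finset.mem_insert_of_mem hb))

theorem JJ.mul_nat {K n : ℕ} {Y : MvPolynomial σ ℤ_[P]} (h : JJ P K n Y) (k : ℕ) :
    JJ P K n (Y * (k : MvPolynomial σ ℤ_[P])) := fun x => by
  have h1 : (k : MvPolynomial σ ℤ_[P]) = C (k : ℤ_[P]) := by rw [map_natCast]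
  rw [h1, mul_comm Y, coeff_C_mul]
  have h2 : (P : ℤ_[P]) ^ (K + ∑ i, beta P x i) * ((k : ℤ_[P]) * coeff x Y) =
      (k : ℤ_[P]) * ((P : ℤ_[P]) ^ (K + ∑ i, beta P x i) * coeff x Y) := by ring
  rw [h2]
  exact Dvd.dvd.mul_left (h x) _

theorem JJ.monomial {K n : ℕ} (y : σ →₀ ℕ) (c : ℤ_[P]) (t : ℕ)
    (hn : n ≤ K + ∑ i, beta P y i + t) : JJ P K n (monomial y ((P : ℤ_[P]) ^ t * c)) := by
  classical
  intro x
  rw [coeff_monomial]
  split_ifs with h
  · subst h
    rw [← mul_assoc, ← pow_add]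
    exact Dvd.dvd.mul_right (pow_dvd_pow _ hn) _
  · rw [mul_zero]; exact dvd_zero _

/-- the key divisibility -/
theorem dval (S : Finset σ) {K : ℕ} (hK : S.card = K + 1) {e : ℕ}
    (g D' : MvPolynomial σ ℤ_[P]) (hg : LB Finset.univ (e + 1) g)
    (hD : LB S (P * e) D') (τ : ℕ) : JJ P K ((e + 1) * τ) ((expand P g + C (P : ℤ_[P]) * D') ^ τ) := by
  have hP0 : 0 < P := hPf.out.pos
  rw [add_pow]
  refine JJ.sum _ fun i hi => ?_
  rw [Finset.mem_range] at hi
  refine JJ.mul_nat ?_ _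
  have h1 : expand P g ^ i = ∑ ν ∈ (g ^ i).support, monomial (P • ν) (coeff ν (g ^ i)) := by
    rw [← map_pow]
    conv_lhs => rw [← MvPolynomial.support_sum_monomial_coeff (g ^ i)]
    rw [map_sum]
    exact Finset.sum_congr rfl fun ν _ => expand_monomial ..
  have h2 : (C (P : ℤ_[P]) * D') ^ (τ - i) =
      ∑ y ∈ (D' ^ (τ - i)).support, monomial y ((P : ℤ_[P]) ^ (τ - i) * coeff y (D' ^ (τ - i))) := by
    rw [mul_pow, ← map_pow]
    conv_lhs => rw [← MvPolynomial.support_sum_monomial_coeff (D' ^ (τ - i))]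
    rw [Finset.mul_sum]
    exact Finset.sum_congr rfl fun y _ => C_mul_monomial
  rw [h1, h2, Finset.sum_mul_sum]
  refine JJ.sum _ fun ν hν => JJ.sum _ fun y hy => ?_
  rw [monomial_mul]
  have h3 : coeff ν (g ^ i) * ((P : ℤ_[P]) ^ (τ - i) * coeff y (D' ^ (τ - i))) =
      (P : ℤ_[P]) ^ (τ - i) * (coeff ν (g ^ i) * coeff y (D' ^ (τ - i))) := by ring
  rw [h3]
  refine JJ.monomial _ _ _ ?_
  have h4 := hg.pow i ν (mem_support_iff.mp hν)
  have h5 := hD.pow (τ - i) y (mem_support_iff.mp hy)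
  rw [mul_assoc] at h5
  have h6 := floor_bound P hP0 S hK _ y h5
  have h7 : ∑ l ∈ S, beta P y l ≤ ∑ l, beta P y l :=
    Finset.sum_le_sum_of_subset (Finset.subset_univ S)
  rw [beta_add P hP0]
  simp only [Finsupp.add_apply, Finset.sum_add_distrib]
  have h8 : (e + 1) * τ = (e + 1) * i + (e * (τ - i) + (τ - i)) := by
    obtain ⟨k, rfl⟩ : ∃ k, τ = i + k := ⟨τ - i, by omega⟩
    rw [Nat.add_sub_cancel_left]
    ring
  omega

/-- `h^P` is congruent to `h(U^P)` -/
theorem frob (h : MvPolynomial σ ℤ_[P]) : ∃ D' : MvPolynomial σ ℤ_[P],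
    h ^ P = expand P h + C (P : ℤ_[P]) * D' := by
  have h1 : map (PadicInt.toZMod (p := P)) (h ^ P - expand P h) = 0 := by
    rw [map_sub, map_pow, map_expand, expand_zmod, sub_self]
  have h2 : C (P : ℤ_[P]) ∣ h ^ P - expand P h := by
    rw [C_dvd_iff_dvd_coeff]
    intro x
    have h3 := congrArg (coeff x) h1
    rw [coeff_map, coeff_zero] at h3
    have h4 : coeff x (h ^ P - expand P h) ∈ RingHom.ker (PadicInt.toZMod (p := P)) := h3
    rw [PadicInt.ker_toZMod, PadicInt.maximalIdeal_eq_span_p, Ideal.mem_span_singleton] at h4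
    exact h4
  obtain ⟨D', hD'⟩ := h2
  exact ⟨D', by linear_combination hD'⟩

theorem LB_of_frob {S : Finset σ} {e : ℕ} {h D' : MvPolynomial σ ℤ_[P]}
    (hh : LB S e h) (hD : h ^ P = expand P h + C (P : ℤ_[P]) * D') : LB S (P * e) D' := by
  intro x hx
  have h1 : LB S (P * e) (h ^ P - expand P h) := by
    refine LB.sub ?_ (hh.expand P)
    rw [mul_comm]
    exact hh.pow P
  refine h1 x ?_
  have h2 : h ^ P - expand P h = C (P : ℤ_[P]) * D' := by linear_combination hD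
  rw [h2, coeff_C_mul]
  refine mul_ne_zero ?_ hx
  exact_mod_cast hPf.out.ne_zero

section adm

variable (S : Finset σ) (K e : ℕ) (μ : σ →₀ ℕ) (H : MvPolynomial σ ℤ_[P]) (c V : ℕ)

/-- functions approximated by functionals of the class -/
def Adm (w : ℕ → ℤ_[P]) : Prop := ∃ t ∈ TT S K e μ H c V, ∃ ρ : ℕ → ℤ_[P],
  ∀ m, w m = LL (t m) + (P : ℤ_[P]) ^ (K + 1) * ρ m

variable {S K e μ H c V}

theorem Adm.small (ρ : ℕ → ℤ_[P]) : Adm S K e μ H c V (fun m => (P : ℤ_[P]) ^ (K + 1) * ρ m) :=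
  ⟨0, Submodule.zero_mem _, ρ, fun m => by rw [Pi.zero_apply, map_zero, zero_add]⟩

theorem Adm.add {w w' : ℕ → ℤ_[P]} (h : Adm S K e μ H c V w) (h' : Adm S K e μ H c V w') :
    Adm S K e μ H c V (fun m => w m + w' m) := by
  obtain ⟨t, ht, ρ, hρ⟩ := h
  obtain ⟨t', ht', ρ', hρ'⟩ := h'
  refine ⟨t + t', Submodule.add_mem _ ht ht', fun m => ρ m + ρ' m, fun m => ?_⟩
  beta_reduce
  rw [hρ m, hρ' m, Pi.add_apply, map_add]
  ring

theorem Adm.smul {w : ℕ → ℤ_[P]} (h : Adm S K e μ H c V w) (a : ℤ_[P]) :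
    Adm S K e μ H c V (fun m => a * w m) := by
  obtain ⟨t, ht, ρ, hρ⟩ := h
  refine ⟨a • t, Submodule.smul_mem _ _ ht, fun m => a * ρ m, fun m => ?_⟩
  beta_reduce
  rw [hρ m, Pi.smul_apply, map_smul, smul_eq_mul]
  ring

theorem Adm.congr {w w' : ℕ → ℤ_[P]} (h : Adm S K e μ H c V w) (hw : ∀ m, w' m = w m) :
    Adm S K e μ H c V w' := by
  have : w' = w := funext hw
  rw [this]; exact h

theorem Adm.sum {α : Type} (s : Finset α) {w : α → ℕ → ℤ_[P]}
    (h : ∀ a ∈ s, Adm S K e μ H c V (w a)) : Adm S K e μ H c V (fun m => ∑ a ∈ s, w a m) := by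
  classical
  induction s using Finset.induction_on with
  | empty =>
    refine (Adm.small (fun _ => 0)).congr fun m => ?_
    rw [Finset.sum_empty, mul_zero]
  | insert a s ha ih =>
    refine ((h a (Finset.mem_insert_self a s)).add
      (ih fun b hb => h b (Finset.mem_insert_of_mem hb))).congr fun m => ?_
    rw [Finset.sum_insert ha]

end adm

/-- the `p`-adic expansion of the moments `L (f ^ (P m))`, `f = U^μ h` -/
theorem moments (S : Finset σ) {K : ℕ} (hK : S.card = K + 1) {e : ℕ} (μ : σ →₀ ℕ)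
    (h H : MvPolynomial σ ℤ_[P])
    (hH : ∀ x, coeff x H ≠ 0 → ∑ i, x i = e ∧ ∑ i ∈ S, x i = e)
    (hg : ∀ x, coeff x (h - H) ≠ 0 → e + 1 ≤ ∑ i, x i ∧ e ≤ ∑ i ∈ S, x i)
    (dh : ℕ) (hdh : h.totalDegree ≤ dh) (hedh : e ≤ dh) (hKP : K + 2 ≤ P) :
    ∃ w : ℕ → ℤ_[P],
      Adm S K e μ H (K + Fintype.card σ * K) (K * dh + e * (Fintype.card σ * K)) w ∧
      ∀ m : ℕ, (P : ℤ_[P]) ^ K * LL ((monomial μ 1 * h) ^ (P * m)) =
        (-(P : ℤ_[P])) ^ ((∑ i, μ i + e) * m) * w m := by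
  classical
  have hP0 : 0 < P := hPf.out.pos
  obtain ⟨D', hD'⟩ := frob h
  have hLg1 : LB Finset.univ (e + 1) (h - H) := fun x hx => (hg x hx).1
  have hLg2 : LB S e (h - H) := fun x hx => (hg x hx).2
  have hLH : LB S e H := fun x hx => (hH x hx).2.ge
  have hLh : LB S e h := by
    have : h = H + (h - H) := by ring
    rw [this]
    exact hLH.add hLg2
  have hLD : LB S (P * e) D' := LB_of_frob hLh hD'
  have hHh : H.IsHomogeneous e := by
    intro x hx
    rw [← (hH x hx).1, ← deg_eq_sum, Finsupp.degree_eq_weight_one]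
    rfl
  have hHN : ∀ i, ∀ x ∈ (NN i H).support, ∑ l, x l = e ∧ ∑ l ∈ S, x l = e := by
    intro i x hx
    refine hH x ?_
    intro h0
    rw [mem_support_iff] at hx
    apply hx
    have h1 : NN i H = Op (fun s => (s i : ℤ_[P])) H := (Op_coord i H).symm
    have h2 : ∀ p : MvPolynomial σ ℤ_[P], coeff x (Op (fun s => (s i : ℤ_[P])) p) =
        (x i : ℤ_[P]) * coeff x p := by
      intro p
      have := lin_ext (f := (lcoeff ℤ_[P] x).comp (Op (fun s => (s i : ℤ_[P]))))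
        (g := (x i : ℤ_[P]) • lcoeff ℤ_[P] x) (fun s c => by
          rw [LinearMap.comp_apply, Op_monomial, LinearMap.smul_apply, lcoeff_apply, lcoeff_apply,
            coeff_monomial, coeff_monomial]
          split_ifs with hs
          · rw [hs, smul_eq_mul]
          · rw [smul_zero]) p
      exact this
    rw [h1, h2, h0, mul_zero]
  set E : MvPolynomial σ ℤ_[P] := h ^ P - expand P H with hE
  have hE1 : E = expand P (h - H) + C (P : ℤ_[P]) * D' := by
    rw [hE, hD', map_sub]; ring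
  have hE2 : ∀ τ, LB S (P * (e * τ)) (E ^ τ) := by
    intro τ
    rw [← mul_assoc]
    refine LB.pow ?_ τ
    refine LB.sub ?_ (hLH.expand P)
    rw [mul_comm]
    exact hLh.pow P
  have hE3 : ∀ τ, ∀ x ∈ (E ^ τ).support, ∑ i, x i ≤ P * (τ * dh) := by
    intro τ x hx
    have h1 : E.totalDegree ≤ P * dh := by
      refine le_trans (totalDegree_sub _ _) (max_le ?_ ?_)
      · exact le_trans (totalDegree_pow _ _) (Nat.mul_le_mul_left _ hdh)
      · rw [totalDegree_expand, mul_comm]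
        exact Nat.mul_le_mul_left _ (hHh.totalDegree_le.trans hedh)
    have h2 : (E ^ τ).totalDegree ≤ τ * (P * dh) :=
      le_trans (totalDegree_pow _ _) (Nat.mul_le_mul_left _ h1)
    have h3 := le_totalDegree hx
    rw [Finsupp.sum_fintype _ _ fun _ => rfl] at h3
    calc ∑ i, x i ≤ τ * (P * dh) := h3.trans h2
      _ = P * (τ * dh) := by ring
  have hJ : ∀ τ x, ∃ κ : ℤ_[P], (P : ℤ_[P]) ^ (K + ∑ i, beta P x i) * coeff x (E ^ τ) =
      (P : ℤ_[P]) ^ ((e + 1) * τ) * κ := by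
    intro τ x
    have := dval S hK (h - H) D' hLg1 hLD τ
    rw [← hE1] at this
    exact this x
  choose κ hκ using hJ
  set gg : ℕ → ℕ → ℤ_[P] := fun τ m => ∑ x ∈ (E ^ τ).support,
    (((-1 : ℤ_[P]) ^ (∑ i, beta P x i + e * τ)) * κ τ x) *
      LL (Op (ph P x) (monomial (m • μ) 1 * H ^ (m - τ) * monomial (beta P x) 1)) with hgg
  -- the exact formula
  have claim1 : ∀ m : ℕ, (P : ℤ_[P]) ^ K * LL ((monomial μ 1 * h) ^ (P * m)) =
      (-(P : ℤ_[P])) ^ ((∑ i, μ i + e) * m) *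
        ∑ τ ∈ Finset.range (m + 1), ((m.choose τ : ℤ_[P]) * (P : ℤ_[P]) ^ τ) * gg τ m := by
    intro m
    have e1 : (monomial μ 1 * h) ^ (P * m) = ∑ τ ∈ Finset.range (m + 1),
        (m.choose τ : ℤ_[P]) • (expand P (monomial (m • μ) 1 * H ^ (m - τ)) * E ^ τ) := by
      have e2 : (h ^ P) = E + expand P H := by rw [hE]; ring
      have e3 : (monomial μ (1 : ℤ_[P])) ^ (P * m) = expand P (monomial (m • μ) 1) := by
        rw [expand_monomial, monomial_pow, one_pow, smul_smul]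
      rw [mul_pow, e3, pow_mul h, e2, add_pow, Finset.mul_sum]
      refine Finset.sum_congr rfl fun τ _ => ?_
      rw [map_mul, map_pow, MvPolynomial.smul_eq_C_mul, map_natCast]
      ring
    rw [e1, map_sum, Finset.mul_sum, Finset.mul_sum]
    refine Finset.sum_congr rfl fun τ hτ => ?_
    rw [Finset.mem_range] at hτ
    rw [map_smul, smul_eq_mul]
    have e4 : LL (expand P (monomial (m • μ) 1 * H ^ (m - τ)) * E ^ τ) =
        ∑ x ∈ (E ^ τ).support, LL (expand P (monomial (m • μ) 1 * H ^ (m - τ)) *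
          monomial x (coeff x (E ^ τ))) := by
      conv_lhs => rw [← MvPolynomial.support_sum_monomial_coeff (E ^ τ)]
      rw [Finset.mul_sum, map_sum]
    have e5 : (monomial (m • μ) (1 : ℤ_[P]) * H ^ (m - τ)).IsHomogeneous
        (m * ∑ i, μ i + e * (m - τ)) := by
      refine MvPolynomial.IsHomogeneous.mul ?_ (hHh.pow _)
      refine isHomogeneous_monomial 1 ?_
      rw [deg_eq_sum, Finset.mul_sum]
      rfl
    rw [e4, hgg, Finset.mul_sum, Finset.mul_sum]
    simp only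
    rw [Finset.mul_sum, Finset.mul_sum]
    refine Finset.sum_congr rfl fun x hx => ?_
    rw [LL_expand P e5]
    have e6 := hκ τ x
    have e7 : (∑ i, μ i + e) * m = m * ∑ i, μ i + e * (m - τ) + e * τ := by
      obtain ⟨k, rfl⟩ : ∃ k, m = τ + k := ⟨m - τ, by omega⟩
      rw [Nat.add_sub_cancel_left]
      ring
    have e8 : (-(P : ℤ_[P])) ^ (m * ∑ i, μ i + e * (m - τ) + ∑ i, beta P x i) =
        (-(P : ℤ_[P])) ^ (m * ∑ i, μ i + e * (m - τ)) *
          ((-1) ^ (∑ i, beta P x i) * (P : ℤ_[P]) ^ (∑ i, beta P x i)) := by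
      rw [pow_add, neg_pow (P : ℤ_[P]) (∑ i, beta P x i)]
    have e9 : (-(P : ℤ_[P])) ^ (m * ∑ i, μ i + e * (m - τ) + e * τ) =
        (-(P : ℤ_[P])) ^ (m * ∑ i, μ i + e * (m - τ)) *
          ((-1) ^ (e * τ) * (P : ℤ_[P]) ^ (e * τ)) := by
      rw [pow_add, neg_pow (P : ℤ_[P]) (e * τ)]
    have e10 : ((-1 : ℤ_[P]) ^ (e * τ)) * ((-1) ^ (e * τ)) = 1 := by
      rw [← mul_pow]; simp
    rw [e7, e8, e9, pow_add (-1 : ℤ_[P]) (∑ i, beta P x i) (e * τ)]
    have e11 : (P : ℤ_[P]) ^ ((e + 1) * τ) = (P : ℤ_[P]) ^ (e * τ) * (P : ℤ_[P]) ^ τ := by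
      rw [← pow_add]; congr 1; ring
    rw [e11, pow_add] at e6
    linear_combination ((m.choose τ : ℤ_[P]) * (-(P : ℤ_[P])) ^ (m * ∑ i, μ i + e * (m - τ)) *
      (-1) ^ (∑ i, beta P x i) *
      LL (Op (ph P x) (monomial (m • μ) 1 * H ^ (m - τ) * monomial (beta P x) 1))) * e6 -
      ((m.choose τ : ℤ_[P]) * (-(P : ℤ_[P])) ^ (m * ∑ i, μ i + e * (m - τ)) *
      (-1) ^ (∑ i, beta P x i) * (P : ℤ_[P]) ^ (e * τ) * (P : ℤ_[P]) ^ τ * κ τ x *
      LL (Op (ph P x) (monomial (m • μ) 1 * H ^ (m - τ) * monomial (beta P x) 1))) * e10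
  -- the small indices are admissible
  have claim2 : ∀ τ, τ ≤ K → Adm S K e μ H (K + Fintype.card σ * K)
      (K * dh + e * (Fintype.card σ * K))
      (fun m => ((m.choose τ : ℤ_[P]) * (P : ℤ_[P]) ^ τ) * gg τ m) := by
    intro τ hτ
    obtain ⟨u, hu⟩ := exists_inv_factorial P (k := τ) (by omega)
    have h1 : ∀ x ∈ (E ^ τ).support, Adm S K e μ H (K + Fintype.card σ * K)
        (K * dh + e * (Fintype.card σ * K)) (fun m => (m.descFactorial τ : ℤ_[P]) *
          LL (Op (ph P x) (monomial (m • μ) 1 * H ^ (m - τ) * monomial (beta P x) 1))) := by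
      intro x hx
      obtain ⟨φ0, φ1, hφ, hgood⟩ := ph_split P S (K := K) (e := e) μ H hHN hKP x
      have h2 : bas μ H 0 τ (beta P x) ∈ TT S K e μ H K (K * dh) := by
        refine bas_mem (Nat.zero_le _) hτ ?_ ?_
        · refine beta_sum_le P x (K * dh) hP0 ((hE3 τ x hx).trans ?_)
          exact Nat.mul_le_mul_left _ (Nat.mul_le_mul_right _ hτ)
        · exact floor_bound P hP0 S hK _ x (hE2 τ x (mem_support_iff.mp hx))
      refine ⟨fun m => Op φ0 (bas μ H 0 τ (beta P x) m), hgood _ _ _ h2,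
        fun m => LL (Op φ1 (bas μ H 0 τ (beta P x) m)), fun m => ?_⟩
      have h3 : ∀ Z : MvPolynomial σ ℤ_[P], Op (ph P x) Z =
          Op φ0 Z + (P : ℤ_[P]) ^ (K + 1) • Op φ1 Z := by
        intro Z
        rw [Op_congr hφ, Op_add, Op_smul]
      have h4 : (m.descFactorial τ : ℤ_[P]) *
          LL (Op (ph P x) (monomial (m • μ) 1 * H ^ (m - τ) * monomial (beta P x) 1)) =
          LL (Op (ph P x) (bas μ H 0 τ (beta P x) m)) := by
        rw [bas, pow_zero, one_mul, map_smul, map_smul, smul_eq_mul]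
      beta_reduce
      rw [h4, h3, map_add, map_smul, smul_eq_mul]
    refine (Adm.smul (Adm.sum (E ^ τ).support fun x hx => Adm.smul (h1 x hx)
      ((-1 : ℤ_[P]) ^ (∑ i, beta P x i + e * τ) * κ τ x)) (u * (P : ℤ_[P]) ^ τ)).congr fun m => ?_
    have h5 : (m.choose τ : ℤ_[P]) = u * (m.descFactorial τ : ℤ_[P]) := by
      rw [Nat.descFactorial_eq_factorial_mul_choose, Nat.cast_mul, ← mul_assoc, hu, one_mul]
    rw [h5, hgg, Finset.mul_sum, Finset.mul_sum]
    refine Finset.sum_congr rfl fun x _ => ?_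
    ring
  refine ⟨fun m => ∑ τ ∈ Finset.range (m + 1), ((m.choose τ : ℤ_[P]) * (P : ℤ_[P]) ^ τ) * gg τ m,
    ?_, claim1⟩
  refine ((Adm.sum (Finset.range (K + 1)) fun τ hτ => claim2 τ (by
    rw [Finset.mem_range] at hτ; omega)).add (Adm.small (fun m => ∑ j ∈ Finset.range (m + 1),
      ((m.choose (K + 1 + j) : ℤ_[P]) * (P : ℤ_[P]) ^ j) * gg (K + 1 + j) m))).congr fun m => ?_
  have h1 : ∑ τ ∈ Finset.range (m + 1), ((m.choose τ : ℤ_[P]) * (P : ℤ_[P]) ^ τ) * gg τ m =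
      ∑ τ ∈ Finset.range (K + 1 + (m + 1)),
        ((m.choose τ : ℤ_[P]) * (P : ℤ_[P]) ^ τ) * gg τ m := by
    refine Finset.sum_subset (fun τ hτ => ?_) fun τ _ hτ => ?_
    · rw [Finset.mem_range] at hτ ⊢
      omega
    · rw [Finset.mem_range, not_lt] at hτ
      rw [Nat.choose_eq_zero_of_lt (by omega), Nat.cast_zero, zero_mul, zero_mul]
  rw [h1, Finset.sum_range_add, Finset.mul_sum]
  congr 1
  refine Finset.sum_congr rfl fun j _ => ?_
  rw [pow_add (P : ℤ_[P]) (K + 1) j]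
  ring

end Pool.Agent.MP_410f3c_al.Q
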