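import Pool.Agent.MP_410f3c_al.Q.KLA

/-!
# Nondegenerate lowest forms: products of powers
-/

set_option autoImplicit false
set_option linter.unusedSectionVars false

open MvPolynomial

namespace Pool.Agent.MP_410f3c_al.Q

variable {ι : Type} [Fintype ι] [Nonempty ι] {κ : Type} [Fintype κ]

theorem prod_dvd_deriv (i : ι) (H : κ → MvPolynomial ι ℂ) (a : κ → ℕ) (ha : ∀ j, 1 ≤ a j)
    (s : Finset κ) :
    (∏ j ∈ s, H j ^ a j) ∣ (∏ j ∈ s, H j) * pderiv i (∏ j ∈ s, H j ^ a j) := by
  classical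
  induction s using Finset.induction_on with
  | empty => simp
  | insert b s hb ih =>
    rw [Finset.prod_insert hb, Finset.prod_insert hb]
    set P := ∏ j ∈ s, H j ^ a j with hP
    set Q := ∏ j ∈ s, H j with hQ
    obtain ⟨W, hW⟩ := ih
    have h1 : pderiv i (H b ^ a b * P) =
        H b ^ a b * pderiv i P + P * ((a b : MvPolynomial ι ℂ) * H b ^ (a b - 1) *
          pderiv i (H b)) := by
      rw [Derivation.leibniz, smul_eq_mul, smul_eq_mul, Derivation.leibniz_pow, smul_eq_mul,
        nsmul_eq_mul]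
      ring
    refine ⟨H b * W + (a b : MvPolynomial ι ℂ) * Q * pderiv i (H b), ?_⟩
    rw [h1]
    have h2 : H b ^ a b = H b * H b ^ (a b - 1) := by
      rw [← pow_succ', Nat.sub_add_cancel (ha b)]
    rw [h2]
    linear_combination (H b * H b * H b ^ (a b - 1)) * hW

theorem homog_prod (H : κ → MvPolynomial ι ℂ) (d : κ → ℕ) (hH : ∀ j, (H j).IsHomogeneous (d j))
    (s : Finset κ) : (∏ j ∈ s, H j).IsHomogeneous (∑ j ∈ s, d j) :=
  MvPolynomial.IsHomogeneous.prod s _ _ fun j _ => hH j

/-- the data of a product of powers of forms with nondegenerate product -/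
theorem exists_nd (H : κ → MvPolynomial ι ℂ) (a d : κ → ℕ)
    (hH : ∀ j, (H j).IsHomogeneous (d j)) (hd : ∀ j, 1 ≤ d j) (ha : ∀ j, 1 ≤ a j)
    (hnd : ∀ z : ι → ℂ, z ≠ 0 → ∃ i, z i * eval z (pderiv i (∏ j, H j)) ≠ 0) :
    ∃ D : ND ι κ, D.F = ∏ j, H j ^ a j ∧ D.e = ∑ j, a j * d j := by
  classical
  set A : κ → MvPolynomial ι ℂ := H with hA
  set P : κ → MvPolynomial ι ℂ := fun j => ∏ l ∈ Finset.univ.erase j, H l ^ a l with hP
  set Q : κ → MvPolynomial ι ℂ := fun j => ∏ l ∈ Finset.univ.erase j, H l with hQ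
  have hRj : ∀ j, (∏ l, H l) = H j * Q j := fun j =>
    (Finset.mul_prod_erase Finset.univ H (Finset.mem_univ j)).symm
  have hFj : ∀ j, (∏ l, H l ^ a l) = H j ^ a j * P j := fun j =>
    (Finset.mul_prod_erase Finset.univ (fun l => H l ^ a l) (Finset.mem_univ j)).symm
  have hRne : (∏ l, H l) ≠ 0 := by
    intro h0
    obtain ⟨i, hi⟩ := hnd (fun _ => 1) (by
      intro h
      have := congrFun h (Classical.arbitrary ι)
      simp at this)
    rw [h0] at hi
    simp at hi
  have hHne : ∀ j, H j ≠ 0 := fun j h0 => hRne (by rw [hRj j, h0, zero_mul])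
  have hQne : ∀ j, Q j ≠ 0 := fun j h0 => hRne (by rw [hRj j, h0, mul_zero])
  have hPne : ∀ j, P j ≠ 0 := fun j => Finset.prod_ne_zero_iff.mpr fun l _ => pow_ne_zero _ (hHne l)
  have hPh : ∀ j, (P j).IsHomogeneous (∑ l ∈ Finset.univ.erase j, a l * d l) := by
    intro j
    refine MvPolynomial.IsHomogeneous.prod _ _ _ fun l _ => ?_
    rw [mul_comm]
    exact (hH l).pow (a l)
  have hQh : ∀ j, (Q j).IsHomogeneous (∑ l ∈ Finset.univ.erase j, d l) := fun j =>
    homog_prod H d hH _
  have hY : ∀ j i, ∃ Y : MvPolynomial ι ℂ, Q j * pderiv i (P j) = P j * Y := fun j i =>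
    prod_dvd_deriv i H a ha (Finset.univ.erase j)
  choose Y hY using hY
  have hvan : ∀ j, ∀ z : ι → ℂ, z ≠ 0 → eval z (H j) = 0 → eval z (Q j) = 0 → False := by
    intro j z hz h1 h2
    obtain ⟨i, hi⟩ := hnd z hz
    apply hi
    rw [hRj j, Derivation.leibniz, smul_eq_mul, smul_eq_mul, map_add, map_mul, map_mul, h1, h2]
    ring
  refine ⟨⟨∏ l, H l ^ a l, ∑ l, a l * d l, ?_, H, P, Q, Y, a, d,
    fun j => ∑ l ∈ Finset.univ.erase j, a l * d l, fun j => ∑ l ∈ Finset.univ.erase j, d l,
    ∑ l, a l, hH, hPh, hQh, ha, hd, ?_, hFj, hY, ?_, ?_, hQne, ?_, ?_⟩, rfl, rfl⟩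
  · refine MvPolynomial.IsHomogeneous.prod _ _ _ fun l _ => ?_
    rw [mul_comm]
    exact (hH l).pow (a l)
  · intro j
    exact (Finset.add_sum_erase Finset.univ (fun l => a l * d l) (Finset.mem_univ j)).symm
  · intro j i
    by_cases h0 : Y j i = 0
    · rw [h0, totalDegree_zero]; exact Nat.zero_le _
    · have h1 : (P j * Y j i).totalDegree = (P j).totalDegree + (Y j i).totalDegree :=
        totalDegree_mul_of_isDomain (hPne j) h0
      have h2 : (Q j * pderiv i (P j)).totalDegree ≤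
          ∑ l ∈ Finset.univ.erase j, d l + (P j).totalDegree :=
        td_mul_le (hQh j).totalDegree_le ((td_pderiv i (P j)).trans (Nat.sub_le _ _))
      rw [hY j i, h1] at h2
      omega
  · intro j
    show (∏ l ∈ Finset.univ.erase j, H l ^ a l) ∣ (∏ l ∈ Finset.univ.erase j, H l) ^ (∑ l, a l)
    rw [← Finset.prod_pow]
    refine Finset.prod_dvd_prod_of_dvd _ _ fun l _ => ?_
    refine pow_dvd_pow _ ?_
    exact Finset.single_le_sum (f := fun l => a l) (fun _ _ => Nat.zero_le _) (Finset.mem_univ l)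
  · intro j z hz
    by_contra hcon
    push Not at hcon
    have hE : ∑ i, z i * eval z (pderiv i (H j)) = (d j : ℂ) * eval z (H j) := by
      have h1 := (hH j).sum_X_mul_pderiv
      have h2 := congrArg (eval z) h1
      rw [map_sum, map_nsmul, nsmul_eq_mul] at h2
      rw [← h2]
      refine Finset.sum_congr rfl fun i _ => ?_
      rw [map_mul, eval_X]
    rw [Finset.sum_eq_zero fun i _ => hcon i] at hE
    have hz0 : eval z (H j) = 0 := by
      rcases mul_eq_zero.mp hE.symm with h1 | h1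
      · exact absurd h1 (Nat.cast_ne_zero.mpr (by have := hd j; omega))
      · exact h1
    obtain ⟨i, hi⟩ := hnd z hz
    apply hi
    rw [hRj j, Derivation.leibniz, smul_eq_mul, smul_eq_mul, map_add, map_mul, map_mul, hz0]
    linear_combination (eval z (Q j)) * hcon i
  · intro z hz
    by_contra hcon
    push Not at hcon
    have hκ : Nonempty κ := by
      by_contra h0
      rw [not_nonempty_iff] at h0
      obtain ⟨i, hi⟩ := hnd z hz
      apply hi
      simp
    have h1 := hcon (Classical.arbitrary κ)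
    rw [hQ] at h1
    simp only at h1
    rw [map_prod, Finset.prod_eq_zero_iff] at h1
    obtain ⟨j, _, hj⟩ := h1
    exact hvan j z hz hj (hcon j)

end Pool.Agent.MP_410f3c_al.Q
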