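import Mathlib

/-!
# Nondegenerate lowest forms: finitely generated rings specialise to the `p`-adic integers
-/

set_option autoImplicit false
set_option linter.unusedSectionVars false

open Polynomial

namespace Pool.Agent.MP_410f3c_al.Q

/-- a nonconstant integer polynomial has values divisible by arbitrarily large primes -/
theorem schur (h : ℤ[X]) (hd : h.natDegree ≠ 0) (B : ℕ) :
    ∃ P : ℕ, P.Prime ∧ B < P ∧ ∃ k : ℤ, (P : ℤ) ∣ h.eval k := by
  obtain ⟨P0, hP0, hP0p⟩ := Nat.exists_infinite_primes (B + 1)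
  by_cases hc : h.eval 0 = 0
  · exact ⟨P0, hP0p, by omega, 0, by rw [hc]; exact dvd_zero _⟩
  set c : ℤ := h.eval 0 with hcdef
  set N : ℤ := (B.factorial : ℤ) with hN
  have hN0 : N ≠ 0 := by
    rw [hN]; exact_mod_cast Nat.factorial_ne_zero B
  have h1 : ∀ y : ℤ, h.eval (c * N * y) = c * (1 + N * y * h.divX.eval (c * N * y)) := by
    intro y
    conv_lhs => rw [← Polynomial.divX_mul_X_add h]
    rw [eval_add, eval_mul, eval_X, eval_C, coeff_zero_eq_eval_zero, ← hcdef]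
    ring
  have h2 : ∃ y : ℤ, (1 + N * y * h.divX.eval (c * N * y)) ≠ 1 ∧
      (1 + N * y * h.divX.eval (c * N * y)) ≠ -1 := by
    by_contra hcon
    push Not at hcon
    have h3 : ((h - C c) * (h + C c)) = 0 := by
      refine Polynomial.eq_zero_of_infinite_isRoot _ ?_
      refine Set.Infinite.mono (s := Set.range fun y : ℤ => c * N * y) ?_ ?_
      · rintro _ ⟨y, rfl⟩
        rw [Set.mem_ofPred_eq, IsRoot.def, eval_mul, eval_sub, eval_add, eval_C, h1 y]
        by_cases h4 : (1 + N * y * h.divX.eval (c * N * y)) = 1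
        · rw [h4]; ring
        · rw [hcon y h4]; ring
      · refine Set.infinite_range_of_injective ?_
        intro a b hab
        exact mul_left_cancel₀ (mul_ne_zero hc hN0) hab
    rcases mul_eq_zero.mp h3 with h4 | h4
    · rw [sub_eq_zero] at h4
      rw [h4, natDegree_C] at hd
      exact hd rfl
    · rw [add_eq_zero_iff_eq_neg, ← C_neg] at h4
      rw [h4, natDegree_C] at hd
      exact hd rfl
  obtain ⟨y, hy1, hy2⟩ := h2
  set q : ℤ := 1 + N * y * h.divX.eval (c * N * y) with hq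
  by_cases hq0 : q = 0
  · exact ⟨P0, hP0p, by omega, c * N * y, by rw [h1, ← hq, hq0, mul_zero]; exact dvd_zero _⟩
  have hq1 : q.natAbs ≠ 1 := by
    intro h4
    rcases Int.natAbs_eq q with h5 | h5
    · rw [h4] at h5; exact hy1 (by simpa using h5)
    · rw [h4] at h5; exact hy2 (by simpa using h5)
  have hPp := Nat.minFac_prime hq1
  have hPd : ((q.natAbs.minFac : ℕ) : ℤ) ∣ q :=
    Int.natCast_dvd.mpr (Nat.minFac_dvd _)
  refine ⟨q.natAbs.minFac, hPp, ?_, c * N * y, by rw [h1]; exact Dvd.dvd.mul_left hPd c⟩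
  by_contra hle
  push Not at hle
  have h5 : ((q.natAbs.minFac : ℕ) : ℤ) ∣ N := by
    rw [hN]
    exact_mod_cast Nat.dvd_factorial hPp.pos hle
  have h6 : ((q.natAbs.minFac : ℕ) : ℤ) ∣ 1 := by
    have h7 : (1 : ℤ) = q - N * (y * h.divX.eval (c * N * y)) := by rw [hq]; ring
    rw [h7]
    exact dvd_sub hPd (Dvd.dvd.mul_right h5 _)
  have h8 := Int.eq_one_of_dvd_one (by positivity) h6
  have h9 := hPp.one_lt
  omega

theorem clearDen (f : ℚ[X]) : ∃ (N : ℤ) (g : ℤ[X]), N ≠ 0 ∧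
    g.map (algebraMap ℤ ℚ) = C (N : ℚ) * f := by
  obtain ⟨b, hb0, hb⟩ := IsLocalization.integerNormalization_spec (nonZeroDivisors ℤ) f
  refine ⟨b, IsLocalization.integerNormalization (nonZeroDivisors ℤ) f,
    nonZeroDivisors.ne_zero hb0, ?_⟩
  rw [hb, ← smul_eq_C_mul]
  ext i
  simp

/-- a number field embeds into `ℚ_P` for infinitely many `P`, integrally on a finite set -/
theorem numberField_padic (K : Type) [Field K] [Algebra ℚ K] [FiniteDimensional ℚ K]
    (T : Finset K) (B : ℕ) : ∃ (P : ℕ) (_ : Fact P.Prime), B < P ∧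
      ∃ φ : K →+* ℚ_[P], ∀ t ∈ T, ‖φ t‖ ≤ 1 := by
  classical
  set pb := Field.powerBasisOfFiniteOfSeparable ℚ K with hpb
  set h : ℚ[X] := minpoly ℚ pb.gen with hh
  have hsep : h.Separable := Algebra.IsSeparable.isSeparable ℚ pb.gen
  obtain ⟨u, w, huw⟩ := hsep
  obtain ⟨Nh, hZ, hNh, hhZ⟩ := clearDen h
  obtain ⟨Nu, uZ, hNu, huZ⟩ := clearDen u
  obtain ⟨Nw, wZ, hNw, hwZ⟩ := clearDen w
  have hinj : Function.Injective (Polynomial.map (algebraMap ℤ ℚ)) :=
    Polynomial.map_injective _ (algebraMap ℤ ℚ).injective_int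
  have hbez : C Nw * uZ * hZ + C Nu * wZ * derivative hZ = C (Nh * Nu * Nw) := by
    apply hinj
    rw [Polynomial.map_add, Polynomial.map_mul, Polynomial.map_mul, Polynomial.map_mul,
      Polynomial.map_mul, Polynomial.map_C, Polynomial.map_C, Polynomial.map_C,
      ← Polynomial.derivative_map, hhZ, huZ, hwZ, derivative_mul, derivative_C]
    have e1 : (algebraMap ℤ ℚ) Nw = (Nw : ℚ) := rfl
    have e2 : (algebraMap ℤ ℚ) Nu = (Nu : ℚ) := rfl
    have e3 : (algebraMap ℤ ℚ) (Nh * Nu * Nw) = (Nh : ℚ) * (Nu : ℚ) * (Nw : ℚ) := by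
      rw [map_mul, map_mul]; rfl
    rw [e1, e2, e3, C_mul, C_mul]
    linear_combination (C (Nh : ℚ) * C (Nu : ℚ) * C (Nw : ℚ)) * huw
  have hdeg : hZ.natDegree ≠ 0 := by
    have h1 : (hZ.map (algebraMap ℤ ℚ)).natDegree = hZ.natDegree :=
      Polynomial.natDegree_map_eq_of_injective (algebraMap ℤ ℚ).injective_int _
    rw [← h1, hhZ, natDegree_C_mul (by exact_mod_cast hNh)]
    exact (minpoly.natDegree_pos pb.isIntegral_gen).ne'
  have hT : ∀ t : K, ∃ (N : ℤ) (g : ℤ[X]) (q : ℚ[X]), N ≠ 0 ∧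
      g.map (algebraMap ℤ ℚ) = C (N : ℚ) * q ∧ t = aeval pb.gen q := by
    intro t
    obtain ⟨q, hq⟩ := pb.exists_eq_aeval' t
    obtain ⟨N, g, hN, hg⟩ := clearDen q
    exact ⟨N, g, q, hN, hg, hq⟩
  choose Nt gt qt hNt hgt hqt using hT
  obtain ⟨P, hP, hBP, k, hk⟩ := schur hZ hdeg
    (B + Nh.natAbs + (Nh * Nu * Nw).natAbs + ∑ t ∈ T, (Nt t).natAbs)
  have : Fact P.Prime := ⟨hP⟩
  have hnd : ∀ z : ℤ, z ≠ 0 → z.natAbs < P → ¬ (P : ℤ) ∣ z := by
    intro z hz hzP hdvd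
    have := Nat.le_of_dvd (Int.natAbs_pos.mpr hz) (Int.natCast_dvd.mp hdvd)
    omega
  have hd1 : ¬ (P : ℤ) ∣ Nh * Nu * Nw :=
    hnd _ (mul_ne_zero (mul_ne_zero hNh hNu) hNw) (by omega)
  have hd2 : ¬ (P : ℤ) ∣ (derivative hZ).eval k := by
    intro hcon
    apply hd1
    have h1 := congrArg (Polynomial.eval k) hbez
    rw [eval_add, eval_mul, eval_mul, eval_mul, eval_mul, eval_C, eval_C, eval_C] at h1
    rw [← h1]
    exact dvd_add (Dvd.dvd.mul_left hk _) (Dvd.dvd.mul_left hcon _)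
  have hae : ∀ (F : ℤ[X]), aeval ((k : ℤ) : ℤ_[P]) F = ((F.eval k : ℤ) : ℤ_[P]) := by
    intro F
    have := Polynomial.aeval_algebraMap_apply (A := ℤ) ℤ_[P] k F
    simp only [algebraMap_int_eq, eq_intCast, Polynomial.coe_aeval_eq_eval] at this
    exact this
  obtain ⟨z, hz, -⟩ := hensels_lemma (p := P) (F := hZ) (a := ((k : ℤ) : ℤ_[P])) (by
    rw [hae, hae]
    have h1 : ‖((hZ.eval k : ℤ) : ℤ_[P])‖ < 1 := (PadicInt.norm_int_lt_one_iff_dvd _).mpr hk
    have h2 : ‖(((derivative hZ).eval k : ℤ) : ℤ_[P])‖ = 1 := by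
      refine le_antisymm (PadicInt.norm_le_one _) ?_
      by_contra hlt
      push Not at hlt
      exact hd2 ((PadicInt.norm_int_lt_one_iff_dvd _).mp hlt)
    rw [h2, one_pow]
    exact h1)
  -- the root of the minimal polynomial
  set zq : ℚ_[P] := algebraMap ℤ_[P] ℚ_[P] z with hzq
  have hco : ∀ F : ℤ[X], aeval zq (F.map (algebraMap ℤ ℚ)) =
      algebraMap ℤ_[P] ℚ_[P] (aeval z F) := by
    intro F
    rw [Polynomial.aeval_map_algebraMap, hzq, Polynomial.aeval_algebraMap_apply]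
  have hy : aeval zq h = 0 := by
    have h1 := hco hZ
    rw [hhZ, hz, map_mul, aeval_C, map_zero] at h1
    rcases mul_eq_zero.mp h1 with h2 | h2
    · exfalso
      have : (algebraMap ℚ ℚ_[P]) (Nh : ℚ) = ((Nh : ℤ) : ℚ_[P]) := by
        rw [eq_ratCast]; push_cast; rfl
      rw [this] at h2
      exact hNh (by exact_mod_cast h2)
    · exact h2
  refine ⟨P, inferInstance, by omega, (pb.lift zq hy).toRingHom, ?_⟩
  intro t ht
  have h1 : (pb.lift zq hy).toRingHom t = aeval zq (qt t) := by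
    conv_lhs => rw [hqt t]
    exact pb.lift_aeval _ _ _
  have h2 := hco (gt t)
  rw [hgt t, map_mul, aeval_C, ← h1] at h2
  have h3 : (algebraMap ℚ ℚ_[P]) (Nt t : ℚ) = ((Nt t : ℤ) : ℚ_[P]) := by
    rw [eq_ratCast]; push_cast; rfl
  have h4 : ‖((Nt t : ℤ) : ℚ_[P])‖ = 1 := by
    rw [← PadicInt.norm_intCast_eq_padic_norm]
    refine le_antisymm (PadicInt.norm_le_one _) ?_
    by_contra hlt
    push Not at hlt
    refine hnd _ (hNt t) ?_ ((PadicInt.norm_int_lt_one_iff_dvd _).mp hlt)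
    have : (Nt t).natAbs ≤ ∑ t ∈ T, (Nt t).natAbs :=
      Finset.single_le_sum (f := fun t => (Nt t).natAbs) (fun _ _ => Nat.zero_le _) ht
    omega
  have h5 := congrArg norm h2
  rw [h3, norm_mul, h4, one_mul] at h5
  rw [h5]
  exact PadicInt.norm_le_one (aeval z (gt t))

/-- finitely generated subrings of `ℂ` map to `ℤ_P` for infinitely many primes `P` -/
theorem specialise (T : Finset ℂ) (B : ℕ) : ∃ (P : ℕ) (_ : Fact P.Prime), B < P ∧
    Nonempty (Algebra.adjoin ℤ (T : Set ℂ) →+* ℤ_[P]) := by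
  classical
  set A := Algebra.adjoin ℚ (T : Set ℂ) with hA
  have : Algebra.FiniteType ℚ A := (Subalgebra.fg_iff_finiteType _).mp ⟨T, rfl⟩
  obtain ⟨mm, hmm⟩ := Ideal.exists_maximal A
  let _ : Field (A ⧸ mm) := Ideal.Quotient.field mm
  have : Module.Finite ℚ (A ⧸ mm) := finite_of_finite_type_of_isJacobsonRing ℚ (A ⧸ mm)
  set ρ : A →+* (A ⧸ mm) := Ideal.Quotient.mk mm with hρ
  set T' : Finset (A ⧸ mm) := Finset.univ.image (fun t : T =>
    ρ ⟨t.1, Algebra.subset_adjoin t.2⟩) with hT'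
  obtain ⟨P, hP, hBP, φ, hφ⟩ := numberField_padic (A ⧸ mm) T' B
  refine ⟨P, hP, hBP, ?_⟩
  have hsub : ∀ x : ℂ, x ∈ Algebra.adjoin ℤ (T : Set ℂ) → x ∈ A := by
    intro x hx
    induction hx using Algebra.adjoin_induction with
    | mem x hx => exact Algebra.subset_adjoin hx
    | algebraMap r =>
      rw [show (algebraMap ℤ ℂ) r = algebraMap ℚ ℂ (r : ℚ) by simp]
      exact Subalgebra.algebraMap_mem A _
    | add x y _ _ hx hy => exact A.add_mem hx hy
    | mul x y _ _ hx hy => exact A.mul_mem hx hy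
  let inc : Algebra.adjoin ℤ (T : Set ℂ) →+* A :=
    { toFun := fun x => ⟨x.1, hsub x.1 x.2⟩
      map_one' := rfl
      map_mul' := fun _ _ => rfl
      map_zero' := rfl
      map_add' := fun _ _ => rfl }
  have hint : ∀ x : ℂ, ∀ hx : x ∈ Algebra.adjoin ℤ (T : Set ℂ), ‖φ (ρ (inc ⟨x, hx⟩))‖ ≤ 1 := by
    intro x hx
    induction hx using Algebra.adjoin_induction with
    | mem x hx =>
      refine hφ _ ?_
      rw [hT', Finset.mem_image]
      exact ⟨⟨x, hx⟩, Finset.mem_univ _, rfl⟩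
    | algebraMap r =>
      have h1 : inc ⟨(algebraMap ℤ ℂ) r, Subalgebra.algebraMap_mem _ r⟩ =
          inc (algebraMap ℤ (Algebra.adjoin ℤ (T : Set ℂ)) r) := rfl
      rw [h1, eq_intCast (algebraMap ℤ (Algebra.adjoin ℤ (T : Set ℂ))) r, map_intCast,
        map_intCast, map_intCast]
      exact (PadicInt.norm_intCast_eq_padic_norm (p := P) r) ▸ PadicInt.norm_le_one _
    | add x y hx' hy' hx hy =>
      have h1 : inc ⟨x + y, Subalgebra.add_mem _ hx' hy'⟩ = inc ⟨x, hx'⟩ + inc ⟨y, hy'⟩ := rfl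
      rw [h1, map_add, map_add]
      exact le_trans (Padic.nonarchimedean _ _) (max_le hx hy)
    | mul x y hx' hy' hx hy =>
      have h1 : inc ⟨x * y, Subalgebra.mul_mem _ hx' hy'⟩ = inc ⟨x, hx'⟩ * inc ⟨y, hy'⟩ := rfl
      rw [h1, map_mul, map_mul, norm_mul]
      exact mul_le_one₀ hx (norm_nonneg _) hy
  exact ⟨(((φ.comp ρ).comp inc).codRestrict (PadicInt.subring P) fun x => hint x.1 x.2)⟩

end Pool.Agent.MP_410f3c_al.Q
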