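import Pool.Agent.MP_410f3c_al.Q.Cert
import Pool.Agent.MP_410f3c_al.Q.Mom
import Pool.Agent.MP_410f3c_al.Q.Spec
import Pool.Agent.MP_410f3c_al.Q.Prod

/-!
# Nondegenerate lowest forms: assembly
-/

set_option autoImplicit false
set_option linter.unusedSectionVars false

open MvPolynomial

namespace Pool.Agent.MP_410f3c_al.Q

theorem exists_lift {σ : Type} (R : Subalgebra ℤ ℂ) (p : MvPolynomial σ ℂ)
    (hp : ∀ x ∈ p.support, coeff x p ∈ R) :
    ∃ q : MvPolynomial σ R, map (algebraMap R ℂ) q = p := by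
  refine ⟨∑ x : p.support, monomial x.1 ⟨coeff x.1 p, hp x.1 x.2⟩, ?_⟩
  rw [map_sum]
  conv_rhs => rw [← MvPolynomial.support_sum_monomial_coeff p]
  rw [← Finset.sum_coe_sort p.support (fun x => monomial x (coeff x p))]
  refine Finset.sum_congr rfl fun x _ => ?_
  rw [map_monomial]
  rfl

theorem map_bas {σ : Type} [Fintype σ] {A B : Type} [CommRing A] [CommRing B] (φ : A →+* B)
    (μ : σ →₀ ℕ) (H : MvPolynomial σ A) (j τ : ℕ) (ν : σ →₀ ℕ) (m : ℕ) :
    map φ (bas μ H j τ ν m) = bas μ (map φ H) j τ ν m := by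
  have h1 : ∀ s : σ →₀ ℕ, map φ (monomial s (1 : A)) = monomial s (1 : B) := by
    intro s
    rw [map_monomial, map_one φ]
  simp only [bas, MvPolynomial.smul_eq_C_mul, map_mul, map_pow, map_natCast, h1]

variable {ι κ' : Type} [Fintype ι] [Fintype κ'] [Nonempty ι] {κ : Type} [Fintype κ]

theorem main (D : ND ι κ) (μ : ι ⊕ κ' →₀ ℕ) (g : MvPolynomial (ι ⊕ κ') ℂ)
    (hg : ∀ x, coeff x g ≠ 0 → D.e + 1 ≤ ∑ i, x i ∧ D.e ≤ ∑ i : ι, x (Sum.inl i)) (M0 : ℕ) :
    ∃ m : ℕ, M0 ≤ m ∧ LL ((monomial μ 1 * (rename Sum.inl D.F + g)) ^ m) ≠ 0 := by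
  classical
  by_contra hcon
  push Not at hcon
  set H : MvPolynomial (ι ⊕ κ') ℂ := rename Sum.inl D.F with hHdef
  set h : MvPolynomial (ι ⊕ κ') ℂ := H + g with hh
  set K : ℕ := Fintype.card ι - 1 with hKdef
  have hcard : 0 < Fintype.card ι := Fintype.card_pos
  have hS : (firstS ι κ').card = K + 1 := by
    rw [card_firstS]; omega
  set dh : ℕ := max h.totalDegree D.e with hdh
  set c : ℕ := K + Fintype.card (ι ⊕ κ') * K with hc
  set V : ℕ := K * dh + D.e * (Fintype.card (ι ⊕ κ') * K) with hV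
  obtain ⟨M, lam, hM⟩ := cert D μ c V
  set T : Finset ℂ := (h.support.image fun x => coeff x h) ∪ (H.support.image fun x => coeff x H) ∪
    (Finset.range M).image lam with hT
  obtain ⟨P, hP, hPM, ⟨ψ⟩⟩ := specialise T (M0 + K + 2)
  set R : Subalgebra ℤ ℂ := Algebra.adjoin ℤ (T : Set ℂ) with hR
  have hTR : ∀ z ∈ T, z ∈ R := fun z hz => Algebra.subset_adjoin hz
  obtain ⟨hR', hhR⟩ := exists_lift R h (fun x hx => hTR _ (by
    rw [hT]
    exact Finset.mem_union_left _ (Finset.mem_union_left _ (Finset.mem_image_of_mem _ hx))))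
  obtain ⟨HR, hHR⟩ := exists_lift R H (fun x hx => hTR _ (by
    rw [hT]
    exact Finset.mem_union_left _ (Finset.mem_union_right _ (Finset.mem_image_of_mem _ hx))))
  have hlam : ∀ m : ℕ, ∃ l : R, m < M → algebraMap R ℂ l = lam m := by
    intro m
    by_cases hm : m < M
    · refine ⟨⟨lam m, hTR _ ?_⟩, fun _ => rfl⟩
      rw [hT]
      exact Finset.mem_union_right _ (Finset.mem_image_of_mem _ (Finset.mem_range.mpr hm))
    · exact ⟨0, fun h => absurd h hm⟩
  choose lR hlR using hlam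
  have hinj : Function.Injective (algebraMap R ℂ) := Subtype.val_injective
  -- coefficient facts
  have hcoef : ∀ (p : MvPolynomial (ι ⊕ κ') ℂ) (q : MvPolynomial (ι ⊕ κ') R),
      map (algebraMap R ℂ) q = p → ∀ x, coeff x (map ψ q) ≠ 0 → coeff x p ≠ 0 := by
    intro p q hq x hx h0
    apply hx
    rw [coeff_map]
    have h1 : algebraMap R ℂ (coeff x q) = 0 := by rw [← coeff_map, hq, h0]
    have h2 : coeff x q = 0 := hinj (by rw [h1, map_zero])
    rw [h2, map_zero]
  have hHx : ∀ x, coeff x H ≠ 0 → ∑ i, x i = D.e ∧ ∑ i ∈ firstS ι κ', x i = D.e := by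
    intro x hx
    rw [sum_firstS]
    obtain ⟨u, hu, hu0⟩ := coeff_rename_ne_zero _ _ _ hx
    have h1 : ∑ i, u i = D.e := sum_of_isHomogeneous D.hF (mem_support_iff.mpr hu0)
    have h2 : ∀ i : ι, x (Sum.inl i) = u i := by
      intro i
      rw [← hu, Finsupp.mapDomain_apply Sum.inl_injective]
    have h3 : ∀ i : κ', x (Sum.inr i) = 0 := by
      intro i
      rw [← hu, Finsupp.mapDomain_of_notMem_range]
      rintro ⟨j, hj⟩
      exact Sum.inl_ne_inr hj
    have h4 : ∑ i : ι, x (Sum.inl i) = D.e := by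
      rw [← h1]
      exact Finset.sum_congr rfl fun i _ => h2 i
    refine ⟨?_, h4⟩
    rw [Fintype.sum_sum_type, h4, Finset.sum_eq_zero fun i _ => h3 i, add_zero]
  have hHO : ∀ x, coeff x (map ψ HR) ≠ 0 →
      ∑ i, x i = D.e ∧ ∑ i ∈ firstS ι κ', x i = D.e := fun x hx =>
    hHx x (hcoef H HR hHR x hx)
  have hgO : ∀ x, coeff x (map ψ hR' - map ψ HR) ≠ 0 →
      D.e + 1 ≤ ∑ i, x i ∧ D.e ≤ ∑ i ∈ firstS ι κ', x i := by
    intro x hx
    rw [sum_firstS]
    refine hg x ?_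
    refine hcoef g (hR' - HR) ?_ x (by rw [map_sub]; exact hx)
    rw [map_sub, hhR, hHR, hh]
    ring
  have hdeg : (map ψ hR').totalDegree ≤ dh := by
    refine le_trans ?_ (le_max_left _ _)
    refine Finset.sup_le fun x hx => ?_
    exact le_totalDegree (mem_support_iff.mpr (hcoef h hR' hhR x (mem_support_iff.mp hx)))
  obtain ⟨w, ⟨t, ht, ρ, hρ⟩, hw⟩ := moments (firstS ι κ') hS μ (map ψ hR') (map ψ HR) hHO hgO dh
    hdeg (le_max_right _ _) (by omega)
  have hPne : (P : ℤ_[P]) ≠ 0 := by exact_mod_cast hP.out.ne_zero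
  -- vanishing of the moments
  have hmap : ∀ n : ℕ, M0 ≤ n → LL ((monomial μ 1 * map ψ hR') ^ n) = 0 := by
    intro n hn
    have h1 : (monomial μ 1 * map ψ hR') ^ n = map ψ ((monomial μ 1 * hR') ^ n) := by
      rw [map_pow, map_mul, map_monomial, map_one ψ]
    rw [h1, LL_map]
    have h2 : LL ((monomial μ 1 * hR') ^ n) = 0 := by
      apply hinj
      rw [← LL_map, map_pow, map_mul, map_monomial, map_one (algebraMap R ℂ), hhR, map_zero]
      exact hcon n hn
    rw [h2, map_zero]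
  have hw0 : w 0 = (P : ℤ_[P]) ^ K := by
    have h1 := hw 0
    rw [mul_zero, pow_zero, mul_zero, pow_zero, one_mul] at h1
    rw [← h1]
    have h2 : LL (1 : MvPolynomial (ι ⊕ κ') ℤ_[P]) = 1 := by
      have h3 : (1 : MvPolynomial (ι ⊕ κ') ℤ_[P]) = monomial 0 1 := rfl
      rw [h3, LL_monomial]
      simp
    rw [h2, mul_one]
  have hw1 : ∀ m : ℕ, w (m + 1) = 0 := by
    intro m
    have h1 := hw (m + 1)
    have h2 : M0 ≤ P * (m + 1) := by
      have : P * 1 ≤ P * (m + 1) := Nat.mul_le_mul_left P (by omega)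
      omega
    rw [hmap _ h2, mul_zero] at h1
    rcases mul_eq_zero.mp h1.symm with h3 | h3
    · exact absurd h3 (pow_ne_zero _ (neg_ne_zero.mpr hPne))
    · exact h3
  -- the certificate for the class
  have hcert : ∀ f : ℕ → MvPolynomial (ι ⊕ κ') ℤ_[P],
      f ∈ TT (firstS ι κ') K D.e μ (map ψ HR) c V →
      LL (f 0) = ∑ m ∈ Finset.range M, ψ (lR m) * LL (f (m + 1)) := by
    intro f hf
    induction hf using Submodule.span_induction with
    | mem f hf =>
      obtain ⟨j, τ, ν, h1, h2, h3, h4, rfl⟩ := hf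
      rw [sum_firstS] at h4
      have h5 := hM j τ h1 h2 ν h3 h4
      have h6 : LL (bas μ HR j τ ν 0) =
          ∑ m ∈ Finset.range M, lR m * LL (bas μ HR j τ ν (m + 1)) := by
        apply hinj
        rw [← LL_map, map_bas, hHR, h5, map_sum]
        refine Finset.sum_congr rfl fun m hm => ?_
        rw [map_mul, hlR m (Finset.mem_range.mp hm), ← LL_map, map_bas, hHR]
      have h7 := congrArg ψ h6
      rw [← LL_map, map_bas, map_sum] at h7
      rw [h7]
      refine Finset.sum_congr rfl fun m _ => ?_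
      rw [map_mul, ← LL_map, map_bas]
    | zero => simp
    | add f f' _ _ hf hf' =>
      rw [Pi.add_apply, map_add, hf, hf', ← Finset.sum_add_distrib]
      refine Finset.sum_congr rfl fun m _ => ?_
      rw [Pi.add_apply, map_add]
      ring
    | smul a f _ hf =>
      rw [Pi.smul_apply, map_smul, smul_eq_mul, hf, Finset.mul_sum]
      refine Finset.sum_congr rfl fun m _ => ?_
      rw [Pi.smul_apply, map_smul, smul_eq_mul]
      ring
  have h1 := hcert t ht
  have h2 : ∀ m : ℕ, LL (t (m + 1)) = -((P : ℤ_[P]) ^ (K + 1) * ρ (m + 1)) := by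
    intro m
    have h3 := hρ (m + 1)
    rw [hw1 m] at h3
    linear_combination -h3
  have h3 : (P : ℤ_[P]) ^ K = (P : ℤ_[P]) ^ (K + 1) *
      (ρ 0 - ∑ m ∈ Finset.range M, ψ (lR m) * ρ (m + 1)) := by
    rw [← hw0, hρ 0, h1, Finset.sum_congr rfl fun m _ => by rw [h2 m], mul_sub, Finset.mul_sum]
    have h4 : ∑ m ∈ Finset.range M, ψ (lR m) * -((P : ℤ_[P]) ^ (K + 1) * ρ (m + 1)) =
        -∑ m ∈ Finset.range M, (P : ℤ_[P]) ^ (K + 1) * (ψ (lR m) * ρ (m + 1)) := by
      rw [← Finset.sum_neg_distrib]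
      refine Finset.sum_congr rfl fun m _ => ?_
      ring
    rw [h4]
    ring
  have h4 : (1 : ℤ_[P]) = P * (ρ 0 - ∑ m ∈ Finset.range M, ψ (lR m) * ρ (m + 1)) := by
    have h5 : (P : ℤ_[P]) ^ K * 1 = (P : ℤ_[P]) ^ K *
        (P * (ρ 0 - ∑ m ∈ Finset.range M, ψ (lR m) * ρ (m + 1))) := by
      rw [mul_one]
      conv_lhs => rw [h3]
      rw [pow_succ]
      ring
    exact mul_left_cancel₀ (pow_ne_zero _ hPne) h5
  have h5 : (P : ℤ_[P]) ∣ 1 := ⟨_, h4⟩
  have h6 : IsUnit (P : ℤ_[P]) := isUnit_of_dvd_one h5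
  rw [PadicInt.isUnit_iff, PadicInt.norm_p] at h6
  have h7 : (1 : ℝ) < P := by exact_mod_cast hP.out.one_lt
  rw [inv_eq_one] at h6
  linarith

end Pool.Agent.MP_410f3c_al.Q
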