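import Pool.Agent.MP_410f3c_al.Q.Fun

/-!
# Nondegenerate lowest forms: a class of polynomial valued sequences
-/

set_option autoImplicit false
set_option linter.unusedSectionVars false

open MvPolynomial

namespace Pool.Agent.MP_410f3c_al.Q

variable {σ : Type} [Fintype σ] {O : Type} [CommRing O]

/-- diagonal operator -/
noncomputable def Op (φ : (σ →₀ ℕ) → O) : MvPolynomial σ O →ₗ[O] MvPolynomial σ O :=
  (MvPolynomial.basisMonomials σ O).constr O (fun s => monomial s (φ s))

theorem Op_monomial (φ : (σ →₀ ℕ) → O) (s : σ →₀ ℕ) (c : O) :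
    Op φ (monomial s c) = monomial s (φ s * c) := by
  have h : (monomial s c : MvPolynomial σ O) = c • (MvPolynomial.basisMonomials σ O) s := by
    rw [MvPolynomial.coe_basisMonomials, MvPolynomial.smul_monomial, smul_eq_mul, mul_one]
  rw [h, map_smul, Op, Module.Basis.constr_basis, MvPolynomial.smul_monomial, smul_eq_mul,
    mul_comm]

theorem lin_ext {M : Type} [AddCommGroup M] [Module O M] {f g : MvPolynomial σ O →ₗ[O] M}
    (h : ∀ s c, f (monomial s c) = g (monomial s c)) (p : MvPolynomial σ O) : f p = g p := by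
  rw [← MvPolynomial.support_sum_monomial_coeff p, map_sum, map_sum]
  exact Finset.sum_congr rfl fun s _ => h s _

theorem Op_congr {φ ψ : (σ →₀ ℕ) → O} (h : ∀ s, φ s = ψ s) (p : MvPolynomial σ O) :
    Op φ p = Op ψ p := by
  have : φ = ψ := funext h
  rw [this]

theorem Op_mul (φ ψ : (σ →₀ ℕ) → O) (p : MvPolynomial σ O) :
    Op (fun s => φ s * ψ s) p = Op φ (Op ψ p) := by
  have := lin_ext (f := Op (fun s => φ s * ψ s)) (g := (Op φ).comp (Op ψ)) (fun s c => by
    rw [LinearMap.comp_apply, Op_monomial, Op_monomial, Op_monomial, mul_assoc]) p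
  rw [this, LinearMap.comp_apply]

theorem Op_add (φ ψ : (σ →₀ ℕ) → O) (p : MvPolynomial σ O) :
    Op (fun s => φ s + ψ s) p = Op φ p + Op ψ p := by
  have := lin_ext (f := Op (fun s => φ s + ψ s)) (g := Op φ + Op ψ) (fun s c => by
    rw [LinearMap.add_apply, Op_monomial, Op_monomial, Op_monomial, ← map_add, add_mul]) p
  rw [this, LinearMap.add_apply]

theorem Op_smul (a : O) (φ : (σ →₀ ℕ) → O) (p : MvPolynomial σ O) :
    Op (fun s => a * φ s) p = a • Op φ p := by
  have := lin_ext (f := Op (fun s => a * φ s)) (g := a • Op φ) (fun s c => by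
    rw [LinearMap.smul_apply, Op_monomial, Op_monomial, smul_monomial, smul_eq_mul, mul_assoc]) p
  rw [this, LinearMap.smul_apply]

theorem Op_const (a : O) (p : MvPolynomial σ O) : Op (fun _ => a) p = a • p := by
  have := lin_ext (f := Op (fun _ => a)) (g := a • (LinearMap.id : MvPolynomial σ O →ₗ[O] _))
    (fun s c => by
      rw [LinearMap.smul_apply, Op_monomial, LinearMap.id_apply, smul_monomial, smul_eq_mul]) p
  rw [this, LinearMap.smul_apply, LinearMap.id_apply]

theorem Op_coord (i : σ) (p : MvPolynomial σ O) : Op (fun s => (s i : O)) p = NN i p := by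
  have := lin_ext (f := Op (fun s => (s i : O)))
    (g := ((NN i : Derivation O (MvPolynomial σ O) (MvPolynomial σ O)) :
      MvPolynomial σ O →ₗ[O] MvPolynomial σ O)) (fun s c => by
        rw [Op_monomial]
        show _ = NN i (monomial s c)
        rw [NN_monomial, smul_monomial, smul_eq_mul]) p
  rw [this]
  rfl

section cls

variable (S : Finset σ) (K e : ℕ) (μ : σ →₀ ℕ) (H : MvPolynomial σ O)

/-- the basic polynomial valued sequences -/
noncomputable def bas (j τ : ℕ) (ν : σ →₀ ℕ) : ℕ → MvPolynomial σ O := fun m =>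
  ((m : O) ^ j * (m.descFactorial τ : O)) •
    (monomial (m • μ) 1 * H ^ (m - τ) * monomial ν 1)

/-- the class of polynomial valued sequences -/
noncomputable def TT (c V : ℕ) : Submodule O (ℕ → MvPolynomial σ O) :=
  Submodule.span O {f | ∃ j τ : ℕ, ∃ ν : σ →₀ ℕ, j ≤ c ∧ τ ≤ c ∧ ∑ i, ν i ≤ V ∧
    e * τ ≤ ∑ i ∈ S, ν i + K ∧ f = bas μ H j τ ν}

theorem TT_mono {c c' V V' : ℕ} (hc : c ≤ c') (hV : V ≤ V') :
    TT S K e μ H c V ≤ TT S K e μ H c' V' := by
  refine Submodule.span_mono ?_
  rintro f ⟨j, τ, ν, h1, h2, h3, h4, h5⟩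
  exact ⟨j, τ, ν, h1.trans hc, h2.trans hc, h3.trans hV, h4, h5⟩

variable {S K e μ H}

theorem bas_mem {c V j τ : ℕ} {ν : σ →₀ ℕ} (h1 : j ≤ c) (h2 : τ ≤ c) (h3 : ∑ i, ν i ≤ V)
    (h4 : e * τ ≤ ∑ i ∈ S, ν i + K) : bas μ H j τ ν ∈ TT S K e μ H c V :=
  Submodule.subset_span ⟨j, τ, ν, h1, h2, h3, h4, rfl⟩

theorem NN_pow' {A : Type} [CommRing A] (l : σ) (B : MvPolynomial σ A) (b : ℕ) :
    NN l (B ^ b) = (b : A) • (B ^ (b - 1) * NN l B) := by
  rw [Derivation.leibniz_pow, smul_eq_mul, Nat.cast_smul_eq_nsmul]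

theorem NN_mul' {A : Type} [CommRing A] (l : σ) (B C : MvPolynomial σ A) :
    NN l (B * C) = B * NN l C + C * NN l B := by
  rw [Derivation.leibniz, smul_eq_mul, smul_eq_mul]

theorem NN_bas (i : σ) (j τ : ℕ) (ν : σ →₀ ℕ) :
    (fun m => NN i (bas μ H j τ ν m)) =
      (μ i : O) • bas μ H (j + 1) τ ν +
      ∑ x ∈ (NN i H).support, coeff x (NN i H) • bas μ H j (τ + 1) (x + ν) +
      (ν i : O) • bas μ H j τ ν := by
  funext m
  rw [Pi.add_apply, Pi.add_apply, Pi.smul_apply, Pi.smul_apply, Finset.sum_apply]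
  have h1 : ∑ x ∈ (NN i H).support, (coeff x (NN i H) • bas μ H j (τ + 1) (x + ν)) m =
      ((m : O) ^ j * (m.descFactorial (τ + 1) : O)) •
        (monomial (m • μ) 1 * H ^ (m - (τ + 1)) * (NN i H) * monomial ν 1) := by
    have h2 : NN i H = ∑ x ∈ (NN i H).support, monomial x (coeff x (NN i H)) :=
      (MvPolynomial.support_sum_monomial_coeff _).symm
    conv_rhs => rw [h2]
    rw [Finset.mul_sum, Finset.sum_mul, Finset.smul_sum]
    refine Finset.sum_congr rfl fun x _ => ?_
    rw [Pi.smul_apply, bas, smul_comm]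
    congr 1
    have h3 : (monomial x (coeff x (NN i H)) : MvPolynomial σ O) =
        coeff x (NN i H) • monomial x 1 := by
      rw [smul_monomial, smul_eq_mul, mul_one]
    rw [h3, mul_smul_comm, smul_mul_assoc, mul_assoc _ (monomial x 1) (monomial ν 1),
      monomial_mul, mul_one]
  rw [h1, bas, bas, Derivation.map_smul, NN_mul', NN_mul', NN_monomial, NN_monomial, NN_pow',
    Nat.descFactorial_succ, Nat.sub_sub]
  simp only [MvPolynomial.smul_eq_C_mul, map_mul, map_pow, map_natCast, Finsupp.smul_apply,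
    smul_eq_mul, Nat.cast_mul]
  ring

theorem TT_NN (hH : ∀ i, ∀ x ∈ (NN i H).support, ∑ l, x l = e ∧ ∑ l ∈ S, x l = e) (i : σ)
    {c V : ℕ} {f : ℕ → MvPolynomial σ O} (hf : f ∈ TT S K e μ H c V) :
    (fun m => NN i (f m)) ∈ TT S K e μ H (c + 1) (V + e) := by
  induction hf using Submodule.span_induction with
  | mem f hf =>
    obtain ⟨j, τ, ν, h1, h2, h3, h4, rfl⟩ := hf
    rw [NN_bas]
    refine Submodule.add_mem _ (Submodule.add_mem _ ?_ ?_) ?_
    · exact Submodule.smul_mem _ _ (bas_mem (by omega) (by omega) (by omega) h4)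
    · refine Submodule.sum_mem _ fun x hx => Submodule.smul_mem _ _ ?_
      obtain ⟨hx1, hx2⟩ := hH i x hx
      refine bas_mem (by omega) (by omega) ?_ ?_
      · simp only [Finsupp.add_apply, Finset.sum_add_distrib]
        omega
      · simp only [Finsupp.add_apply, Finset.sum_add_distrib]
        rw [hx2, Nat.mul_succ]
        omega
    · exact Submodule.smul_mem _ _ (bas_mem (by omega) (by omega) (by omega) h4)
  | zero =>
    have : (fun m : ℕ => NN i ((0 : ℕ → MvPolynomial σ O) m)) = 0 := by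
      funext m
      simp
    rw [this]
    exact Submodule.zero_mem _
  | add f g _ _ hf hg =>
    have : (fun m : ℕ => NN i ((f + g) m)) = (fun m => NN i (f m)) + fun m => NN i (g m) := by
      funext m
      simp
    rw [this]
    exact Submodule.add_mem _ hf hg
  | smul a f _ hf =>
    have : (fun m : ℕ => NN i ((a • f) m)) = a • (fun m => NN i (f m)) := by
      funext m
      rw [Pi.smul_apply, Pi.smul_apply, Derivation.map_smul]
    rw [this]
    exact Submodule.smul_mem _ _ hf

variable (S K e μ H) in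
/-- multipliers of the class -/
def Good (d : ℕ) (φ : (σ →₀ ℕ) → O) : Prop :=
  ∀ (c V : ℕ) (f : ℕ → MvPolynomial σ O), f ∈ TT S K e μ H c V →
    (fun m => Op φ (f m)) ∈ TT S K e μ H (c + d) (V + e * d)

theorem Good.mono {d d' : ℕ} (hd : d ≤ d') {φ : (σ →₀ ℕ) → O} (h : Good S K e μ H d φ) :
    Good S K e μ H d' φ := fun c V f hf =>
  TT_mono S K e μ H (by omega) (by have := Nat.mul_le_mul_left e hd; omega) (h c V f hf)

theorem Good.congr {d : ℕ} {φ ψ : (σ →₀ ℕ) → O} (h : Good S K e μ H d φ)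
    (hφ : ∀ s, ψ s = φ s) : Good S K e μ H d ψ := by
  have : ψ = φ := funext hφ
  rw [this]; exact h

theorem Good.const (a : O) : Good S K e μ H 0 (fun _ => a) := fun c V f hf => by
  have : (fun m => Op (fun _ => a) (f m)) = a • f := by
    funext m
    rw [Op_const]
    rfl
  rw [this]
  exact TT_mono S K e μ H (by omega) (by omega) (Submodule.smul_mem _ _ hf)

theorem Good.coord (hH : ∀ i, ∀ x ∈ (NN i H).support, ∑ l, x l = e ∧ ∑ l ∈ S, x l = e)
    (i : σ) : Good S K e μ H 1 (fun s => (s i : O)) := fun c V f hf => by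
  have : (fun m => Op (fun s => (s i : O)) (f m)) = fun m => NN i (f m) := by
    funext m
    rw [Op_coord]
  rw [this, mul_one]
  exact TT_NN hH i hf

theorem Good.add {d : ℕ} {φ ψ : (σ →₀ ℕ) → O} (h : Good S K e μ H d φ)
    (h' : Good S K e μ H d ψ) : Good S K e μ H d (fun s => φ s + ψ s) := fun c V f hf => by
  have : (fun m => Op (fun s => φ s + ψ s) (f m)) =
      (fun m => Op φ (f m)) + fun m => Op ψ (f m) := by
    funext m
    rw [Op_add]
    rfl
  rw [this]
  exact Submodule.add_mem _ (h c V f hf) (h' c V f hf)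

theorem Good.mul {d d' : ℕ} {φ ψ : (σ →₀ ℕ) → O} (h : Good S K e μ H d φ)
    (h' : Good S K e μ H d' ψ) : Good S K e μ H (d + d') (fun s => φ s * ψ s) :=
    fun c V f hf => by
  have : (fun m => Op (fun s => φ s * ψ s) (f m)) = fun m => Op φ (Op ψ (f m)) := by
    funext m
    rw [Op_mul]
  rw [this]
  have h1 := h _ _ _ (h' c V f hf)
  refine TT_mono S K e μ H ?_ ?_ h1
  · omega
  · rw [Nat.mul_add]; omega

theorem Good.sum {α : Type} (s : Finset α) {d : ℕ} {φ : α → (σ →₀ ℕ) → O}
    (h : ∀ a ∈ s, Good S K e μ H d (φ a)) : Good S K e μ H d (fun y => ∑ a ∈ s, φ a y) := by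
  classical
  induction s using Finset.induction_on with
  | empty =>
    refine (Good.mono (Nat.zero_le d) (Good.const (0 : O))).congr fun s => ?_
    simp
  | insert a s ha ih =>
    refine (Good.add (h a (Finset.mem_insert_self a s))
      (ih fun b hb => h b (Finset.mem_insert_of_mem hb))).congr fun y => ?_
    rw [Finset.sum_insert ha]

theorem Good.prod {α : Type} (s : Finset α) {d : ℕ} {φ : α → (σ →₀ ℕ) → O}
    (h : ∀ a ∈ s, Good S K e μ H d (φ a)) :
    Good S K e μ H (s.card * d) (fun y => ∏ a ∈ s, φ a y) := by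
  classical
  induction s using Finset.induction_on with
  | empty =>
    refine (Good.mono (Nat.zero_le _) (Good.const (1 : O))).congr fun s => ?_
    simp
  | insert a s ha ih =>
    have h1 := Good.mul (h a (Finset.mem_insert_self a s))
      (ih fun b hb => h b (Finset.mem_insert_of_mem hb))
    refine (h1.mono ?_).congr fun y => ?_
    · rw [Finset.card_insert_of_notMem ha, Nat.add_mul]
      omega
    · rw [Finset.prod_insert ha]

theorem Good.desc (hH : ∀ i, ∀ x ∈ (NN i H).support, ∑ l, x l = e ∧ ∑ l ∈ S, x l = e)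
    (i : σ) (k : ℕ) : Good S K e μ H k (fun s => ((s i).descFactorial k : O)) := by
  induction k with
  | zero =>
    refine (Good.const (1 : O)).congr fun s => ?_
    rw [Nat.descFactorial_zero, Nat.cast_one]
  | succ k ih =>
    have h1 := Good.mul (Good.add (Good.coord (K := K) (μ := μ) hH i)
      ((Good.const (-(k : O))).mono (Nat.zero_le 1))) ih
    refine (h1.mono (by omega)).congr fun s => ?_
    rw [Nat.descFactorial_succ, Nat.cast_mul]
    rcases le_or_gt k (s i) with h | h
    · rw [Nat.cast_sub h]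
      ring
    · rw [Nat.descFactorial_of_lt h]
      simp

theorem Good.choose (hH : ∀ i, ∀ x ∈ (NN i H).support, ∑ l, x l = e ∧ ∑ l ∈ S, x l = e)
    (i : σ) (k : ℕ) {u : O} (hu : u * (k.factorial : O) = 1) :
    Good S K e μ H k (fun s => ((s i).choose k : O)) := by
  have h1 := Good.mul (Good.const (S := S) (K := K) (e := e) (μ := μ) (H := H) u)
    (Good.desc (K := K) (μ := μ) hH i k)
  refine (h1.mono (by omega)).congr fun s => ?_
  rw [Nat.descFactorial_eq_factorial_mul_choose, Nat.cast_mul, ← mul_assoc, hu, one_mul]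

end cls

end Pool.Agent.MP_410f3c_al.Q
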