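import Pool.Agent.MP_410f3c_al.Q.KLB
import Pool.Agent.MP_410f3c_al.Q.Cls

/-!
# Nondegenerate lowest forms: the certificate for the class of sequences
-/

set_option autoImplicit false
set_option linter.unusedSectionVars false

open MvPolynomial

namespace Pool.Agent.MP_410f3c_al.Q

variable {ι κ' : Type} [Fintype ι] [Fintype κ'] [Nonempty ι]

/-- the indices of the first group of variables -/
noncomputable def firstS (ι κ' : Type) [Fintype ι] [Fintype κ'] : Finset (ι ⊕ κ') :=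
  Finset.univ.map ⟨Sum.inl, Sum.inl_injective⟩

theorem sum_firstS (x : ι ⊕ κ' →₀ ℕ) : ∑ i ∈ firstS ι κ', x i = ∑ i : ι, x (Sum.inl i) := by
  rw [firstS, Finset.sum_map]
  rfl

theorem card_firstS : (firstS ι κ').card = Fintype.card ι := by
  rw [firstS, Finset.card_map, Finset.card_univ]

/-- restriction of an exponent to the first group -/
noncomputable def resL (x : ι ⊕ κ' →₀ ℕ) : ι →₀ ℕ := Finsupp.equivFunOnFinite.symm fun i => x (Sum.inl i)

theorem resL_apply (x : ι ⊕ κ' →₀ ℕ) (i : ι) : resL x i = x (Sum.inl i) := rfl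

theorem LL_rename (Y : MvPolynomial ι ℂ) (η : ι ⊕ κ' →₀ ℕ) :
    LL (rename Sum.inl Y * monomial η (1 : ℂ)) =
      LL (Y * monomial (resL η) 1) * ((∏ i : κ', (η (Sum.inr i)).factorial : ℕ) : ℂ) := by
  have h0 : Y = ∑ a ∈ Y.support, monomial a (coeff a Y) :=
    (MvPolynomial.support_sum_monomial_coeff Y).symm
  have h1 : LL (rename Sum.inl Y * monomial η (1 : ℂ)) = ∑ a ∈ Y.support,
      LL (rename Sum.inl (monomial a (coeff a Y)) * monomial η (1 : ℂ)) := by
    conv_lhs => rw [h0]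
    rw [map_sum, Finset.sum_mul, map_sum]
  have h2 : LL (Y * monomial (resL η) 1) = ∑ a ∈ Y.support,
      LL (monomial a (coeff a Y) * monomial (resL η) 1) := by
    conv_lhs => rw [h0]
    rw [Finset.sum_mul, map_sum]
  rw [h1, h2, Finset.sum_mul]
  refine Finset.sum_congr rfl fun a _ => ?_
  rw [rename_monomial, monomial_mul, monomial_mul, LL_monomial, LL_monomial, mul_one, mul_assoc]
  congr 1
  rw [← Nat.cast_mul]
  congr 1
  rw [Fintype.prod_sum_type]
  congr 1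
  · refine Finset.prod_congr rfl fun i _ => ?_
    rw [Finsupp.add_apply, Finsupp.mapDomain_apply Sum.inl_injective, Finsupp.add_apply,
      resL_apply]
  · refine Finset.prod_congr rfl fun i _ => ?_
    rw [Finsupp.add_apply, Finsupp.mapDomain_of_notMem_range, zero_add]
    rintro ⟨j, hj⟩
    exact Sum.inl_ne_inr hj

/-- rising product as a polynomial in `m` -/
noncomputable def rp (α q : ℕ) : Polynomial ℂ :=
  ∏ l ∈ Finset.range q, (Polynomial.C (α : ℂ) * Polynomial.X + Polynomial.C ((l + 1 : ℕ) : ℂ))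

theorem rp_eval (α q m : ℕ) :
    (((α * m + q).factorial : ℕ) : ℂ) = ((α * m).factorial : ℂ) * (rp α q).eval (m : ℂ) := by
  induction q with
  | zero => simp [rp]
  | succ q ih =>
    rw [← add_assoc, Nat.factorial_succ, Nat.cast_mul, ih, rp, rp, Finset.prod_range_succ,
      Polynomial.eval_mul, Polynomial.eval_add, Polynomial.eval_mul, Polynomial.eval_C,
      Polynomial.eval_X, Polynomial.eval_C]
    push_cast
    ring

/-- normalising factor -/
noncomputable def nrm (e : ℕ) (μ : ι ⊕ κ' →₀ ℕ) (m : ℕ) : ℂ :=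
  (((∑ i : ι, μ (Sum.inl i) + e) * m).factorial : ℂ) *
    ∏ i : κ', ((μ (Sum.inr i) * m).factorial : ℂ)

theorem nrm_ne (e : ℕ) (μ : ι ⊕ κ' →₀ ℕ) (m : ℕ) : nrm e μ m ≠ 0 := by
  rw [nrm]
  refine mul_ne_zero (Nat.cast_ne_zero.mpr (Nat.factorial_ne_zero _)) ?_
  exact Finset.prod_ne_zero_iff.mpr fun i _ => Nat.cast_ne_zero.mpr (Nat.factorial_ne_zero _)

/-- the basic sequences after normalisation -/
theorem LL_bas (F : MvPolynomial ι ℂ) {e : ℕ} (hF : F.IsHomogeneous e) (μ ν : ι ⊕ κ' →₀ ℕ)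
    (j τ : ℕ) (hν : e * τ ≤ ∑ i : ι, ν (Sum.inl i) + (Fintype.card ι - 1)) (m : ℕ) :
    LL (bas μ (rename Sum.inl F) j τ ν m) = nrm e μ m *
      ((Polynomial.X ^ j * rp (∑ i : ι, μ (Sum.inl i) + e)
        (∑ i : ι, ν (Sum.inl i) + (Fintype.card ι - 1) - e * τ) *
        ∏ i : κ', rp (μ (Sum.inr i)) (ν (Sum.inr i))).eval (m : ℂ) *
      ((m.descFactorial τ : ℂ) *
        II (monomial (m • resL μ) 1 * F ^ (m - τ) * monomial (resL ν) 1))) := by
  by_cases hm : m < τ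
  · rw [bas, Nat.descFactorial_of_lt hm]
    simp
  push Not at hm
  have h1 : monomial (m • μ) (1 : ℂ) * (rename Sum.inl F) ^ (m - τ) * monomial ν 1 =
      rename Sum.inl (F ^ (m - τ)) * monomial (m • μ + ν) 1 := by
    have : monomial (m • μ + ν) (1 : ℂ) = monomial (m • μ) 1 * monomial ν 1 := by
      rw [monomial_mul, mul_one]
    rw [this, map_pow]
    ring
  have h2 : resL (m • μ + ν) = m • resL μ + resL ν := by
    ext i
    rw [resL_apply, Finsupp.add_apply, Finsupp.smul_apply, Finsupp.add_apply, Finsupp.smul_apply,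
      resL_apply, resL_apply]
  have h3 : (F ^ (m - τ) * monomial (m • resL μ + resL ν) (1 : ℂ)) =
      monomial (m • resL μ) 1 * F ^ (m - τ) * monomial (resL ν) 1 := by
    have : monomial (m • resL μ + resL ν) (1 : ℂ) =
        monomial (m • resL μ) 1 * monomial (resL ν) 1 := by
      rw [monomial_mul, mul_one]
    rw [this]
    ring
  have h4 : (monomial (m • resL μ) (1 : ℂ) * F ^ (m - τ) * monomial (resL ν) 1).IsHomogeneous
      (m * ∑ i : ι, μ (Sum.inl i) + e * (m - τ) + ∑ i : ι, ν (Sum.inl i)) := by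
    refine MvPolynomial.IsHomogeneous.mul (MvPolynomial.IsHomogeneous.mul ?_ (hF.pow _)) ?_
    · refine isHomogeneous_monomial 1 ?_
      rw [deg_eq_sum, Finset.mul_sum]
      rfl
    · refine isHomogeneous_monomial 1 ?_
      rw [deg_eq_sum]
      rfl
  have h5 : m * ∑ i : ι, μ (Sum.inl i) + e * (m - τ) + ∑ i : ι, ν (Sum.inl i) +
      (Fintype.card ι - 1) = (∑ i : ι, μ (Sum.inl i) + e) * m +
      (∑ i : ι, ν (Sum.inl i) + (Fintype.card ι - 1) - e * τ) := by
    obtain ⟨k, rfl⟩ : ∃ k, m = τ + k := ⟨m - τ, by omega⟩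
    rw [Nat.add_sub_cancel_left]
    have h6 : (∑ i : ι, μ (Sum.inl i) + e) * (τ + k) =
        (τ + k) * ∑ i : ι, μ (Sum.inl i) + e * k + e * τ := by ring
    rw [h6]
    omega
  rw [bas, map_smul, smul_eq_mul, h1, LL_rename, h2, h3, LL_eq_II h4, h5, rp_eval, nrm,
    Polynomial.eval_mul, Polynomial.eval_mul, Polynomial.eval_pow, Polynomial.eval_X,
    Polynomial.eval_prod]
  have h7 : ((∏ i : κ', ((m • μ + ν : ι ⊕ κ' →₀ ℕ) (Sum.inr i)).factorial : ℕ) : ℂ) =
      (∏ i : κ', ((μ (Sum.inr i) * m).factorial : ℂ)) *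
        ∏ i : κ', (rp (μ (Sum.inr i)) (ν (Sum.inr i))).eval (m : ℂ) := by
    rw [Nat.cast_prod, ← Finset.prod_mul_distrib]
    refine Finset.prod_congr rfl fun i _ => ?_
    rw [← rp_eval, Finsupp.add_apply, Finsupp.smul_apply, smul_eq_mul, mul_comm m]
  rw [h7]
  ring

/-- index set of the basic sequences -/
def Idx (ι κ' : Type) [Fintype ι] [Fintype κ'] (e c V : ℕ) : Type :=
  {p : Fin (c + 1) × Fin (c + 1) × (ι ⊕ κ' → Fin (V + 1)) //
    e * (p.2.1 : ℕ) ≤ ∑ i : ι, (p.2.2 (Sum.inl i) : ℕ) + (Fintype.card ι - 1)}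

noncomputable instance (e c V : ℕ) : Fintype (Idx ι κ' e c V) := by
  unfold Idx
  exact Fintype.ofFinite _

/-- the exponent of an index -/
noncomputable def Idx.nu {e c V : ℕ} (l : Idx ι κ' e c V) : ι ⊕ κ' →₀ ℕ :=
  Finsupp.equivFunOnFinite.symm fun i => (l.1.2.2 i : ℕ)

/-- the certificate -/
theorem cert {κ : Type} [Fintype κ] (D : ND ι κ) (μ : ι ⊕ κ' →₀ ℕ) (c V : ℕ) :
    ∃ (M : ℕ) (lam : ℕ → ℂ), ∀ j τ : ℕ, j ≤ c → τ ≤ c → ∀ ν : ι ⊕ κ' →₀ ℕ,
      ∑ i, ν i ≤ V → D.e * τ ≤ ∑ i : ι, ν (Sum.inl i) + (Fintype.card ι - 1) →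
      LL (bas μ (rename Sum.inl D.F) j τ ν 0) =
        ∑ m ∈ Finset.range M, lam m * LL (bas μ (rename Sum.inl D.F) j τ ν (m + 1)) := by
  obtain ⟨κv, _, v, hv1, hv2⟩ := klF D (resL μ) V
  obtain ⟨M, lam, hM⟩ := certificate (Λ := {l : Idx ι κ' D.e c V // ∑ i, l.nu i ≤ V})
    (fun l m => LL (bas μ (rename Sum.inl D.F) (l.1.1.1 : ℕ) (l.1.1.2.1 : ℕ) l.1.nu m)) (by
      intro y hy
      have hw : ∀ l : {l : Idx ι κ' D.e c V // ∑ i, l.nu i ≤ V}, InV v (fun m =>
          (Polynomial.X ^ (l.1.1.1 : ℕ) * rp (∑ i : ι, μ (Sum.inl i) + D.e)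
            (∑ i : ι, l.1.nu (Sum.inl i) + (Fintype.card ι - 1) - D.e * (l.1.1.2.1 : ℕ)) *
            ∏ i : κ', rp (μ (Sum.inr i)) (l.1.nu (Sum.inr i))).eval (m : ℂ) *
          ((m.descFactorial (l.1.1.2.1 : ℕ) : ℂ) *
            II (monomial (m • resL μ) 1 * D.F ^ (m - (l.1.1.2.1 : ℕ)) *
              monomial (resL l.1.nu) 1))) := by
        intro l
        refine (hv1 (l.1.1.2.1 : ℕ) (monomial (resL l.1.nu) 1) ?_).poly_mul _
        refine le_trans (totalDegree_monomial_le _ _) ?_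
        rw [Finsupp.sum_fintype _ _ fun _ => rfl]
        have h1 := l.2
        rw [Fintype.sum_sum_type] at h1
        show ∑ i : ι, l.1.nu (Sum.inl i) ≤ V
        omega
      have hsum : ∀ m : ℕ, ∑ l : {l : Idx ι κ' D.e c V // ∑ i, l.nu i ≤ V}, y l *
          LL (bas μ (rename Sum.inl D.F) (l.1.1.1 : ℕ) (l.1.1.2.1 : ℕ) l.1.nu m) =
          nrm D.e μ m * ∑ l : {l : Idx ι κ' D.e c V // ∑ i, l.nu i ≤ V}, y l *
          ((Polynomial.X ^ (l.1.1.1 : ℕ) * rp (∑ i : ι, μ (Sum.inl i) + D.e)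
            (∑ i : ι, l.1.nu (Sum.inl i) + (Fintype.card ι - 1) - D.e * (l.1.1.2.1 : ℕ)) *
            ∏ i : κ', rp (μ (Sum.inr i)) (l.1.nu (Sum.inr i))).eval (m : ℂ) *
          ((m.descFactorial (l.1.1.2.1 : ℕ) : ℂ) *
            II (monomial (m • resL μ) 1 * D.F ^ (m - (l.1.1.2.1 : ℕ)) *
              monomial (resL l.1.nu) 1))) := by
        intro m
        rw [Finset.mul_sum]
        refine Finset.sum_congr rfl fun l _ => ?_
        rw [LL_bas D.F D.hF μ l.1.nu _ _ l.1.2 m]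
        ring
      rw [hsum 0]
      refine mul_eq_zero_of_right _ ?_
      refine hv2 (fun m => ∑ l : {l : Idx ι κ' D.e c V // ∑ i, l.nu i ≤ V}, y l * _)
        (InV.sum Finset.univ fun l _ => (hw l).const_mul (y l)) ?_
      intro m hm
      have h3 := hy m hm
      rw [hsum m] at h3
      exact (mul_eq_zero.mp h3).resolve_left (nrm_ne _ _ _))
  refine ⟨M, lam, fun j τ hj hτ ν hν1 hν2 => ?_⟩
  have hlt : ∀ i, ν i < V + 1 := by
    intro i
    have : ν i ≤ ∑ i, ν i :=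
      Finset.single_le_sum (f := fun i => ν i) (fun _ _ => Nat.zero_le _) (Finset.mem_univ i)
    omega
  have hj' : j < c + 1 := by omega
  have hτ' : τ < c + 1 := by omega
  have hnu : ∀ h, Idx.nu (⟨(⟨j, hj'⟩, ⟨τ, hτ'⟩, fun i => ⟨ν i, hlt i⟩), h⟩ :
      Idx ι κ' D.e c V) = ν := by
    intro _
    ext i
    rfl
  have h4 := hM ⟨⟨(⟨j, hj'⟩, ⟨τ, hτ'⟩, fun i => ⟨ν i, hlt i⟩), hν2⟩, by
    rw [hnu]; exact hν1⟩
  simp only [hnu] at h4
  exact h4

end Pool.Agent.MP_410f3c_al.Q
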