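import Mathlib

/-!
# Nondegenerate lowest forms: `p`-adic expansion of factorials
-/

set_option autoImplicit false
set_option linter.unusedSectionVars false

namespace Pool.Agent.MP_410f3c_al.Q

/-- integer sequences whose iterated differences are divisible by powers of `P` -/
def DD (P : ℤ) : ℕ → (ℕ → ℤ) → Prop
  | 0, _ => True
  | n + 1, u => ∃ v : ℕ → ℤ, DD P n v ∧ ∀ b, u (b + 1) - u b = P * v b

theorem DD.mono {P : ℤ} : ∀ (n : ℕ) {u : ℕ → ℤ}, DD P (n + 1) u → DD P n u
  | 0, _, _ => trivial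
  | n + 1, _, ⟨v, hv, h⟩ => ⟨v, DD.mono n hv, h⟩

theorem DD.congr {P : ℤ} {n : ℕ} {u u' : ℕ → ℤ} (h : DD P n u) (hu : ∀ b, u' b = u b) :
    DD P n u' := by
  have : u' = u := funext hu
  rw [this]; exact h

theorem DD.const (P : ℤ) : ∀ (n : ℕ) (c : ℤ), DD P n (fun _ => c)
  | 0, _ => trivial
  | n + 1, _ => ⟨fun _ => 0, DD.const P n 0, fun _ => by ring⟩

theorem DD.add {P : ℤ} : ∀ (n : ℕ) {u u' : ℕ → ℤ}, DD P n u → DD P n u' →
    DD P n (fun b => u b + u' b)
  | 0, _, _, _, _ => trivial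
  | n + 1, u, u', ⟨v, hv, h⟩, ⟨v', hv', h'⟩ =>
    ⟨fun b => v b + v' b, DD.add n hv hv', fun b => by
      have h1 := h b
      have h2 := h' b
      linear_combination h1 + h2⟩

theorem DD.mul {P : ℤ} : ∀ (n : ℕ) {u u' : ℕ → ℤ}, DD P n u → DD P n u' →
    DD P n (fun b => u b * u' b)
  | 0, _, _, _, _ => trivial
  | n + 1, u, u', hu, hu' => by
    obtain ⟨v, hv, h⟩ := hu
    obtain ⟨v', hv', h'⟩ := hu'
    have hu : DD P (n + 1) u := ⟨v, hv, h⟩
    have hu' : DD P (n + 1) u' := ⟨v', hv', h'⟩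
    refine ⟨fun b => (v b * u' b + u b * v' b) + P * (v b * v' b), ?_, fun b => ?_⟩
    · exact DD.add n (DD.add n (DD.mul n hv (DD.mono n hu')) (DD.mul n (DD.mono n hu) hv'))
        (DD.mul n (DD.const P n P) (DD.mul n hv hv'))
    · have h1 := h b
      have h2 := h' b
      have e1 : u (b + 1) = u b + P * v b := by linear_combination h1
      have e2 : u' (b + 1) = u' b + P * v' b := by linear_combination h2
      show u (b + 1) * u' (b + 1) - u b * u' b = _
      rw [e1, e2]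
      ring

theorem DD.linear (P : ℤ) : ∀ n : ℕ, DD P n (fun b => P * b)
  | 0 => trivial
  | n + 1 => ⟨fun _ => 1, DD.const P n 1, fun b => by push_cast; ring⟩

theorem DD.pow_mul (P : ℤ) : ∀ (n : ℕ) (g : ℕ → ℤ), DD P n (fun b => P ^ n * g b)
  | 0, _ => trivial
  | n + 1, g => ⟨fun b => P ^ n * (g (b + 1) - g b), DD.pow_mul P n _, fun b => by ring⟩

theorem DD.pow (P : ℤ) (n : ℕ) {u : ℕ → ℤ} (hu : DD P n u) (k : ℕ) :
    DD P n (fun b => u b ^ k) := by
  induction k with
  | zero => exact (DD.const P n 1).congr fun b => pow_zero _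
  | succ k ih => exact (DD.mul n ih hu).congr fun b => pow_succ _ _

theorem DD.poly (P : ℤ) (n : ℕ) (R : Polynomial ℤ) :
    DD P n (fun b => R.eval (P * b)) := by
  induction R using Polynomial.induction_on' with
  | add p q hp hq => exact (DD.add n hp hq).congr fun b => Polynomial.eval_add
  | monomial k c =>
    exact (DD.mul n (DD.const P n c) (DD.pow P n (DD.linear P n) k)).congr fun b =>
      Polynomial.eval_monomial

/-- Newton expansion -/
theorem DD.newton {P : ℤ} : ∀ (n : ℕ) {u : ℕ → ℤ}, DD P n u →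
    ∃ (z : ℕ → ℤ) (ρ : ℕ → ℤ), ∀ b, u b =
      ∑ k ∈ Finset.range n, P ^ k * z k * (b.choose k : ℤ) + P ^ n * ρ b
  | 0, u, _ => ⟨fun _ => 0, u, fun b => by simp⟩
  | n + 1, u, ⟨v, hv, h⟩ => by
    obtain ⟨z, ρ, hz⟩ := DD.newton n hv
    refine ⟨fun k => Nat.casesOn k (u 0) z, fun b => ∑ j ∈ Finset.range b, ρ j, fun b => ?_⟩
    rw [Finset.sum_range_succ']
    simp only [pow_zero, one_mul, Nat.choose_zero_right, Nat.cast_one, mul_one]
    induction b with
    | zero => simp
    | succ b ih =>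
      have h1 : u (b + 1) = u b + P * v b := by linear_combination h b
      rw [h1, ih, hz b, Finset.sum_range_succ ρ b]
      have h2 : ∑ k ∈ Finset.range n, P ^ (k + 1) * z k * ((b + 1).choose (k + 1) : ℤ) =
          ∑ k ∈ Finset.range n, P ^ (k + 1) * z k * (b.choose (k + 1) : ℤ) +
            P * ∑ k ∈ Finset.range n, P ^ k * z k * (b.choose k : ℤ) := by
        rw [Finset.mul_sum, ← Finset.sum_add_distrib]
        refine Finset.sum_congr rfl fun k _ => ?_
        rw [Nat.choose_succ_succ]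
        push_cast
        ring
      rw [h2]
      ring

section fac

variable (P : ℕ)

/-- `r(j) = -∏_{l<P} (P j + l)` -/
def rr (j : ℕ) : ℤ := -∏ l ∈ Finset.range (P - 1), ((P : ℤ) * j + (l + 1))

/-- the unit part of `(P b + c)!` -/
def uu (c b : ℕ) : ℤ := (∏ j ∈ Finset.range b, rr P j) * ∏ l ∈ Finset.range c, ((P : ℤ) * b + (l + 1))

theorem fact_add (n k : ℕ) : ((n + k).factorial : ℤ) =
    (n.factorial : ℤ) * ∏ l ∈ Finset.range k, ((n : ℤ) + (l + 1)) := by
  induction k with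
  | zero => simp
  | succ k ih =>
    rw [Finset.prod_range_succ, ← mul_assoc, ← ih, ← add_assoc, Nat.factorial_succ]
    push_cast
    ring

theorem fact_mul (hP : 1 ≤ P) (b : ℕ) : ((P * b).factorial : ℤ) =
    (-(P : ℤ)) ^ b * b.factorial * ∏ j ∈ Finset.range b, rr P j := by
  induction b with
  | zero => simp
  | succ b ih =>
    have h1 : P * (b + 1) = P * b + ((P - 1) + 1) := by
      rw [Nat.sub_add_cancel hP, Nat.mul_succ]
    rw [h1, fact_add, ih, Finset.prod_range_succ, Finset.prod_range_succ, rr, Nat.factorial_succ]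
    have h2 : ((P - 1 : ℕ) : ℤ) = (P : ℤ) - 1 := by
      rw [Nat.cast_sub hP, Nat.cast_one]
    rw [h2]
    push_cast
    ring

theorem fact_mul_add (hP : 1 ≤ P) (c b : ℕ) : ((P * b + c).factorial : ℤ) =
    (-(P : ℤ)) ^ b * b.factorial * uu P c b := by
  rw [fact_add, fact_mul P hP, uu]
  push_cast
  ring

theorem prod_zmod (hP : P.Prime) : haveI := Fact.mk hP
    (∏ l ∈ Finset.range (P - 1), (Polynomial.X + Polynomial.C ((l + 1 : ℕ) : ZMod P))) =
      Polynomial.X ^ (P - 1) - 1 := by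
  classical
  have : Fact P.Prime := ⟨hP⟩
  have hmon : (∏ l ∈ Finset.range (P - 1),
      (Polynomial.X + Polynomial.C ((l + 1 : ℕ) : ZMod P))).Monic :=
    Polynomial.monic_prod_of_monic _ _ fun l _ => Polynomial.monic_X_add_C _
  have hdeg : (∏ l ∈ Finset.range (P - 1),
      (Polynomial.X + Polynomial.C ((l + 1 : ℕ) : ZMod P))).degree = ((P - 1 : ℕ) : WithBot ℕ) := by
    rw [Polynomial.degree_prod]
    simp only [Polynomial.degree_X_add_C, Finset.sum_const, Finset.card_range, nsmul_eq_mul,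
      mul_one]
  have hpos : 0 < P - 1 := by
    have := hP.two_le
    omega
  have hmon2 : (Polynomial.X ^ (P - 1) - 1 : Polynomial (ZMod P)).Monic :=
    Polynomial.monic_X_pow_sub_C (1 : ZMod P) hpos.ne'
  have hdeg2 : (Polynomial.X ^ (P - 1) - 1 : Polynomial (ZMod P)).degree =
      ((P - 1 : ℕ) : WithBot ℕ) := Polynomial.degree_X_pow_sub_C hpos (1 : ZMod P)
  refine Polynomial.eq_of_degree_sub_lt_of_eval_finset_eq (Finset.univ.erase (0 : ZMod P)) ?_ ?_
  · rw [Finset.card_erase_of_mem (Finset.mem_univ _), Finset.card_univ, ZMod.card, ← hdeg]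
    refine Polynomial.degree_sub_lt_left (by rw [hdeg, hdeg2]) hmon.ne_zero ?_
    rw [hmon.leadingCoeff, hmon2.leadingCoeff]
  · intro a ha
    have ha0 : a ≠ 0 := Finset.ne_of_mem_erase ha
    rw [Polynomial.eval_sub, Polynomial.eval_pow, Polynomial.eval_X, Polynomial.eval_one,
      ZMod.pow_card_sub_one_eq_one ha0, sub_self, Polynomial.eval_prod]
    have hv : (-a).val ≠ 0 := by
      rw [Ne, ZMod.val_eq_zero, neg_eq_zero]; exact ha0
    have hvP : (-a).val < P := ZMod.val_lt _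
    refine Finset.prod_eq_zero (i := (-a).val - 1) (Finset.mem_range.mpr (by omega)) ?_
    rw [Polynomial.eval_add, Polynomial.eval_X, Polynomial.eval_C,
      show (-a).val - 1 + 1 = (-a).val by omega, ZMod.natCast_zmod_val, add_neg_cancel]

theorem exists_ss (hP : P.Prime) : ∃ R1 : Polynomial ℤ, ∀ b : ℕ,
    rr P b - 1 = P * (R1.eval ((P : ℤ) * b) - (P : ℤ) ^ (P - 2) * (b : ℤ) ^ (P - 1)) := by
  have : Fact P.Prime := ⟨hP⟩
  set W : Polynomial ℤ := ∏ l ∈ Finset.range (P - 1),
    (Polynomial.X + Polynomial.C ((l + 1 : ℕ) : ℤ)) with hW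
  have h1 : Polynomial.map (Int.castRingHom (ZMod P)) (W - (Polynomial.X ^ (P - 1) - 1)) = 0 := by
    rw [Polynomial.map_sub, Polynomial.map_sub, Polynomial.map_pow, Polynomial.map_X,
      Polynomial.map_one, hW, Polynomial.map_prod, sub_eq_zero, ← prod_zmod P hP]
    refine Finset.prod_congr rfl fun l _ => ?_
    rw [Polynomial.map_add, Polynomial.map_X, Polynomial.map_C]
    congr 2
    simp
  have h2 : Polynomial.C (P : ℤ) ∣ (W - (Polynomial.X ^ (P - 1) - 1)) := by
    rw [Polynomial.C_dvd_iff_dvd_coeff]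
    intro i
    have h3 := congrArg (fun q => Polynomial.coeff q i) h1
    simp only [Polynomial.coeff_map, Polynomial.coeff_zero] at h3
    exact (ZMod.intCast_zmod_eq_zero_iff_dvd _ P).mp h3
  obtain ⟨V, hV⟩ := h2
  refine ⟨-V, fun b => ?_⟩
  have h4 : rr P b = -W.eval ((P : ℤ) * b) := by
    rw [rr, hW, Polynomial.eval_prod]
    congr 1
    refine Finset.prod_congr rfl fun l _ => ?_
    rw [Polynomial.eval_add, Polynomial.eval_X, Polynomial.eval_C]
    push_cast
    ring
  have h5 : W = Polynomial.C (P : ℤ) * V + (Polynomial.X ^ (P - 1) - 1) := by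
    linear_combination hV
  have h6 : (P : ℤ) ^ (P - 1) = P * (P : ℤ) ^ (P - 2) := by
    rw [← pow_succ']
    congr 1
    have := hP.two_le
    omega
  rw [h4, h5, Polynomial.eval_add, Polynomial.eval_mul, Polynomial.eval_C, Polynomial.eval_sub,
    Polynomial.eval_pow, Polynomial.eval_X, Polynomial.eval_one, Polynomial.eval_neg, mul_pow, h6]
  ring

theorem DD_prod_rr (hP : P.Prime) : ∀ n : ℕ, n ≤ P - 1 →
    DD P n (fun b => ∏ j ∈ Finset.range b, rr P j) := by
  obtain ⟨R1, hR1⟩ := exists_ss P hP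
  intro n
  induction n with
  | zero => intro _; trivial
  | succ n ih =>
    intro hn
    have h1 := ih (by omega)
    have h2 : DD P n (fun b => R1.eval ((P : ℤ) * b) - (P : ℤ) ^ (P - 2) * (b : ℤ) ^ (P - 1)) := by
      refine (DD.add n (DD.poly P n R1) (DD.pow_mul P n
        (fun b => -((P : ℤ) ^ (P - 2 - n) * (b : ℤ) ^ (P - 1))))).congr fun b => ?_
      have h3 : (P : ℤ) ^ (P - 2) = (P : ℤ) ^ n * (P : ℤ) ^ (P - 2 - n) := by
        rw [← pow_add]
        congr 1
        omega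
      rw [h3]
      ring
    refine ⟨_, DD.mul n h1 h2, fun b => ?_⟩
    show ∏ j ∈ Finset.range (b + 1), rr P j - ∏ j ∈ Finset.range b, rr P j = _
    rw [Finset.prod_range_succ]
    linear_combination (∏ j ∈ Finset.range b, rr P j) * hR1 b

theorem DD_uu (hP : P.Prime) (c n : ℕ) (hn : n ≤ P - 1) : DD P n (uu P c) := by
  have h1 := DD.poly P n (∏ l ∈ Finset.range c,
    (Polynomial.X + Polynomial.C ((l : ℤ) + 1)))
  refine (DD.mul n (DD_prod_rr P hP n hn) h1).congr fun b => ?_
  rw [uu, Polynomial.eval_prod]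
  congr 1
  refine Finset.prod_congr rfl fun l _ => ?_
  rw [Polynomial.eval_add, Polynomial.eval_X, Polynomial.eval_C]

theorem uu_newton (hP : P.Prime) (c K : ℕ) (hK : K + 2 ≤ P) :
    ∃ (z : ℕ → ℤ) (ρ : ℕ → ℤ), ∀ b, uu P c b =
      ∑ k ∈ Finset.range (K + 1), (P : ℤ) ^ k * z k * (b.choose k : ℤ) + (P : ℤ) ^ (K + 1) * ρ b :=
  DD.newton (K + 1) (DD_uu P hP c (K + 1) (by omega))

end fac

end Pool.Agent.MP_410f3c_al.Q
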