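import Pool.Agent.MP_410f3c_al.Q.Cls
import Pool.Agent.MP_410f3c_al.Q.Fac

/-!
# Nondegenerate lowest forms: preparation of the `p`-adic expansion of the moments
-/

set_option autoImplicit false
set_option linter.unusedSectionVars false

open MvPolynomial

namespace Pool.Agent.MP_410f3c_al.Q

section LB

variable {σ : Type} [Fintype σ] {O : Type} [CommRing O]

/-- all monomials of `Y` have weight at least `n` -/
def LB (T : Finset σ) (n : ℕ) (Y : MvPolynomial σ O) : Prop :=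
  ∀ x, coeff x Y ≠ 0 → n ≤ ∑ i ∈ T, x i

theorem LB.mul {T : Finset σ} {n n' : ℕ} {Y Y' : MvPolynomial σ O} (h : LB T n Y)
    (h' : LB T n' Y') : LB T (n + n') (Y * Y') := by
  classical
  intro x hx
  rw [coeff_mul] at hx
  obtain ⟨p, hp, hp0⟩ := Finset.exists_ne_zero_of_sum_ne_zero hx
  have h1 : coeff p.1 Y ≠ 0 := left_ne_zero_of_mul hp0
  have h2 : coeff p.2 Y' ≠ 0 := right_ne_zero_of_mul hp0
  have h3 : p.1 + p.2 = x := Finset.HasAntidiagonal.mem_antidiagonal.mp hp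
  have h4 := h _ h1
  have h5 := h' _ h2
  rw [← h3]
  simp only [Finsupp.add_apply, Finset.sum_add_distrib]
  omega

theorem LB.one {T : Finset σ} : LB T 0 (1 : MvPolynomial σ O) := fun _ _ => Nat.zero_le _

theorem LB.pow {T : Finset σ} {n : ℕ} {Y : MvPolynomial σ O} (h : LB T n Y) (k : ℕ) :
    LB T (n * k) (Y ^ k) := by
  induction k with
  | zero => rw [pow_zero, mul_zero]; exact LB.one
  | succ k ih => rw [pow_succ, Nat.mul_succ]; exact ih.mul h

theorem LB.add {T : Finset σ} {n : ℕ} {Y Y' : MvPolynomial σ O} (h : LB T n Y)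
    (h' : LB T n Y') : LB T n (Y + Y') := by
  intro x hx
  rw [coeff_add] at hx
  by_cases h1 : coeff x Y = 0
  · refine h' x fun h2 => hx ?_
    rw [h1, h2, add_zero]
  · exact h x h1

theorem LB.sub {T : Finset σ} {n : ℕ} {Y Y' : MvPolynomial σ O} (h : LB T n Y)
    (h' : LB T n Y') : LB T n (Y - Y') := by
  intro x hx
  rw [coeff_sub] at hx
  by_cases h1 : coeff x Y = 0
  · refine h' x fun h2 => hx ?_
    rw [h1, h2, sub_zero]
  · exact h x h1

theorem LB.expand {T : Finset σ} {n : ℕ} {Y : MvPolynomial σ O} (h : LB T n Y) (p : ℕ) :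
    LB T (p * n) (expand p Y) := by
  classical
  intro x hx
  have h1 := support_expand_subset (p := p) Y (mem_support_iff.mpr hx)
  rw [Finset.mem_image] at h1
  obtain ⟨a, ha, rfl⟩ := h1
  have h2 := h a (mem_support_iff.mp ha)
  simp only [Finsupp.smul_apply, smul_eq_mul, ← Finset.mul_sum]
  exact Nat.mul_le_mul_left p h2

end LB

section floor

variable {σ : Type} [Fintype σ]

/-- integer parts of `x / P` -/
noncomputable def beta (P : ℕ) (x : σ →₀ ℕ) : σ →₀ ℕ := x.mapRange (· / P) (Nat.zero_div P)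

theorem beta_apply (P : ℕ) (x : σ →₀ ℕ) (i : σ) : beta P x i = x i / P := rfl

theorem beta_add (P : ℕ) (hP : 0 < P) (ν y : σ →₀ ℕ) : beta P (P • ν + y) = ν + beta P y := by
  ext i
  rw [beta_apply, Finsupp.add_apply, Finsupp.smul_apply, smul_eq_mul, Finsupp.add_apply,
    beta_apply, Nat.mul_add_div hP]

theorem floor_bound (P : ℕ) (hP : 0 < P) (S : Finset σ) {K : ℕ} (hK : S.card = K + 1) (n : ℕ)
    (y : σ →₀ ℕ) (h : P * n ≤ ∑ i ∈ S, y i) : n ≤ ∑ i ∈ S, beta P y i + K := by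
  by_contra hcon
  push Not at hcon
  have h1 : ∑ i ∈ S, y i = P * ∑ i ∈ S, beta P y i + ∑ i ∈ S, y i % P := by
    rw [Finset.mul_sum, ← Finset.sum_add_distrib]
    refine Finset.sum_congr rfl fun i _ => ?_
    rw [beta_apply]
    exact (Nat.div_add_mod _ _).symm
  have h2 : ∑ i ∈ S, y i % P ≤ S.card * (P - 1) := by
    rw [← smul_eq_mul]
    refine Finset.sum_le_card_nsmul _ _ _ fun i _ => ?_
    have := Nat.mod_lt (y i) hP
    omega
  rw [hK] at h2
  have h3 : P * (∑ i ∈ S, beta P y i + K + 1) ≤ P * n := Nat.mul_le_mul_left P hcon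
  have h4 : P * (∑ i ∈ S, beta P y i + K + 1) = P * ∑ i ∈ S, beta P y i + P * (K + 1) := by ring
  have h5 : (K + 1) * (P - 1) + (K + 1) = (K + 1) * P := by
    obtain ⟨q, rfl⟩ : ∃ q, P = q + 1 := ⟨P - 1, by omega⟩
    rw [Nat.add_sub_cancel]
    ring
  have h6 : P * (K + 1) = (K + 1) * P := mul_comm _ _
  omega

theorem beta_sum_le (P : ℕ) (y : σ →₀ ℕ) (n : ℕ) (hP : 0 < P)
    (h : ∑ i, y i ≤ P * n) : ∑ i, beta P y i ≤ n := by
  have h1 : P * ∑ i, beta P y i ≤ ∑ i, y i := by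
    rw [Finset.mul_sum]
    refine Finset.sum_le_sum fun i _ => ?_
    rw [beta_apply]
    exact Nat.mul_div_le _ _
  exact Nat.le_of_mul_le_mul_left (h1.trans h) hP

end floor

section prodc

variable {σ : Type} [Fintype σ] {O : Type} [CommRing O]

theorem prod_congr_mod {α : Type} (q : O) (A B : σ → α → O) (s : Finset σ) :
    ∃ C : α → O, ∀ y, ∏ i ∈ s, (A i y + q * B i y) = ∏ i ∈ s, A i y + q * C y := by
  classical
  induction s using Finset.induction_on with
  | empty => exact ⟨fun _ => 0, fun y => by simp⟩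
  | insert a s ha ih =>
    obtain ⟨C, hC⟩ := ih
    refine ⟨fun y => A a y * C y + B a y * (∏ i ∈ s, A i y + q * C y), fun y => ?_⟩
    rw [Finset.prod_insert ha, Finset.prod_insert ha, hC y]
    ring

end prodc

section padic

variable {σ : Type} [Fintype σ] (P : ℕ) [hPf : Fact P.Prime]

/-- the unit parts of the factorials -/
noncomputable def ph (x : σ →₀ ℕ) : (σ →₀ ℕ) → ℤ_[P] :=
  fun y => ∏ i, ((uu P (x i % P) (y i) : ℤ) : ℤ_[P])

theorem exists_inv_factorial {k : ℕ} (hk : k < P) : ∃ u : ℤ_[P], u * (k.factorial : ℤ_[P]) = 1 := by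
  have h1 : IsUnit ((k.factorial : ℕ) : ℤ_[P]) := by
    rw [PadicInt.isUnit_iff, PadicInt.norm_natCast_eq_one_iff]
    rw [hPf.out.coprime_iff_not_dvd, hPf.out.dvd_factorial, not_le]
    exact hk
  obtain ⟨u, hu⟩ := h1
  refine ⟨((u⁻¹ : (ℤ_[P])ˣ) : ℤ_[P]), ?_⟩
  rw [← hu]
  exact Units.inv_mul u

theorem ph_split (S : Finset σ) {K e : ℕ} (μ : σ →₀ ℕ) (H : MvPolynomial σ ℤ_[P])
    (hH : ∀ i, ∀ x ∈ (NN i H).support, ∑ l, x l = e ∧ ∑ l ∈ S, x l = e)
    (hK : K + 2 ≤ P) (x : σ →₀ ℕ) :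
    ∃ φ0 φ1 : (σ →₀ ℕ) → ℤ_[P], (∀ y, ph P x y = φ0 y + (P : ℤ_[P]) ^ (K + 1) * φ1 y) ∧
      Good S K e μ H (Fintype.card σ * K) φ0 := by
  have h1 : ∀ i : σ, ∃ (z : ℕ → ℤ) (ρ : ℕ → ℤ), ∀ b, uu P (x i % P) b =
      ∑ k ∈ Finset.range (K + 1), (P : ℤ) ^ k * z k * (b.choose k : ℤ) +
        (P : ℤ) ^ (K + 1) * ρ b := fun i => uu_newton P hPf.out _ K hK
  choose z ρ hz using h1
  obtain ⟨C, hC⟩ := prod_congr_mod ((P : ℤ_[P]) ^ (K + 1))
    (fun (i : σ) (y : σ →₀ ℕ) => ∑ k ∈ Finset.range (K + 1),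
      ((P : ℤ_[P]) ^ k * (z i k : ℤ_[P])) * ((y i).choose k : ℤ_[P]))
    (fun (i : σ) (y : σ →₀ ℕ) => ((ρ i (y i) : ℤ) : ℤ_[P])) Finset.univ
  refine ⟨fun y => ∏ i, ∑ k ∈ Finset.range (K + 1),
      ((P : ℤ_[P]) ^ k * (z i k : ℤ_[P])) * ((y i).choose k : ℤ_[P]), C, fun y => ?_, ?_⟩
  · rw [← hC y, ph]
    refine Finset.prod_congr rfl fun i _ => ?_
    rw [hz i (y i)]
    push_cast
    ring
  · refine Good.prod (S := S) (K := K) (e := e) (μ := μ) (H := H) Finset.univ (d := K)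
      (fun i _ => ?_)
    refine Good.sum _ fun k hk => ?_
    rw [Finset.mem_range] at hk
    obtain ⟨u, hu⟩ := exists_inv_factorial P (k := k) (by omega)
    have h2 := Good.mul (Good.const (S := S) (K := K) (e := e) (μ := μ) (H := H)
      ((P : ℤ_[P]) ^ k * (z i k : ℤ_[P]))) (Good.choose (K := K) (μ := μ) hH i k hu)
    exact h2.mono (by omega)

/-- the functional on expanded polynomials -/
theorem LL_expand {Z : MvPolynomial σ ℤ_[P]} {D : ℕ} (hZ : Z.IsHomogeneous D) (x : σ →₀ ℕ)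
    (d : ℤ_[P]) : LL (expand P Z * monomial x d) =
      d * (-(P : ℤ_[P])) ^ (D + ∑ i, beta P x i) *
        LL (Op (ph P x) (Z * monomial (beta P x) 1)) := by
  have hP1 : 1 ≤ P := hPf.out.one_lt.le
  have h0 : Z = ∑ a ∈ Z.support, monomial a (coeff a Z) :=
    (MvPolynomial.support_sum_monomial_coeff Z).symm
  have h1 : LL (expand P Z * monomial x d) =
      ∑ a ∈ Z.support, LL (expand P (monomial a (coeff a Z)) * monomial x d) := by
    conv_lhs => rw [h0]
    rw [map_sum, Finset.sum_mul, map_sum]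
  have h2 : LL (Op (ph P x) (Z * monomial (beta P x) 1)) =
      ∑ a ∈ Z.support, LL (Op (ph P x) (monomial a (coeff a Z) * monomial (beta P x) 1)) := by
    conv_lhs => rw [h0]
    rw [Finset.sum_mul, map_sum, map_sum]
  rw [h1, h2, Finset.mul_sum]
  refine Finset.sum_congr rfl fun a ha => ?_
  have hD := sum_of_isHomogeneous hZ ha
  rw [expand_monomial, monomial_mul, LL_monomial, monomial_mul, mul_one, Op_monomial, LL_monomial]
  have h3 : ∀ i, ((((P • a + x : σ →₀ ℕ) i).factorial : ℕ) : ℤ_[P]) =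
      (-(P : ℤ_[P])) ^ (a i + beta P x i) *
        (((a + beta P x : σ →₀ ℕ) i).factorial : ℤ_[P]) *
          ((uu P (x i % P) ((a + beta P x : σ →₀ ℕ) i) : ℤ) : ℤ_[P]) := by
    intro i
    have h4 := fact_mul_add P hP1 (x i % P) (a i + beta P x i)
    have h5 : P * (a i + beta P x i) + x i % P = (P • a + x : σ →₀ ℕ) i := by
      rw [Finsupp.add_apply, Finsupp.smul_apply, smul_eq_mul, Nat.mul_add, add_assoc, beta_apply,
        Nat.div_add_mod]
    rw [h5] at h4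
    have h6 := congrArg (Int.cast : ℤ → ℤ_[P]) h4
    simp only [Int.cast_mul, Int.cast_pow, Int.cast_neg, Int.cast_natCast] at h6
    rw [h6, Finsupp.add_apply]
  have h7 : (((∏ i, ((P • a + x : σ →₀ ℕ) i).factorial : ℕ)) : ℤ_[P]) =
      (-(P : ℤ_[P])) ^ (D + ∑ i, beta P x i) *
        (((∏ i, ((a + beta P x : σ →₀ ℕ) i).factorial : ℕ)) : ℤ_[P]) *
          ph P x (a + beta P x) := by
    rw [Nat.cast_prod, Finset.prod_congr rfl fun i _ => h3 i, Finset.prod_mul_distrib,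
      Finset.prod_mul_distrib, Nat.cast_prod, ph, Finset.prod_pow_eq_pow_sum,
      Finset.sum_add_distrib, hD]
  rw [h7]
  ring

end padic

end Pool.Agent.MP_410f3c_al.Q
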