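import Mathlib

/-!
# Nondegenerate lowest forms: the factorial functional and its normalised version
-/

set_option autoImplicit false
set_option linter.unusedSectionVars false

open MvPolynomial

namespace Pool.Agent.MP_410f3c_al.Q

section LL

variable {σ : Type} [Fintype σ] {A B : Type} [CommRing A] [CommRing B]

/-- the factorial functional -/
noncomputable def LL : MvPolynomial σ A →ₗ[A] A :=
  (MvPolynomial.basisMonomials σ A).constr A (fun s => ((∏ i, (s i).factorial : ℕ) : A))

theorem LL_monomial (s : σ →₀ ℕ) (c : A) :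
    LL (monomial s c) = c * ((∏ i, (s i).factorial : ℕ) : A) := by
  have h : (monomial s c : MvPolynomial σ A) = c • (MvPolynomial.basisMonomials σ A) s := by
    rw [MvPolynomial.coe_basisMonomials, MvPolynomial.smul_monomial, smul_eq_mul, mul_one]
  rw [h, map_smul, LL, Module.Basis.constr_basis, smul_eq_mul]

theorem LL_apply (p : MvPolynomial σ A) :
    LL p = ∑ s ∈ p.support, coeff s p * ((∏ i, (s i).factorial : ℕ) : A) := by
  conv_lhs => rw [← MvPolynomial.support_sum_monomial_coeff p]
  rw [map_sum]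
  exact Finset.sum_congr rfl fun s _ => LL_monomial s _

theorem LL_map (φ : A →+* B) (p : MvPolynomial σ A) : LL (map φ p) = φ (LL p) := by
  conv_lhs => rw [← MvPolynomial.support_sum_monomial_coeff p]
  rw [map_sum, map_sum, LL_apply, map_sum]
  refine Finset.sum_congr rfl fun s _ => ?_
  rw [map_monomial, LL_monomial, map_mul, map_natCast]

end LL

section II

variable {ι : Type} [Fintype ι]

/-- the normalised functional: `U^x ↦ x! / (|x| + K)!` with `K = card ι - 1` -/
noncomputable def II : MvPolynomial ι ℂ →ₗ[ℂ] ℂ :=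
  (MvPolynomial.basisMonomials ι ℂ).constr ℂ
    (fun s => ((∏ i, (s i).factorial : ℕ) : ℂ) / ((∑ i, s i + (Fintype.card ι - 1)).factorial : ℂ))

theorem II_monomial (s : ι →₀ ℕ) (c : ℂ) :
    II (monomial s c) = c * (((∏ i, (s i).factorial : ℕ) : ℂ) /
      ((∑ i, s i + (Fintype.card ι - 1)).factorial : ℂ)) := by
  have h : (monomial s c : MvPolynomial ι ℂ) = c • (MvPolynomial.basisMonomials ι ℂ) s := by
    rw [MvPolynomial.coe_basisMonomials, MvPolynomial.smul_monomial, smul_eq_mul, mul_one]
  rw [h, map_smul, II, Module.Basis.constr_basis, smul_eq_mul]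

/-- `N i = U_i ∂/∂U_i` -/
noncomputable def NN {σ A : Type} [CommRing A] (i : σ) :
    Derivation A (MvPolynomial σ A) (MvPolynomial σ A) :=
  (X i : MvPolynomial σ A) • (pderiv i : Derivation A (MvPolynomial σ A) (MvPolynomial σ A))

theorem NN_apply {σ A : Type} [CommRing A] (i : σ) (p : MvPolynomial σ A) :
    NN i p = X i * pderiv i p := rfl

theorem NN_monomial {σ A : Type} [CommRing A] (i : σ) (s : σ →₀ ℕ) (c : A) :
    NN i (monomial s c) = (s i : A) • monomial s c := by
  classical
  rw [NN_apply, pderiv_monomial, MvPolynomial.smul_monomial, smul_eq_mul]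
  by_cases h : s i = 0
  · rw [h]; simp
  · rw [X, monomial_mul, one_mul]
    have : Finsupp.single i 1 + (s - Finsupp.single i 1) = s := by
      refine add_tsub_cancel_of_le ?_
      rw [Finsupp.single_le_iff]
      omega
    rw [this, mul_comm]

theorem deg_eq_sum {σ : Type} [Fintype σ] (s : σ →₀ ℕ) : s.degree = ∑ i, s i := by
  rw [Finsupp.degree_eq_sum]

theorem sum_of_isHomogeneous {σ A : Type} [Fintype σ] [CommRing A] {p : MvPolynomial σ A} {d : ℕ}
    (hp : p.IsHomogeneous d) {s : σ →₀ ℕ} (hs : s ∈ p.support) : ∑ i, s i = d := by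
  have h := hp (mem_support_iff.mp hs)
  rw [← deg_eq_sum, ← h, Finsupp.degree_eq_weight_one]
  rfl

variable [Nonempty ι]

theorem card_pos' (ι : Type) [Fintype ι] [Nonempty ι] : 0 < Fintype.card ι := Fintype.card_pos

theorem prod_fact_single (i : ι) (s : ι →₀ ℕ) :
    (∏ j, ((Finsupp.single i 1 + s : ι →₀ ℕ) j).factorial) =
      (s i + 1) * ∏ j, (s j).factorial := by
  classical
  rw [← Finset.mul_prod_erase Finset.univ _ (Finset.mem_univ i),
    ← Finset.mul_prod_erase Finset.univ (fun j => (s j).factorial) (Finset.mem_univ i)]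
  have h1 : ((Finsupp.single i 1 + s : ι →₀ ℕ) i).factorial = (s i + 1) * (s i).factorial := by
    rw [Finsupp.add_apply, Finsupp.single_eq_same, add_comm, Nat.factorial_succ]
  rw [h1, mul_assoc]
  congr 2
  refine Finset.prod_congr rfl fun j hj => ?_
  rw [Finsupp.add_apply, Finsupp.single_eq_of_ne (Finset.ne_of_mem_erase hj), zero_add]

theorem sum_single_add (i : ι) (s : ι →₀ ℕ) :
    ∑ j, (Finsupp.single i 1 + s : ι →₀ ℕ) j = ∑ j, s j + 1 := by
  classical
  simp only [Finsupp.add_apply, Finset.sum_add_distrib]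
  rw [add_comm]
  congr 1
  rw [Finset.sum_eq_single i]
  · exact Finsupp.single_eq_same
  · intro j _ hj
    exact Finsupp.single_eq_of_ne hj
  · intro h
    exact absurd (Finset.mem_univ i) h

/-- integration by parts -/
theorem ibp (i : ι) {p : MvPolynomial ι ℂ} {d : ℕ} (hp : p.IsHomogeneous d) :
    ((d : ℂ) + Fintype.card ι) * II (X i * p) = II (p + NN i p) := by
  have h0 : p = ∑ s ∈ p.support, monomial s (coeff s p) :=
    (MvPolynomial.support_sum_monomial_coeff p).symm
  have h1 : II (X i * p) = ∑ s ∈ p.support, II (X i * monomial s (coeff s p)) := by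
    conv_lhs => rw [h0]
    rw [Finset.mul_sum, map_sum]
  have h2 : II (p + NN i p) = ∑ s ∈ p.support,
      II (monomial s (coeff s p) + NN i (monomial s (coeff s p))) := by
    conv_lhs => rw [h0]
    rw [map_sum, ← Finset.sum_add_distrib, map_sum]
  rw [h1, h2, Finset.mul_sum]
  refine Finset.sum_congr rfl fun s hs => ?_
  have hd : ∑ j, s j = d := sum_of_isHomogeneous hp hs
  rw [NN_monomial, X, monomial_mul, one_mul, II_monomial, map_add, map_smul, II_monomial,
    prod_fact_single, sum_single_add, hd, smul_eq_mul]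
  have hc : Fintype.card ι = (Fintype.card ι - 1) + 1 := by
    have := card_pos' ι
    omega
  have h3 : d + 1 + (Fintype.card ι - 1) = (d + (Fintype.card ι - 1)) + 1 := by ring
  rw [h3, Nat.factorial_succ]
  have h4 : ((d + (Fintype.card ι - 1)).factorial : ℂ) ≠ 0 := by
    exact_mod_cast Nat.factorial_ne_zero _
  have h5 : ((d + (Fintype.card ι - 1) + 1 : ℕ) : ℂ) ≠ 0 := by
    exact Nat.cast_ne_zero.mpr (Nat.succ_ne_zero _)
  have h6 : ((d : ℂ) + Fintype.card ι) = ((d + (Fintype.card ι - 1) + 1 : ℕ) : ℂ) := by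
    conv_lhs => rw [hc]
    push_cast
    ring
  rw [h6]
  rw [Nat.cast_mul (d + (Fintype.card ι - 1) + 1), Nat.cast_mul (s i + 1)]
  field_simp
  push_cast
  ring

/-- `S = ∑ U_i` -/
noncomputable def SS (ι : Type) [Fintype ι] : MvPolynomial ι ℂ := ∑ i, X i

theorem SS_homog : (SS ι).IsHomogeneous 1 :=
  MvPolynomial.IsHomogeneous.sum _ _ _ fun i _ => isHomogeneous_X ℂ i

theorem II_SS_mul (p : MvPolynomial ι ℂ) : II (SS ι * p) = II p := by
  have h0 : p = ∑ s ∈ p.support, monomial s (coeff s p) :=
    (MvPolynomial.support_sum_monomial_coeff p).symm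
  have h1 : II (SS ι * p) = ∑ s ∈ p.support, II (SS ι * monomial s (coeff s p)) := by
    conv_lhs => rw [h0]
    rw [Finset.mul_sum, map_sum]
  have h2 : II p = ∑ s ∈ p.support, II (monomial s (coeff s p)) := by
    conv_lhs => rw [h0]
    rw [map_sum]
  rw [h1, h2]
  refine Finset.sum_congr rfl fun s hs => ?_
  rw [SS, Finset.sum_mul, map_sum]
  have h3 : ∀ i : ι, II (X i * monomial s (coeff s p)) =
      ((s i : ℂ) + 1) * (coeff s p * (((∏ i, (s i).factorial : ℕ) : ℂ) /
        (((∑ i, s i + (Fintype.card ι - 1)) + 1).factorial : ℂ))) := by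
    intro i
    have h4 : ∑ j, s j + 1 + (Fintype.card ι - 1) = (∑ j, s j + (Fintype.card ι - 1)) + 1 := by ring
    rw [X, monomial_mul, one_mul, II_monomial, prod_fact_single, sum_single_add, h4]
    push_cast
    ring
  rw [Finset.sum_congr rfl fun i _ => h3 i, ← Finset.sum_mul, Finset.sum_add_distrib, II_monomial,
    Finset.sum_const, Finset.card_univ, nsmul_eq_mul, mul_one, ← Nat.cast_sum, Nat.factorial_succ]
  have hc : Fintype.card ι = (Fintype.card ι - 1) + 1 := by
    have := card_pos' ι
    omega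
  have h4 : ((∑ j, s j + (Fintype.card ι - 1)).factorial : ℂ) ≠ 0 := by
    exact_mod_cast Nat.factorial_ne_zero _
  have h5 : ((∑ j, s j + (Fintype.card ι - 1) + 1 : ℕ) : ℂ) ≠ 0 := by
    exact Nat.cast_ne_zero.mpr (Nat.succ_ne_zero _)
  have h6 : (((∑ j, s j : ℕ) : ℂ) + (Fintype.card ι : ℂ)) =
      ((∑ j, s j + (Fintype.card ι - 1) + 1 : ℕ) : ℂ) := by
    conv_lhs => rw [hc]
    push_cast
    ring
  rw [h6, Nat.cast_mul (∑ j, s j + (Fintype.card ι - 1) + 1)]
  field_simp

theorem II_SS_pow_mul (k : ℕ) (p : MvPolynomial ι ℂ) : II (SS ι ^ k * p) = II p := by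
  induction k with
  | zero => rw [pow_zero, one_mul]
  | succ k ih => rw [pow_succ', mul_assoc, II_SS_mul, ih]

/-- relation between `LL` and `II` -/
theorem LL_eq_II {p : MvPolynomial ι ℂ} {d : ℕ} (hp : p.IsHomogeneous d) :
    LL p = ((d + (Fintype.card ι - 1)).factorial : ℂ) * II p := by
  have h0 : p = ∑ s ∈ p.support, monomial s (coeff s p) :=
    (MvPolynomial.support_sum_monomial_coeff p).symm
  have h2 : II p = ∑ s ∈ p.support, II (monomial s (coeff s p)) := by
    conv_lhs => rw [h0]
    rw [map_sum]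
  rw [h2, LL_apply, Finset.mul_sum]
  refine Finset.sum_congr rfl fun s hs => ?_
  rw [II_monomial, sum_of_isHomogeneous hp hs]
  have h4 : ((d + (Fintype.card ι - 1)).factorial : ℂ) ≠ 0 := by
    exact_mod_cast Nat.factorial_ne_zero _
  field_simp

end II

end Pool.Agent.MP_410f3c_al.Q
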