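import Mathlib

/-!
# Nondegenerate lowest forms: sequences satisfying backward recursions
-/

set_option autoImplicit false
set_option linter.unusedSectionVars false

open Polynomial

namespace Pool.Agent.MP_410f3c_al.Q

variable {κ κ' : Type} [Fintype κ] [Fintype κ']

/-- the sequence `w` is a combination of the sequences `v i` with polynomial coefficients, up to a
denominator without zeros in `ℕ` -/
def InV (v : κ → ℕ → ℂ) (w : ℕ → ℂ) : Prop :=
  ∃ (D : ℂ[X]) (x : κ → ℂ[X]), (∀ m : ℕ, D.eval (m : ℂ) ≠ 0) ∧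
    ∀ m : ℕ, D.eval (m : ℂ) * w m = ∑ i, (x i).eval (m : ℂ) * v i m

theorem InV.congr {v : κ → ℕ → ℂ} {w w' : ℕ → ℂ} (h : InV v w) (hw : ∀ m, w' m = w m) :
    InV v w' := by
  obtain ⟨D, x, hD, hx⟩ := h
  exact ⟨D, x, hD, fun m => by rw [hw m]; exact hx m⟩

theorem InV.basis (v : κ → ℕ → ℂ) (i : κ) : InV v (v i) := by
  classical
  refine ⟨1, fun j => if j = i then 1 else 0, fun m => by simp, fun m => ?_⟩
  rw [eval_one, one_mul, Finset.sum_eq_single i]
  · simp
  · intro j _ hj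
    simp [hj]
  · intro h
    exact absurd (Finset.mem_univ i) h

theorem InV.zero (v : κ → ℕ → ℂ) : InV v (fun _ => 0) := by
  refine ⟨1, fun _ => 0, fun m => by simp, fun m => ?_⟩
  simp

theorem InV.add {v : κ → ℕ → ℂ} {w w' : ℕ → ℂ} (h : InV v w) (h' : InV v w') :
    InV v (fun m => w m + w' m) := by
  obtain ⟨D, x, hD, hx⟩ := h
  obtain ⟨D', x', hD', hx'⟩ := h'
  refine ⟨D * D', fun i => D' * x i + D * x' i, fun m => ?_, fun m => ?_⟩
  · rw [eval_mul]; exact mul_ne_zero (hD m) (hD' m)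
  · have h1 : ∑ i, (D' * x i + D * x' i).eval (m : ℂ) * v i m =
        D'.eval (m : ℂ) * ∑ i, (x i).eval (m : ℂ) * v i m +
          D.eval (m : ℂ) * ∑ i, (x' i).eval (m : ℂ) * v i m := by
      rw [Finset.mul_sum, Finset.mul_sum, ← Finset.sum_add_distrib]
      refine Finset.sum_congr rfl fun i _ => ?_
      rw [eval_add, eval_mul, eval_mul]
      ring
    rw [h1, ← hx m, ← hx' m, eval_mul]
    ring

theorem InV.poly_mul {v : κ → ℕ → ℂ} {w : ℕ → ℂ} (h : InV v w) (p : ℂ[X]) :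
    InV v (fun m => p.eval (m : ℂ) * w m) := by
  obtain ⟨D, x, hD, hx⟩ := h
  refine ⟨D, fun i => p * x i, hD, fun m => ?_⟩
  have h1 : ∑ i, (p * x i).eval (m : ℂ) * v i m =
      p.eval (m : ℂ) * ∑ i, (x i).eval (m : ℂ) * v i m := by
    rw [Finset.mul_sum]
    refine Finset.sum_congr rfl fun i _ => ?_
    rw [eval_mul]
    ring
  rw [h1, ← hx m]
  ring

theorem InV.const_mul {v : κ → ℕ → ℂ} {w : ℕ → ℂ} (h : InV v w) (c : ℂ) :
    InV v (fun m => c * w m) :=
  (h.poly_mul (C c)).congr fun m => by rw [eval_C]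

theorem InV.sub {v : κ → ℕ → ℂ} {w w' : ℕ → ℂ} (h : InV v w) (h' : InV v w') :
    InV v (fun m => w m - w' m) :=
  (h.add (h'.const_mul (-1))).congr fun m => by ring

theorem InV.sum {α : Type} (s : Finset α) {v : κ → ℕ → ℂ} {w : α → ℕ → ℂ}
    (h : ∀ a ∈ s, InV v (w a)) : InV v (fun m => ∑ a ∈ s, w a m) := by
  classical
  induction s using Finset.induction_on with
  | empty => exact (InV.zero v).congr fun m => by simp
  | insert a s ha ih =>
    refine ((h a (Finset.mem_insert_self a s)).add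
      (ih fun b hb => h b (Finset.mem_insert_of_mem hb))).congr fun m => ?_
    rw [Finset.sum_insert ha]

theorem InV.of_mul {v : κ → ℕ → ℂ} {w : ℕ → ℂ} (D : ℂ[X]) (hD : ∀ m : ℕ, D.eval (m : ℂ) ≠ 0)
    (h : InV v (fun m => D.eval (m : ℂ) * w m)) : InV v w := by
  obtain ⟨E, x, hE, hx⟩ := h
  refine ⟨E * D, x, fun m => ?_, fun m => ?_⟩
  · rw [eval_mul]; exact mul_ne_zero (hE m) (hD m)
  · rw [← hx m, eval_mul]
    ring

theorem InV.trans {u : κ' → ℕ → ℂ} {v : κ → ℕ → ℂ} {w : ℕ → ℂ} (h : InV v w)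
    (hv : ∀ i, InV u (v i)) : InV u w := by
  obtain ⟨D, x, hD, hx⟩ := h
  refine InV.of_mul D hD ?_
  exact (InV.sum Finset.univ fun i _ => (hv i).poly_mul (x i)).congr fun m => hx m

/-- the submodule of polynomial relations valid from some point on -/
def relSub (v : κ → ℕ → ℂ) : Submodule ℂ[X] (κ → ℂ[X]) where
  carrier := {x | ∃ M : ℕ, ∀ m ≥ M, ∑ i, (x i).eval (m : ℂ) * v i m = 0}
  zero_mem' := ⟨0, fun m _ => by simp⟩
  add_mem' := by
    rintro x y ⟨M, hM⟩ ⟨M', hM'⟩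
    refine ⟨max M M', fun m hm => ?_⟩
    have h1 := hM m (le_trans (le_max_left _ _) hm)
    have h2 := hM' m (le_trans (le_max_right _ _) hm)
    have h3 : ∑ i, ((x + y) i).eval (m : ℂ) * v i m =
        ∑ i, (x i).eval (m : ℂ) * v i m + ∑ i, (y i).eval (m : ℂ) * v i m := by
      rw [← Finset.sum_add_distrib]
      refine Finset.sum_congr rfl fun i _ => ?_
      rw [Pi.add_apply, eval_add]
      ring
    rw [h3, h1, h2, add_zero]
  smul_mem' := by
    rintro p x ⟨M, hM⟩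
    refine ⟨M, fun m hm => ?_⟩
    have h3 : ∑ i, ((p • x) i).eval (m : ℂ) * v i m =
        p.eval (m : ℂ) * ∑ i, (x i).eval (m : ℂ) * v i m := by
      rw [Finset.mul_sum]
      refine Finset.sum_congr rfl fun i _ => ?_
      rw [Pi.smul_apply, smul_eq_mul, eval_mul]
      ring
    rw [h3, hM m hm, mul_zero]

theorem relSub_uniform (v : κ → ℕ → ℂ) :
    ∃ M : ℕ, ∀ x ∈ relSub v, ∀ m ≥ M, ∑ i, (x i).eval (m : ℂ) * v i m = 0 := by
  classical
  obtain ⟨s, hs⟩ := IsNoetherian.noetherian (relSub v)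
  have h1 : ∀ x ∈ s, ∃ M : ℕ, ∀ m ≥ M, ∑ i, (x i).eval (m : ℂ) * v i m = 0 := by
    intro x hx
    have : x ∈ relSub v := by rw [← hs]; exact Submodule.subset_span hx
    exact this
  choose! M hM using h1
  refine ⟨s.sup M, fun x hx => ?_⟩
  rw [← hs] at hx
  induction hx using Submodule.span_induction with
  | mem x hx => exact fun m hm => hM x hx m (le_trans (Finset.le_sup hx) hm)
  | zero => exact fun m _ => by simp
  | add x y _ _ hx hy =>
    intro m hm
    have h3 : ∑ i, ((x + y) i).eval (m : ℂ) * v i m =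
        ∑ i, (x i).eval (m : ℂ) * v i m + ∑ i, (y i).eval (m : ℂ) * v i m := by
      rw [← Finset.sum_add_distrib]
      refine Finset.sum_congr rfl fun i _ => ?_
      rw [Pi.add_apply, eval_add]
      ring
    rw [h3, hx m hm, hy m hm, add_zero]
  | smul p x _ hx =>
    intro m hm
    have h3 : ∑ i, ((p • x) i).eval (m : ℂ) * v i m =
        p.eval (m : ℂ) * ∑ i, (x i).eval (m : ℂ) * v i m := by
      rw [Finset.mul_sum]
      refine Finset.sum_congr rfl fun i _ => ?_
      rw [Pi.smul_apply, smul_eq_mul, eval_mul]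
      ring
    rw [h3, hx m hm, mul_zero]

/-- one backward step on coefficient vectors -/
noncomputable def stepv (T : κ → κ → ℂ[X]) (y : κ → ℂ[X]) : κ → ℂ[X] :=
  fun j => (∑ i, y i * T i j).comp (X - C 1)

theorem stepv_eval (v : κ → ℕ → ℂ) (D : ℂ[X]) (T : κ → κ → ℂ[X])
    (hT : ∀ i, ∀ m : ℕ, D.eval (m : ℂ) * v i m = ∑ j, (T i j).eval (m : ℂ) * v j (m + 1))
    (y : κ → ℂ[X]) (m : ℕ) :
    ∑ j, (stepv T y j).eval ((m + 1 : ℕ) : ℂ) * v j (m + 1) =
      D.eval (m : ℂ) * ∑ i, (y i).eval (m : ℂ) * v i m := by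
  have h1 : ∀ j, (stepv T y j).eval ((m + 1 : ℕ) : ℂ) =
      ∑ i, (y i).eval (m : ℂ) * (T i j).eval (m : ℂ) := by
    intro j
    rw [stepv, eval_comp, eval_sub, eval_X, eval_C, eval_finsetSum]
    have : ((m + 1 : ℕ) : ℂ) - 1 = m := by push_cast; ring
    rw [this]
    exact Finset.sum_congr rfl fun i _ => eval_mul
  rw [Finset.sum_congr rfl fun j _ => by rw [h1 j, Finset.sum_mul], Finset.sum_comm,
    Finset.mul_sum]
  refine Finset.sum_congr rfl fun i _ => ?_
  have h2 : D.eval (m : ℂ) * ((y i).eval (m : ℂ) * v i m) =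
      (y i).eval (m : ℂ) * (D.eval (m : ℂ) * v i m) := by ring
  rw [h2, hT i m, Finset.mul_sum]
  refine Finset.sum_congr rfl fun j _ => ?_
  ring

theorem stepv_iter_eval (v : κ → ℕ → ℂ) (D : ℂ[X]) (T : κ → κ → ℂ[X])
    (hT : ∀ i, ∀ m : ℕ, D.eval (m : ℂ) * v i m = ∑ j, (T i j).eval (m : ℂ) * v j (m + 1))
    (y : κ → ℂ[X]) (n : ℕ) : ∀ m : ℕ,
    ∑ j, ((stepv T)^[n] y j).eval ((m + n : ℕ) : ℂ) * v j (m + n) =
      (∏ k ∈ Finset.range n, D.eval ((m + k : ℕ) : ℂ)) * ∑ i, (y i).eval (m : ℂ) * v i m := by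
  induction n with
  | zero => intro m; simp
  | succ n ih =>
    intro m
    rw [Function.iterate_succ_apply', Finset.prod_range_succ]
    have := stepv_eval v D T hT ((stepv T)^[n] y) (m + n)
    rw [ih m] at this
    rw [← add_assoc, this]
    ring

/-- the abstract statement: no new value at zero -/
theorem kl (v : κ → ℕ → ℂ) (hv : ∀ i, InV (fun j m => v j (m + 1)) (v i)) {w : ℕ → ℂ}
    (hw : InV v w) (h0 : ∀ m : ℕ, 1 ≤ m → w m = 0) : w 0 = 0 := by
  classical
  choose D x hD hx using hv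
  obtain ⟨E, y, hE, hy⟩ := hw
  set DD : ℂ[X] := ∏ i, D i with hDD
  set T : κ → κ → ℂ[X] := fun i j => (∏ i' ∈ Finset.univ.erase i, D i') * x i j with hTdef
  have hDDne : ∀ m : ℕ, DD.eval (m : ℂ) ≠ 0 := by
    intro m
    rw [hDD, eval_prod]
    exact Finset.prod_ne_zero_iff.mpr fun i _ => hD i m
  have hT : ∀ i, ∀ m : ℕ, DD.eval (m : ℂ) * v i m =
      ∑ j, (T i j).eval (m : ℂ) * v j (m + 1) := by
    intro i m
    have h1 : DD = (∏ i' ∈ Finset.univ.erase i, D i') * D i := by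
      rw [hDD, mul_comm]
      exact (Finset.mul_prod_erase Finset.univ D (Finset.mem_univ i)).symm
    rw [h1, eval_mul, mul_assoc, hx i m, Finset.mul_sum]
    refine Finset.sum_congr rfl fun j _ => ?_
    rw [hTdef]
    simp only [eval_mul]
    ring
  obtain ⟨M, hM⟩ := relSub_uniform v
  have h1 : (stepv T)^[M] y ∈ relSub v := by
    refine ⟨M + 1, fun m hm => ?_⟩
    obtain ⟨k, rfl⟩ : ∃ k, m = (k + 1) + M := ⟨m - M - 1, by omega⟩
    rw [stepv_iter_eval v DD T hT y M (k + 1), ← hy (k + 1), h0 (k + 1) (by omega)]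
    ring
  have h2 := hM _ h1 M le_rfl
  have h3 := stepv_iter_eval v DD T hT y M 0
  rw [zero_add, h2, ← hy 0] at h3
  have h4 : (∏ k ∈ Finset.range M, DD.eval ((0 + k : ℕ) : ℂ)) ≠ 0 :=
    Finset.prod_ne_zero_iff.mpr fun k _ => hDDne _
  have h5 := mul_eq_zero.mp h3.symm
  rcases h5 with h5 | h5
  · exact absurd h5 h4
  · rcases mul_eq_zero.mp h5 with h6 | h6
    · exact absurd h6 (hE 0)
    · exact h6

/-- duality: a finite certificate -/
theorem certificate {Λ : Type} [Fintype Λ] (B : Λ → ℕ → ℂ)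
    (h : ∀ y : Λ → ℂ, (∀ m : ℕ, 1 ≤ m → ∑ l, y l * B l m = 0) → ∑ l, y l * B l 0 = 0) :
    ∃ (M : ℕ) (lam : ℕ → ℂ), ∀ l, B l 0 = ∑ m ∈ Finset.range M, lam m * B l (m + 1) := by
  classical
  set b : ℕ → Λ → ℂ := fun m l => B l m with hb
  have h1 : b 0 ∈ Submodule.span ℂ (Set.range fun m => b (m + 1)) := by
    by_contra hcon
    obtain ⟨f, hf0, hf⟩ := Submodule.exists_le_ker_of_notMem hcon
    have hfe : ∀ z : Λ → ℂ, f z = ∑ l, f (Pi.single l 1) * z l := by
      intro z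
      conv_lhs => rw [pi_eq_sum_univ' z]
      rw [map_sum]
      refine Finset.sum_congr rfl fun l _ => ?_
      rw [map_smul, smul_eq_mul, mul_comm]
    refine hf0 ?_
    rw [hfe]
    refine h (fun l => f (Pi.single l 1)) fun m hm => ?_
    have : b m ∈ LinearMap.ker f := by
      refine hf (Submodule.subset_span ⟨m - 1, ?_⟩)
      simp only
      congr 1
      omega
    rw [LinearMap.mem_ker, hfe] at this
    exact this
  rw [Finsupp.mem_span_range_iff_exists_finsupp] at h1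
  obtain ⟨c, hc⟩ := h1
  refine ⟨c.support.sup id + 1, fun m => c m, fun l => ?_⟩
  have h2 := congrFun hc l
  rw [Finsupp.sum, Finset.sum_apply] at h2
  rw [← show b 0 l = B l 0 from rfl, ← h2]
  refine Finset.sum_subset_zero_on_sdiff ?_ ?_ ?_
  · intro m hm
    rw [Finset.mem_range]
    have := Finset.le_sup (f := id) hm
    simp only [id] at this
    omega
  · intro m hm
    rw [Finset.mem_sdiff, Finsupp.mem_support_iff, not_not] at hm
    simp only [hm.2, zero_mul]
  · intro m _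
    rfl

end Pool.Agent.MP_410f3c_al.Q
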