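import Mathlib

/-!
# Nondegenerate lowest forms: homogeneous ideals without common zeros
-/

set_option autoImplicit false
set_option linter.unusedSectionVars false

open MvPolynomial

namespace Pool.Agent.MP_410f3c_al.Q

variable {ι : Type} [Fintype ι]

theorem hc_mul {A : Type} [CommRing A] {P : MvPolynomial ι A} {d : ℕ} (hP : P.IsHomogeneous d)
    (Q : MvPolynomial ι A) {k : ℕ} (hk : d ≤ k) :
    homogeneousComponent k (P * Q) = P * homogeneousComponent (k - d) Q := by
  have h1 : ∀ i, homogeneousComponent k (P * homogeneousComponent i Q) =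
      if i = k - d then P * homogeneousComponent i Q else 0 := by
    intro i
    have h2 : P * homogeneousComponent i Q ∈ homogeneousSubmodule ι A (d + i) :=
      hP.mul (homogeneousComponent_isHomogeneous i Q)
    rw [homogeneousComponent_of_mem h2]
    have h3 : (k = d + i) ↔ (i = k - d) := by omega
    simp only [h3]
  conv_lhs => rw [← sum_homogeneousComponent Q]
  rw [Finset.mul_sum, map_sum, Finset.sum_congr rfl fun i _ => h1 i, Finset.sum_ite_eq']
  split_ifs with h
  · rfl
  · rw [Finset.mem_range, not_lt] at h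
    rw [homogeneousComponent_eq_zero (k - d) Q (by omega), mul_zero]

theorem X_mem_radical (J : Ideal (MvPolynomial ι ℂ))
    (hJ : ∀ z : ι → ℂ, z ≠ 0 → ∃ p ∈ J, eval z p ≠ 0) (i : ι) :
    (X i : MvPolynomial ι ℂ) ∈ J.radical := by
  rw [← vanishingIdeal_zeroLocus_eq_radical (K := ℂ), mem_vanishingIdeal_iff]
  intro z hz
  rw [mem_zeroLocus_iff] at hz
  have hz0 : z = 0 := by
    by_contra hne
    obtain ⟨p, hp, hpz⟩ := hJ z hne
    have := hz p hp
    rw [MvPolynomial.aeval_eq_eval] at this
    exact hpz this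
  rw [hz0, aeval_X]
  rfl

/-- homogeneous polynomials `P l` without a common zero besides the origin generate all forms of
large degree -/
theorem nul [Nonempty ι] {Λ : Type} [Fintype Λ] (P : Λ → MvPolynomial ι ℂ) (d : Λ → ℕ)
    (hP : ∀ l, (P l).IsHomogeneous (d l))
    (hz : ∀ z : ι → ℂ, z ≠ 0 → ∃ l, eval z (P l) ≠ 0) :
    ∃ r : ℕ, (∀ l, d l ≤ r) ∧ ∀ k, r ≤ k → ∀ G : MvPolynomial ι ℂ, G.IsHomogeneous k →
      ∃ Q : Λ → MvPolynomial ι ℂ, (∀ l, (Q l).IsHomogeneous (k - d l)) ∧ G = ∑ l, P l * Q l := by
  classical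
  set J : Ideal (MvPolynomial ι ℂ) := Ideal.span (Set.range P) with hJ
  have h1 : ∀ i : ι, ∃ n : ℕ, (X i : MvPolynomial ι ℂ) ^ n ∈ J := by
    intro i
    have := X_mem_radical J (fun z hzne => by
      obtain ⟨l, hl⟩ := hz z hzne
      exact ⟨P l, Ideal.subset_span ⟨l, rfl⟩, hl⟩) i
    exact this
  choose n hn using h1
  refine ⟨∑ i, n i + ∑ l, d l, fun l => ?_, ?_⟩
  · have := Finset.single_le_sum (f := d) (fun _ _ => Nat.zero_le _) (Finset.mem_univ l)
    exact le_trans this (Nat.le_add_left _ _)
  intro k hk G hG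
  have h2 : G ∈ J := by
    rw [← MvPolynomial.support_sum_monomial_coeff G]
    refine Ideal.sum_mem J fun s hs => ?_
    have hsd : ∑ i, s i = k := by
      have h := hG (mem_support_iff.mp hs)
      have h' : s.degree = ∑ i, s i := by rw [Finsupp.degree_eq_sum]
      rw [← h', ← h, Finsupp.degree_eq_weight_one]
      rfl
    by_cases hex : ∃ i, n i ≤ s i
    · obtain ⟨i, hi⟩ := hex
      have h3 : monomial s (coeff s G) = monomial (s - Finsupp.single i (n i)) (coeff s G) *
          (X i) ^ (n i) := by
        have h4 : s - Finsupp.single i (n i) + Finsupp.single i (n i) = s :=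
          tsub_add_cancel_of_le (by rw [Finsupp.single_le_iff]; exact hi)
        rw [X_pow_eq_monomial, monomial_mul, mul_one, h4]
      rw [h3]
      exact J.mul_mem_left _ (hn i)
    · push Not at hex
      -- then all exponents are small
      exfalso
      have : ∑ i, s i < ∑ i, n i :=
        Finset.sum_lt_sum_of_nonempty Finset.univ_nonempty fun i _ => hex i
      omega
  rw [hJ, Ideal.mem_span_range_iff_exists_fun] at h2
  obtain ⟨c, hc⟩ := h2
  refine ⟨fun l => homogeneousComponent (k - d l) (c l), fun l =>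
    homogeneousComponent_isHomogeneous _ _, ?_⟩
  rw [← homogeneousComponent_eq_self hG]
  conv_lhs => rw [← hc]
  rw [map_sum]
  refine Finset.sum_congr rfl fun l _ => ?_
  rw [mul_comm, hc_mul (hP l)]
  have := Finset.single_le_sum (f := d) (fun _ _ => Nat.zero_le _) (Finset.mem_univ l)
  have h4 : d l ≤ ∑ i, n i + ∑ l, d l := le_trans this (Nat.le_add_left _ _)
  omega

end Pool.Agent.MP_410f3c_al.Q
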