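import Pool.Agent.MP_410f3c_al.Q.Fun
import Pool.Agent.MP_410f3c_al.Q.Seq
import Pool.Agent.MP_410f3c_al.Q.Zer

/-!
# Nondegenerate lowest forms: two consequences of integration by parts
-/

set_option autoImplicit false
set_option linter.unusedSectionVars false

open MvPolynomial

namespace Pool.Agent.MP_410f3c_al.Q

variable {ι : Type} [Fintype ι] [Nonempty ι]

theorem NN_pow {σ : Type} (l : σ) (A : MvPolynomial σ ℂ) (b : ℕ) :
    NN l (A ^ b) = (b : ℂ) • (A ^ (b - 1) * NN l A) := by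
  rw [Derivation.leibniz_pow, smul_eq_mul, Nat.cast_smul_eq_nsmul]

theorem NN_mul {σ : Type} (l : σ) (A B : MvPolynomial σ ℂ) :
    NN l (A * B) = A * NN l B + B * NN l A := by
  rw [Derivation.leibniz, smul_eq_mul, smul_eq_mul]

theorem NN_mono {σ : Type} (l : σ) (α : σ →₀ ℕ) :
    NN l (monomial α (1 : ℂ)) = (α l : ℂ) • monomial α (1 : ℂ) := NN_monomial l α 1

/-- `P^n Q` differentiated along `N_l` -/
theorem NN_pow_mul {σ : Type} (l : σ) {P Q Y : MvPolynomial σ ℂ}
    (hY : Q * pderiv l P = P * Y) (n : ℕ) :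
    NN l (P ^ n) * Q = (n : ℂ) • (P ^ n * (X l * Y)) := by
  rw [NN_pow, smul_mul_assoc]
  rcases Nat.eq_zero_or_pos n with h | h
  · rw [h]; simp
  · congr 1
    obtain ⟨k, rfl⟩ : ∃ k, n = k + 1 := ⟨n - 1, by omega⟩
    rw [Nat.add_sub_cancel, NN_apply, pow_succ]
    linear_combination (P ^ k * X l) * hY

/-- integration by parts, raising the exponent of `A` -/
theorem ibpA {A P Q Y G : MvPolynomial ι ℂ} {dA dP dQ g : ℕ} (hA : A.IsHomogeneous dA)
    (hP : P.IsHomogeneous dP) (hQ : Q.IsHomogeneous dQ) (hG : G.IsHomogeneous g) (l : ι)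
    (hY : Q * pderiv l P = P * Y) (α : ι →₀ ℕ) (b n M : ℕ) :
    (b : ℂ) * II (monomial α 1 * A ^ (b - 1) * P ^ n * Q ^ (M + 1) * (NN l A * G)) =
      (((∑ i, α i + dA * b + dP * n + dQ * (M + 1) + g : ℕ) : ℂ) + Fintype.card ι) *
        II (monomial α 1 * A ^ b * P ^ n * Q ^ M * (Q * X l * G)) -
      (1 + (α l : ℂ)) * II (monomial α 1 * A ^ b * P ^ n * Q ^ M * (Q * G)) -
      (n : ℂ) * II (monomial α 1 * A ^ b * P ^ n * Q ^ M * (X l * Y * G)) -
      II (monomial α 1 * A ^ b * P ^ n * Q ^ M *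
        ((M + 1 : ℂ) • (NN l Q * G) + Q * NN l G)) := by
  have hX0 : (monomial α 1 * A ^ b * P ^ n * Q ^ (M + 1) * G).IsHomogeneous
      (∑ i, α i + dA * b + dP * n + dQ * (M + 1) + g) := by
    refine ((((MvPolynomial.IsHomogeneous.mul ?_ (hA.pow b)).mul (hP.pow n)).mul
      (hQ.pow (M + 1))).mul hG)
    refine isHomogeneous_monomial 1 ?_
    exact deg_eq_sum α
  have h1 := ibp l hX0
  have h2 : NN l (monomial α 1 * A ^ b * P ^ n * Q ^ (M + 1) * G) =
      (α l : ℂ) • (monomial α 1 * A ^ b * P ^ n * Q ^ M * (Q * G)) +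
      (b : ℂ) • (monomial α 1 * A ^ (b - 1) * P ^ n * Q ^ (M + 1) * (NN l A * G)) +
      (n : ℂ) • (monomial α 1 * A ^ b * P ^ n * Q ^ M * (X l * Y * G)) +
      monomial α 1 * A ^ b * P ^ n * Q ^ M * ((M + 1 : ℂ) • (NN l Q * G) + Q * NN l G) := by
    have h3 := NN_pow_mul l hY n
    rw [NN_mul, NN_mul, NN_mul, NN_mul, NN_mono, NN_pow l A b, NN_pow l Q (M + 1),
      Nat.add_sub_cancel]
    simp only [MvPolynomial.smul_eq_C_mul] at h3 ⊢
    push_cast
    rw [pow_succ Q M]
    linear_combination (G * Q ^ M * (monomial α 1 * A ^ b)) * h3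
  have h4 : X l * (monomial α 1 * A ^ b * P ^ n * Q ^ (M + 1) * G) =
      monomial α 1 * A ^ b * P ^ n * Q ^ M * (Q * X l * G) := by ring
  have h5 : monomial α 1 * A ^ b * P ^ n * Q ^ (M + 1) * G =
      monomial α 1 * A ^ b * P ^ n * Q ^ M * (Q * G) := by ring
  rw [h4, map_add, h2, h5] at h1
  simp only [map_add, map_smul, smul_eq_mul] at h1 ⊢
  linear_combination (-1 : ℂ) * h1

theorem NN_homog {σ : Type} [Fintype σ] {A : MvPolynomial σ ℂ} {d : ℕ} (hA : A.IsHomogeneous d)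
    (l : σ) : (NN l A).IsHomogeneous d := by
  have h0 : A = ∑ s ∈ A.support, monomial s (coeff s A) :=
    (MvPolynomial.support_sum_monomial_coeff A).symm
  rw [h0, map_sum]
  refine MvPolynomial.IsHomogeneous.sum _ _ _ fun s hs => ?_
  rw [NN_monomial, MvPolynomial.smul_monomial]
  refine isHomogeneous_monomial _ ?_
  rw [deg_eq_sum]
  exact sum_of_isHomogeneous hA hs

theorem NN_X_ne {σ : Type} {l i : σ} (h : l ≠ i) : NN l (X i : MvPolynomial σ ℂ) = 0 := by
  rw [NN_apply, pderiv_X_of_ne (Ne.symm h), mul_zero]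

/-- integration by parts along a field preserving the powers of `F`, raising the exponent of
`U_i` -/
theorem ibpU {A P Q F G Yi Yl : MvPolynomial ι ℂ} {a dA e dQ g : ℕ} (hA : A.IsHomogeneous dA)
    (hF : F.IsHomogeneous e) (hQ : Q.IsHomogeneous dQ) (hG : G.IsHomogeneous g) {l i : ι}
    (hli : l ≠ i) (hFA : F = A ^ a * P)
    (hYi : Q * pderiv i P = P * Yi) (hYl : Q * pderiv l P = P * Yl) (α : ι →₀ ℕ) (n : ℕ) :
    ((α i : ℂ) + 1) * II (monomial α 1 * F ^ n * (Q * NN l A * G)) =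
      (((∑ i, α i + e * n + (dQ + dA + g) : ℕ) : ℂ) + Fintype.card ι) *
        (II (monomial α 1 * X i * F ^ n * (Q * NN l A * G)) -
          II (monomial α 1 * X i * F ^ n * (X l * (Q * pderiv i A * G)))) +
      ((α l : ℂ) + 1) * II (monomial α 1 * X i * F ^ n * (Q * pderiv i A * G)) -
      (n : ℂ) * II (monomial α 1 * X i * F ^ n * (Yi * NN l A * G)) +
      (n : ℂ) * II (monomial α 1 * X i * F ^ n * (X l * Yl * pderiv i A * G)) -
      II (monomial α 1 * X i * F ^ n * (pderiv i (Q * NN l A * G))) +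
      II (monomial α 1 * X i * F ^ n * (NN l (Q * pderiv i A * G))) := by
  have hα : (monomial α (1 : ℂ)).IsHomogeneous (∑ i, α i) :=
    isHomogeneous_monomial 1 (deg_eq_sum α)
  have hX1 : (monomial α 1 * F ^ n * (Q * NN l A * G)).IsHomogeneous
      (∑ i, α i + e * n + (dQ + dA + g)) :=
    (hα.mul (hF.pow n)).mul ((hQ.mul (NN_homog hA l)).mul hG)
  have hX2 : (monomial α 1 * F ^ n * (Q * NN i A * G)).IsHomogeneous
      (∑ i, α i + e * n + (dQ + dA + g)) :=
    (hα.mul (hF.pow n)).mul ((hQ.mul (NN_homog hA i)).mul hG)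
  have h1 := ibp i hX1
  have h2 := ibp l hX2
  have h3 : NN i (F ^ n) * (Q * NN l A) - NN l (F ^ n) * (Q * NN i A) =
      (n : ℂ) • (F ^ n * (X i * Yi * NN l A - X l * Yl * NN i A)) := by
    have h4 := NN_pow_mul i hYi n
    have h5 := NN_pow_mul l hYl n
    have h6 : F ^ n = A ^ (a * n) * P ^ n := by rw [hFA, mul_pow, ← pow_mul]
    rw [h6, NN_mul, NN_mul, NN_pow i A, NN_pow l A]
    simp only [MvPolynomial.smul_eq_C_mul] at h4 h5 ⊢
    linear_combination (A ^ (a * n) * NN l A) * h4 - (A ^ (a * n) * NN i A) * h5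
  have h7 : NN i (monomial α 1 * F ^ n * (Q * NN l A * G)) -
      NN l (monomial α 1 * F ^ n * (Q * NN i A * G)) =
      (α i : ℂ) • (monomial α 1 * F ^ n * (Q * NN l A * G)) -
      (α l : ℂ) • (monomial α 1 * X i * F ^ n * (Q * pderiv i A * G)) +
      (n : ℂ) • (monomial α 1 * X i * F ^ n * (Yi * NN l A * G)) -
      (n : ℂ) • (monomial α 1 * X i * F ^ n * (X l * Yl * pderiv i A * G)) +
      monomial α 1 * X i * F ^ n * (pderiv i (Q * NN l A * G)) -
      monomial α 1 * X i * F ^ n * (NN l (Q * pderiv i A * G)) := by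
    have h8 : NN l (Q * NN i A * G) = X i * NN l (Q * pderiv i A * G) := by
      have : Q * NN i A * G = X i * (Q * pderiv i A * G) := by
        rw [NN_apply]; ring
      rw [this, NN_mul, NN_X_ne hli]
      ring
    have h9 : NN i (Q * NN l A * G) = X i * pderiv i (Q * NN l A * G) := rfl
    rw [NN_mul i (monomial α 1 * F ^ n), NN_mul l (monomial α 1 * F ^ n), NN_mul i (monomial α 1),
      NN_mul l (monomial α 1), NN_mono, NN_mono, h8, h9]
    have h10 : NN i A = X i * pderiv i A := rfl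
    rw [h10] at h3 ⊢
    simp only [MvPolynomial.smul_eq_C_mul] at h3 ⊢
    linear_combination (monomial α 1 * G) * h3
  have h11 : X i * (monomial α 1 * F ^ n * (Q * NN l A * G)) =
      monomial α 1 * X i * F ^ n * (Q * NN l A * G) := by ring
  have h12 : X l * (monomial α 1 * F ^ n * (Q * NN i A * G)) =
      monomial α 1 * X i * F ^ n * (X l * (Q * pderiv i A * G)) := by
    rw [NN_apply]; ring
  have h13 : monomial α 1 * F ^ n * (Q * NN i A * G) =
      monomial α 1 * X i * F ^ n * (Q * pderiv i A * G) := by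
    rw [NN_apply]; ring
  have h14 := congrArg II h7
  rw [map_add, h11] at h1
  rw [map_add, h12] at h2
  rw [h13] at h2 h14
  simp only [map_add, map_sub, map_smul, smul_eq_mul] at h14
  linear_combination (-1 : ℂ) * h1 + h2 - h14

end Pool.Agent.MP_410f3c_al.Q
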