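import Pool.Agent.MP_410f3c_al.Q.Gain

/-!
# Nondegenerate lowest forms: the recursions satisfied by the moments of `F^m`
-/

set_option autoImplicit false
set_option linter.unusedSectionVars false

open MvPolynomial

namespace Pool.Agent.MP_410f3c_al.Q

variable {ι : Type} [Fintype ι]

theorem td_NN (l : ι) (p : MvPolynomial ι ℂ) : (NN l p).totalDegree ≤ p.totalDegree := by
  have h0 : NN l p = ∑ s ∈ p.support, NN l (monomial s (coeff s p)) := by
    conv_lhs => rw [← MvPolynomial.support_sum_monomial_coeff p]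
    rw [map_sum]
  rw [h0]
  refine totalDegree_finsetSum_le fun s hs => ?_
  rw [NN_monomial]
  refine le_trans (totalDegree_smul_le _ _) (le_trans (totalDegree_monomial_le _ _) ?_)
  exact le_totalDegree hs

theorem td_pderiv (l : ι) (p : MvPolynomial ι ℂ) :
    (pderiv l p).totalDegree ≤ p.totalDegree - 1 := by
  by_cases h : pderiv l p = 0
  · rw [h, totalDegree_zero]; exact Nat.zero_le _
  · have h1 := td_NN l p
    rw [NN_apply, totalDegree_mul_of_isDomain (X_ne_zero l) h, totalDegree_X] at h1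
    omega

theorem td_mul_le {p q : MvPolynomial ι ℂ} {a b : ℕ} (hp : p.totalDegree ≤ a)
    (hq : q.totalDegree ≤ b) : (p * q).totalDegree ≤ a + b :=
  le_trans (totalDegree_mul p q) (add_le_add hp hq)

theorem td_add_le {p q : MvPolynomial ι ℂ} {a : ℕ} (hp : p.totalDegree ≤ a)
    (hq : q.totalDegree ≤ a) : (p + q).totalDegree ≤ a :=
  le_trans (totalDegree_add p q) (max_le hp hq)

theorem td_pow_le {p : MvPolynomial ι ℂ} {a : ℕ} (hp : p.totalDegree ≤ a) (n : ℕ) :
    (p ^ n).totalDegree ≤ n * a :=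
  le_trans (totalDegree_pow p n) (Nat.mul_le_mul_left n hp)

/-- the data attached to a form `F` whose reduced form is nondegenerate -/
structure ND (ι κ : Type) [Fintype ι] [Fintype κ] where
  F : MvPolynomial ι ℂ
  e : ℕ
  hF : F.IsHomogeneous e
  A : κ → MvPolynomial ι ℂ
  P : κ → MvPolynomial ι ℂ
  Q : κ → MvPolynomial ι ℂ
  Y : κ → ι → MvPolynomial ι ℂ
  a : κ → ℕ
  dA : κ → ℕ
  dP : κ → ℕ
  dQ : κ → ℕ
  N0 : ℕ
  hA : ∀ j, (A j).IsHomogeneous (dA j)
  hP : ∀ j, (P j).IsHomogeneous (dP j)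
  hQ : ∀ j, (Q j).IsHomogeneous (dQ j)
  ha : ∀ j, 1 ≤ a j
  hdA : ∀ j, 1 ≤ dA j
  he : ∀ j, e = a j * dA j + dP j
  hFj : ∀ j, F = A j ^ a j * P j
  hY : ∀ j i, Q j * pderiv i (P j) = P j * Y j i
  hYd : ∀ j i, (Y j i).totalDegree ≤ dQ j
  hPN : ∀ j, P j ∣ Q j ^ N0
  hQne : ∀ j, Q j ≠ 0
  hAz : ∀ j, ∀ z : ι → ℂ, z ≠ 0 → ∃ i, z i * eval z (pderiv i (A j)) ≠ 0
  hQz : ∀ z : ι → ℂ, z ≠ 0 → ∃ j, eval z (Q j) ≠ 0

variable {κ : Type} [Fintype κ] {κv : Type} [Fintype κv]

section raise

variable [Nonempty ι]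

/-- raising the degree with powers of `U_1 + ... + U_n` -/
theorem raise {v : κv → ℕ → ℂ} (c : ℕ → ℂ) (Z : ℕ → MvPolynomial ι ℂ) (k : ℕ)
    (h : ∀ G : MvPolynomial ι ℂ, G.IsHomogeneous k → InV v (fun m => c m * II (Z m * G)))
    (G : MvPolynomial ι ℂ) (hG : G.totalDegree ≤ k) : InV v (fun m => c m * II (Z m * G)) := by
  have h1 : ∀ i ∈ Finset.range (G.totalDegree + 1),
      InV v (fun m => c m * II (Z m * (SS ι ^ (k - i) * homogeneousComponent i G))) := by
    intro i hi
    refine h _ ?_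
    have h2 : (SS ι ^ (k - i) * homogeneousComponent i G).IsHomogeneous (1 * (k - i) + i) :=
      (SS_homog.pow (k - i)).mul (homogeneousComponent_isHomogeneous i G)
    rw [Finset.mem_range] at hi
    have h3 : 1 * (k - i) + i = k := by omega
    rw [h3] at h2
    exact h2
  refine (InV.sum (Finset.range (G.totalDegree + 1)) h1).congr fun m => ?_
  rw [← Finset.mul_sum]
  congr 1
  conv_lhs => rw [← sum_homogeneousComponent G]
  rw [Finset.mul_sum, map_sum]
  refine Finset.sum_congr rfl fun i _ => ?_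
  have h4 : Z m * (SS ι ^ (k - i) * homogeneousComponent i G) =
      SS ι ^ (k - i) * (Z m * homogeneousComponent i G) := by ring
  rw [h4, II_SS_pow_mul]

end raise

section gain

variable [Nonempty ι] (D : ND ι κ)

/-- raising the exponent of `A j` -/
theorem gainA (j : κ) (μ : ι →₀ ℕ) {v : κv → ℕ → ℂ} (pf : ℕ → ℂ) (n : ℕ → ℕ)
    (pn : Polynomial ℂ) (hn : ∀ m, pf m ≠ 0 → ((n m : ℕ) : ℂ) = pn.eval (m : ℂ)) (r r0 : ℕ)
    (hdr : D.dA j ≤ r0)
    (hr0 : ∀ k, r0 ≤ k → ∀ G : MvPolynomial ι ℂ, G.IsHomogeneous k →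
      ∃ Q : ι → MvPolynomial ι ℂ, (∀ l, (Q l).IsHomogeneous (k - D.dA j)) ∧
        G = ∑ l, NN l (D.A j) * Q l)
    (hr : r0 + D.a j * D.dQ j ≤ r)
    (base : ∀ G : MvPolynomial ι ℂ, G.totalDegree ≤ r →
      InV v (fun m => pf m * II (monomial (m • μ) 1 * D.F ^ (n m) * G))) :
    ∀ c : ℕ, c ≤ D.a j → ∀ M : ℕ, c ≤ M → M ≤ D.a j → ∀ G : MvPolynomial ι ℂ,
      M * D.dQ j + G.totalDegree + c ≤ r + c * D.dA j →
      InV v (fun m => (pf m * ((D.a j * n m).descFactorial c : ℂ)) *
        II (monomial (m • μ) 1 * (D.A j ^ (D.a j * n m - c) * D.P j ^ (n m) * D.Q j ^ M) * G)) := by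
  intro c
  induction c with
  | zero =>
    intro _ M _ hMa G hG
    have h1 : (D.Q j ^ M * G).totalDegree ≤ r := by
      refine le_trans (td_mul_le (td_pow_le (D.hQ j).totalDegree_le M) le_rfl) ?_
      omega
    refine (base (D.Q j ^ M * G) h1).congr fun m => ?_
    rw [Nat.descFactorial_zero, Nat.cast_one, mul_one, Nat.sub_zero]
    congr 2
    rw [D.hFj j, mul_pow, ← pow_mul]
    ring
  | succ c ih =>
    intro hca M hcM hMa G hG
    obtain ⟨M', rfl⟩ : ∃ M', M = M' + 1 := ⟨M - 1, by omega⟩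
    have hdA := D.hdA j
    have hMQ : (M' + 1) * D.dQ j ≤ D.a j * D.dQ j := Nat.mul_le_mul_right _ hMa
    have hcA : c + 1 ≤ (c + 1) * D.dA j := Nat.le_mul_of_pos_right _ hdA
    set k : ℕ := r + (c + 1) * D.dA j - (M' + 1) * D.dQ j - (c + 1) with hk
    refine raise _ _ k ?_ G (by omega)
    clear G hG
    intro G hG
    obtain ⟨Q, hQ, hGQ⟩ := hr0 k (by omega) G hG
    have hkA : D.dA j ≤ k := by omega
    -- the individual terms
    have key : ∀ l : ι, InV v (fun m => (pf m * ((D.a j * n m).descFactorial (c + 1) : ℂ)) *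
        II (monomial (m • μ) 1 * (D.A j ^ (D.a j * n m - (c + 1)) * D.P j ^ (n m) *
          D.Q j ^ (M' + 1)) * (NN l (D.A j) * Q l))) := by
      intro l
      have hcl : (c + 1) * D.dA j = c * D.dA j + D.dA j := by ring
      have hMl : (M' + 1) * D.dQ j = M' * D.dQ j + D.dQ j := by ring
      have hQl : (Q l).totalDegree ≤ k - D.dA j := (hQ l).totalDegree_le
      have ihh : ∀ G' : MvPolynomial ι ℂ, G'.totalDegree ≤ D.dQ j + 1 + (k - D.dA j) →
          InV v (fun m => (pf m * ((D.a j * n m).descFactorial c : ℂ)) *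
            II (monomial (m • μ) 1 * (D.A j ^ (D.a j * n m - c) * D.P j ^ (n m) *
              D.Q j ^ M') * G')) := by
        intro G' hG'
        refine ih (by omega) M' (by omega) (by omega) G' ?_
        omega
      have t1 := ihh (D.Q j * X l * Q l) (by
        refine le_trans (td_mul_le (td_mul_le (D.hQ j).totalDegree_le (b := 1) ?_) hQl) le_rfl
        rw [totalDegree_X])
      have t2 := ihh (D.Q j * Q l) (by
        refine le_trans (td_mul_le (D.hQ j).totalDegree_le hQl) ?_
        omega)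
      have t3 := ihh (X l * D.Y j l * Q l) (by
        refine le_trans (td_mul_le (td_mul_le (a := 1) ?_ (D.hYd j l)) hQl) ?_
        · rw [totalDegree_X]
        · omega)
      have t4 := ihh ((M' + 1 : ℂ) • (NN l (D.Q j) * Q l) + D.Q j * NN l (Q l)) (by
        refine le_trans (td_add_le (a := D.dQ j + (k - D.dA j)) ?_ ?_) (by omega)
        · refine le_trans (totalDegree_smul_le _ _) ?_
          exact td_mul_le (le_trans (td_NN _ _) (D.hQ j).totalDegree_le) hQl
        · exact td_mul_le (D.hQ j).totalDegree_le (le_trans (td_NN _ _) hQl))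
      -- the coefficient polynomials
      set q1 : Polynomial ℂ := Polynomial.C ((∑ i, μ i : ℕ) : ℂ) * Polynomial.X +
        Polynomial.C (D.dA j : ℂ) * (Polynomial.C (D.a j : ℂ) * pn - Polynomial.C (c : ℂ)) +
        Polynomial.C (D.dP j : ℂ) * pn +
        Polynomial.C ((D.dQ j * (M' + 1) + (k - D.dA j) : ℕ) + (Fintype.card ι : ℂ)) with hq1
      set q2 : Polynomial ℂ := Polynomial.C (1 : ℂ) + Polynomial.C (μ l : ℂ) * Polynomial.X with hq2
      have hall := (((t1.poly_mul q1).sub (t2.poly_mul q2)).sub (t3.poly_mul pn)).sub t4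
      refine hall.congr fun m => ?_
      by_cases hpf : pf m = 0
      · simp only [hpf, zero_mul, mul_zero, sub_zero]
      by_cases hlt : D.a j * n m < c
      · have e1 : (D.a j * n m).descFactorial c = 0 := Nat.descFactorial_of_lt hlt
        have e2 : (D.a j * n m).descFactorial (c + 1) = 0 :=
          Nat.descFactorial_of_lt (by omega)
        simp only [e1, e2, Nat.cast_zero, mul_zero, zero_mul, sub_zero]
      · push Not at hlt
        have hb := ibpA (D.hA j) (D.hP j) (D.hQ j) (hQ l) l (D.hY j l) (m • μ)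
          (D.a j * n m - c) (n m) M'
        have hnm := hn m hpf
        have e3 : D.a j * n m - (c + 1) = D.a j * n m - c - 1 := by omega
        have e4 : ((D.a j * n m).descFactorial (c + 1) : ℂ) =
            ((D.a j * n m - c : ℕ) : ℂ) * ((D.a j * n m).descFactorial c : ℂ) := by
          rw [Nat.descFactorial_succ, Nat.cast_mul]
        have e5 : ((∑ i, (m • μ) i + D.dA j * (D.a j * n m - c) + D.dP j * n m +
            D.dQ j * (M' + 1) + (k - D.dA j) : ℕ) : ℂ) + (Fintype.card ι : ℂ) =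
            q1.eval (m : ℂ) := by
          have e6 : ∑ i, (m • μ) i = m * ∑ i, μ i := by
            simp only [Finsupp.smul_apply, smul_eq_mul, Finset.mul_sum]
          rw [hq1]
          simp only [Polynomial.eval_add, Polynomial.eval_mul, Polynomial.eval_C,
            Polynomial.eval_X, Polynomial.eval_sub, ← hnm]
          rw [e6, Nat.cast_add, Nat.cast_add, Nat.cast_add, Nat.cast_add, Nat.cast_mul m,
            Nat.cast_mul (D.dA j), Nat.cast_sub hlt, Nat.cast_mul (D.dP j), Nat.cast_add,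
            Nat.cast_mul (D.a j)]
          ring
        have e7 : q2.eval (m : ℂ) = 1 + (((m • μ) l : ℕ) : ℂ) := by
          rw [hq2]
          simp only [Polynomial.eval_add, Polynomial.eval_mul, Polynomial.eval_C,
            Polynomial.eval_X, Finsupp.smul_apply, smul_eq_mul, Nat.cast_mul]
          ring
        rw [e5, ← e7, hnm] at hb
        have e8 : ∀ G' : MvPolynomial ι ℂ, ∀ b N : ℕ,
            monomial (m • μ) 1 * (D.A j ^ b * D.P j ^ (n m) * D.Q j ^ N) * G' =
            monomial (m • μ) 1 * D.A j ^ b * D.P j ^ (n m) * D.Q j ^ N * G' := by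
          intro G' b N; ring
        rw [e3, e4]
        simp only [e8]
        linear_combination (pf m * ((D.a j * n m).descFactorial c : ℂ)) * hb
    refine (InV.sum Finset.univ fun l _ => key l).congr fun m => ?_
    conv_lhs => rw [hGQ]
    rw [Finset.mul_sum, map_sum, Finset.mul_sum]

/-- the factor relating `(a n)(a n - 1) ... (a n - a + 1)` and `n` -/
noncomputable def EE (a : ℕ) (pn : Polynomial ℂ) : Polynomial ℂ :=
  Polynomial.C (a : ℂ) * ∏ l ∈ Finset.range (a - 1),
    (Polynomial.C (a : ℂ) * pn - Polynomial.C ((l + 1 : ℕ) : ℂ))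

theorem EE_ne {a : ℕ} (ha : 1 ≤ a) {pn : Polynomial ℂ} {m : ℂ} {z : ℤ}
    (hz : pn.eval m = (z : ℂ)) : (EE a pn).eval m ≠ 0 := by
  rw [EE, Polynomial.eval_mul, Polynomial.eval_C, Polynomial.eval_prod]
  refine mul_ne_zero (Nat.cast_ne_zero.mpr (by omega)) (Finset.prod_ne_zero_iff.mpr ?_)
  intro l hl
  rw [Finset.mem_range] at hl
  rw [Polynomial.eval_sub, Polynomial.eval_mul, Polynomial.eval_C, Polynomial.eval_C, hz]
  intro h0
  have h1 : (a : ℤ) * z = (l + 1 : ℕ) := by
    have : ((a : ℤ) : ℂ) * (z : ℂ) = (((l + 1 : ℕ) : ℤ) : ℂ) := by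
      push_cast
      push_cast at h0
      linear_combination h0
    exact_mod_cast this
  have h2 : (a : ℤ) ∣ ((l + 1 : ℕ) : ℤ) := ⟨z, h1.symm⟩
  have h3 : a ∣ l + 1 := by exact_mod_cast h2
  have h4 := Nat.le_of_dvd (by omega) h3
  omega

theorem descFactorial_EE {a : ℕ} (ha : 1 ≤ a) {n : ℕ} {pn : Polynomial ℂ} {m : ℂ}
    (hn : ((n : ℕ) : ℂ) = pn.eval m) :
    ((a * n).descFactorial a : ℂ) = (EE a pn).eval m * n := by
  rcases Nat.eq_zero_or_pos n with h | h
  · subst h
    rw [mul_zero, Nat.descFactorial_of_lt (by omega)]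
    simp
  · obtain ⟨b, rfl⟩ : ∃ b, a = b + 1 := ⟨a - 1, by omega⟩
    rw [Nat.descFactorial_eq_prod_range, Finset.prod_range_succ', Nat.sub_zero, EE,
      Polynomial.eval_mul, Polynomial.eval_C, Polynomial.eval_prod, Nat.cast_mul, Nat.cast_prod,
      Nat.add_sub_cancel]
    have h1 : ∀ l ∈ Finset.range b, (((b + 1) * n - (l + 1) : ℕ) : ℂ) =
        Polynomial.eval m (Polynomial.C ((b + 1 : ℕ) : ℂ) * pn - Polynomial.C ((l + 1 : ℕ) : ℂ)) := by
      intro l hl
      rw [Finset.mem_range] at hl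
      have h2 : l + 1 ≤ (b + 1) * n := by
        have : (b + 1) * 1 ≤ (b + 1) * n := Nat.mul_le_mul_left _ h
        omega
      rw [Nat.cast_sub h2, Nat.cast_mul, Polynomial.eval_sub, Polynomial.eval_mul,
        Polynomial.eval_C, Polynomial.eval_C, ← hn]
    rw [Finset.prod_congr rfl h1, Nat.cast_mul]
    ring

/-- lowering the exponent of `F` -/
theorem gainF (μ : ι →₀ ℕ) {v : κv → ℕ → ℂ} (pf : ℕ → ℂ) (n : ℕ → ℕ)
    (pn : Polynomial ℂ) (hn : ∀ m, pf m ≠ 0 → ((n m : ℕ) : ℂ) = pn.eval (m : ℂ))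
    (hz : ∀ m : ℕ, ∃ z : ℤ, pn.eval (m : ℂ) = (z : ℂ)) (r : ℕ) (r0 : κ → ℕ)
    (hdr : ∀ j, D.dA j ≤ r0 j)
    (hr0 : ∀ j, ∀ k, r0 j ≤ k → ∀ G : MvPolynomial ι ℂ, G.IsHomogeneous k →
      ∃ Q : ι → MvPolynomial ι ℂ, (∀ l, (Q l).IsHomogeneous (k - D.dA j)) ∧
        G = ∑ l, NN l (D.A j) * Q l)
    (hr : ∀ j, r0 j + D.a j * D.dQ j ≤ r) (N : ℕ) (hN : ∀ j, D.N0 + D.a j ≤ N)
    (hrN : ∀ j, N * D.dQ j ≤ r)
    (hr1 : ∀ G : MvPolynomial ι ℂ, G.IsHomogeneous r →
      ∃ Q : κ → MvPolynomial ι ℂ, (∀ l, (Q l).IsHomogeneous (r - N * D.dQ l)) ∧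
        G = ∑ l, D.Q l ^ N * Q l)
    (base : ∀ G : MvPolynomial ι ℂ, G.totalDegree ≤ r →
      InV v (fun m => pf m * II (monomial (m • μ) 1 * D.F ^ (n m) * G))) :
    ∀ G : MvPolynomial ι ℂ, G.totalDegree ≤ r →
      InV v (fun m => (pf m * (n m : ℂ)) *
        II (monomial (m • μ) 1 * D.F ^ (n m - 1) * G)) := by
  intro G hG
  refine raise _ _ r ?_ G hG
  clear G hG
  intro G hG
  obtain ⟨Q, hQ, hGQ⟩ := hr1 G hG
  have key : ∀ j : κ, InV v (fun m => (pf m * (n m : ℂ)) *
      II (monomial (m • μ) 1 * D.F ^ (n m - 1) * (D.Q j ^ N * Q j))) := by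
    intro j
    have haj := D.ha j
    -- the cofactor
    obtain ⟨C0, hC0⟩ := D.hPN j
    set CC : MvPolynomial ι ℂ := C0 * D.Q j ^ (N - D.a j - D.N0) with hCC
    have hNj := hN j
    have hC1 : D.P j * CC = D.Q j ^ (N - D.a j) := by
      rw [hCC, ← mul_assoc, ← hC0, ← pow_add]
      congr 1
      omega
    have hC2 : CC.totalDegree ≤ (N - D.a j) * D.dQ j := by
      have h1 : CC ∣ D.Q j ^ (N - D.a j) := ⟨D.P j, by rw [← hC1]; ring⟩
      refine le_trans (totalDegree_le_of_dvd_of_isDomain h1 (pow_ne_zero _ (D.hQne j))) ?_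
      exact td_pow_le (D.hQ j).totalDegree_le _
    have hrNj := hrN j
    have h3 : (N - D.a j) * D.dQ j + D.a j * D.dQ j = N * D.dQ j := by
      rw [← Nat.add_mul]
      congr 1
      omega
    have h4 : D.a j ≤ D.a j * D.dA j := Nat.le_mul_of_pos_right _ (D.hdA j)
    have hg := gainA D j μ pf n pn hn r (r0 j) (hdr j) (hr0 j) (hr j) base (D.a j) le_rfl
      (D.a j) le_rfl le_rfl (CC * Q j) (by
        have h5 := td_mul_le hC2 (hQ j).totalDegree_le
        omega)
    refine InV.of_mul (EE (D.a j) pn) (fun m => ?_) ?_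
    · obtain ⟨z, hz'⟩ := hz m
      exact EE_ne haj hz'
    · refine hg.congr fun m => ?_
      by_cases hpf : pf m = 0
      · simp only [hpf, zero_mul, mul_zero]
      · rw [descFactorial_EE haj (hn m hpf)]
        rcases Nat.eq_zero_or_pos (n m) with h0 | h0
        · rw [h0]; simp
        · have h6 : monomial (m • μ) 1 * D.F ^ (n m - 1) * (D.Q j ^ N * Q j) =
              monomial (m • μ) 1 * (D.A j ^ (D.a j * n m - D.a j) * D.P j ^ (n m) *
                D.Q j ^ (D.a j)) * (CC * Q j) := by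
            obtain ⟨k, hk⟩ : ∃ k, n m = k + 1 := ⟨n m - 1, by omega⟩
            have h7 : D.a j * (k + 1) - D.a j = D.a j * k := by
              rw [Nat.mul_succ, Nat.add_sub_cancel]
            have h8 : D.Q j ^ N = D.Q j ^ (N - D.a j) * D.Q j ^ (D.a j) := by
              rw [← pow_add]
              congr 1
              omega
            rw [hk, Nat.add_sub_cancel, h7, h8, ← hC1]
            conv_lhs => rw [D.hFj j]
            rw [mul_pow, ← pow_mul, pow_succ]
            ring
          rw [h6]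
          ring
  refine (InV.sum Finset.univ fun l _ => key l).congr fun m => ?_
  conv_lhs => rw [hGQ]
  rw [Finset.mul_sum, map_sum, Finset.mul_sum]

/-- raising the exponent of `U_i` -/
theorem gainU (μ ν : ι →₀ ℕ) (i : ι) {v : κv → ℕ → ℂ} (r : ℕ)
    (hrd : ∀ j, D.dQ j + D.dA j ≤ r)
    (hr2 : ∀ G : MvPolynomial ι ℂ, G.IsHomogeneous r →
      ∃ Q : κ × ι → MvPolynomial ι ℂ,
        (∀ l, (Q l).IsHomogeneous (r - (D.dQ l.1 + D.dA l.1))) ∧
        G = ∑ l, (D.Q l.1 * NN l.2 (D.A l.1)) * Q l)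
    (base : ∀ G : MvPolynomial ι ℂ, G.totalDegree ≤ r →
      InV v (fun m => II (monomial (m • μ + (ν + Finsupp.single i 1)) 1 * D.F ^ (m + 1) * G))) :
    ∀ G : MvPolynomial ι ℂ, G.totalDegree ≤ r →
      InV v (fun m => II (monomial (m • μ + ν) 1 * D.F ^ (m + 1) * G)) := by
  have base' : ∀ G : MvPolynomial ι ℂ, G.totalDegree ≤ r →
      InV v (fun m => II (monomial (m • μ + ν) 1 * X i * D.F ^ (m + 1) * G)) := by
    intro G hG
    refine (base G hG).congr fun m => ?_
    congr 3
    rw [X, monomial_mul, one_mul, add_assoc]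
  intro G hG
  have hraise := raise (v := v) (fun _ => 1) (fun m => monomial (m • μ + ν) 1 * D.F ^ (m + 1)) r
    (?_) G hG
  · exact hraise.congr fun m => by rw [one_mul]
  clear G hG
  intro G hG
  obtain ⟨Q, hQ, hGQ⟩ := hr2 G hG
  have key : ∀ p : κ × ι, InV v (fun m =>
      II (monomial (m • μ + ν) 1 * D.F ^ (m + 1) * (D.Q p.1 * NN p.2 (D.A p.1) * Q p))) := by
    rintro ⟨j, l⟩
    have hQd := (hQ (j, l)).totalDegree_le
    have hrj := hrd j
    have hdA := D.hdA j
    have hQj := (D.hQ j).totalDegree_le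
    have hAl : (NN l (D.A j)).totalDegree ≤ D.dA j := (NN_homog (D.hA j) l).totalDegree_le
    have hAi : (pderiv i (D.A j)).totalDegree ≤ D.dA j - 1 := by
      refine le_trans (td_pderiv i _) ?_
      have := (D.hA j).totalDegree_le
      omega
    simp only at hQd
    by_cases hli : l = i
    · subst hli
      refine (base' (D.Q j * pderiv l (D.A j) * Q (j, l)) ?_).congr fun m => ?_
      · refine le_trans (td_mul_le (td_mul_le hQj hAi) hQd) ?_
        omega
      · refine congrArg II ?_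
        show monomial (m • μ + ν) 1 * D.F ^ (m + 1) *
          (D.Q j * (X l * pderiv l (D.A j)) * Q (j, l)) = _
        ring
    · have t1 := base' (D.Q j * NN l (D.A j) * Q (j, l)) (by
        refine le_trans (td_mul_le (td_mul_le hQj hAl) hQd) ?_
        omega)
      have t2 := base' (X l * (D.Q j * pderiv i (D.A j) * Q (j, l))) (by
        refine le_trans (td_mul_le (a := 1) ?_ (td_mul_le (td_mul_le hQj hAi) hQd)) ?_
        · rw [totalDegree_X]
        · omega)
      have t3 := base' (D.Q j * pderiv i (D.A j) * Q (j, l)) (by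
        refine le_trans (td_mul_le (td_mul_le hQj hAi) hQd) ?_
        omega)
      have t4 := base' (D.Y j i * NN l (D.A j) * Q (j, l)) (by
        refine le_trans (td_mul_le (td_mul_le (D.hYd j i) hAl) hQd) ?_
        omega)
      have t5 := base' (X l * D.Y j l * pderiv i (D.A j) * Q (j, l)) (by
        refine le_trans (td_mul_le (td_mul_le (td_mul_le (a := 1) ?_ (D.hYd j l)) hAi) hQd) ?_
        · rw [totalDegree_X]
        · omega)
      have t6 := base' (pderiv i (D.Q j * NN l (D.A j) * Q (j, l))) (by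
        refine le_trans (td_pderiv _ _) ?_
        have := td_mul_le (td_mul_le hQj hAl) hQd
        omega)
      have t7 := base' (NN l (D.Q j * pderiv i (D.A j) * Q (j, l))) (by
        refine le_trans (td_NN _ _) ?_
        refine le_trans (td_mul_le (td_mul_le hQj hAi) hQd) ?_
        omega)
      set q1 : Polynomial ℂ := Polynomial.C ((∑ i, μ i + D.e : ℕ) : ℂ) * Polynomial.X +
        Polynomial.C ((∑ i, ν i + D.e + (D.dQ j + D.dA j + (r - (D.dQ j + D.dA j))) : ℕ) +
          (Fintype.card ι : ℂ)) with hq1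
      set q2 : Polynomial ℂ := Polynomial.C (μ l : ℂ) * Polynomial.X +
        Polynomial.C ((ν l : ℂ) + 1) with hq2
      set q3 : Polynomial ℂ := Polynomial.X + Polynomial.C (1 : ℂ) with hq3
      set q4 : Polynomial ℂ := Polynomial.C (μ i : ℂ) * Polynomial.X +
        Polynomial.C ((ν i : ℂ) + 1) with hq4
      refine InV.of_mul q4 (fun m => ?_) ?_
      · rw [hq4]
        simp only [Polynomial.eval_add, Polynomial.eval_mul, Polynomial.eval_C,
          Polynomial.eval_X]
        have : (μ i : ℂ) * m + ((ν i : ℂ) + 1) = ((μ i * m + ν i + 1 : ℕ) : ℂ) := by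
          push_cast; ring
        rw [this]
        exact Nat.cast_ne_zero.mpr (Nat.succ_ne_zero _)
      · have hall := ((((((t1.sub t2).poly_mul q1).add (t3.poly_mul q2)).sub
          (t4.poly_mul q3)).add (t5.poly_mul q3)).sub t6).add t7
        refine hall.congr fun m => ?_
        have hb := ibpU (D.hA j) D.hF (D.hQ j) (hQ (j, l)) hli (D.hFj j) (D.hY j i) (D.hY j l)
          (m • μ + ν) (m + 1)
        have e1 : q4.eval (m : ℂ) = (((m • μ + ν) i : ℕ) : ℂ) + 1 := by
          rw [hq4]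
          simp only [Polynomial.eval_add, Polynomial.eval_mul, Polynomial.eval_C,
            Polynomial.eval_X, Finsupp.add_apply, Finsupp.smul_apply, smul_eq_mul, Nat.cast_add,
            Nat.cast_mul]
          ring
        have e2 : q2.eval (m : ℂ) = (((m • μ + ν) l : ℕ) : ℂ) + 1 := by
          rw [hq2]
          simp only [Polynomial.eval_add, Polynomial.eval_mul, Polynomial.eval_C,
            Polynomial.eval_X, Finsupp.add_apply, Finsupp.smul_apply, smul_eq_mul, Nat.cast_add,
            Nat.cast_mul]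
          ring
        have e3 : q3.eval (m : ℂ) = ((m + 1 : ℕ) : ℂ) := by
          rw [hq3]
          simp only [Polynomial.eval_add, Polynomial.eval_C, Polynomial.eval_X, Nat.cast_add,
            Nat.cast_one]
        have e4 : q1.eval (m : ℂ) = ((∑ i', (m • μ + ν) i' + D.e * (m + 1) +
            (D.dQ j + D.dA j + (r - (D.dQ j + D.dA j))) : ℕ) : ℂ) + (Fintype.card ι : ℂ) := by
          have e6 : ∑ i', (m • μ + ν) i' = m * ∑ i', μ i' + ∑ i', ν i' := by
            simp only [Finsupp.add_apply, Finsupp.smul_apply, smul_eq_mul, Finset.mul_sum,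
              Finset.sum_add_distrib]
          rw [hq1, e6]
          simp only [Polynomial.eval_add, Polynomial.eval_mul, Polynomial.eval_C,
            Polynomial.eval_X, Nat.cast_add, Nat.cast_mul, Nat.cast_one]
          ring
        rw [e1, e2, e3, e4]
        simp only at hb
        linear_combination hb
  refine (InV.sum Finset.univ fun l _ => key l).congr fun m => ?_
  conv_lhs => rw [hGQ]
  rw [Finset.mul_sum, map_sum, one_mul]

end gain

end Pool.Agent.MP_410f3c_al.Q
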