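import Pool.Agent.MP_410f3c_al.Q.KLA

/-!
# Nondegenerate lowest forms: no new value at zero
-/

set_option autoImplicit false
set_option linter.unusedSectionVars false

open MvPolynomial

namespace Pool.Agent.MP_410f3c_al.Q

variable {ι : Type} [Fintype ι] [Nonempty ι] {κ : Type} [Fintype κ]

theorem InV.shift {κv : Type} [Fintype κv] {v : κv → ℕ → ℂ} {w : ℕ → ℂ} (h : InV v w) :
    InV (fun j m => v j (m + 1)) (fun m => w (m + 1)) := by
  obtain ⟨D, x, hD, hx⟩ := h
  have e : ∀ (p : Polynomial ℂ) (m : ℕ),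
      (p.comp (Polynomial.X + Polynomial.C 1)).eval (m : ℂ) = p.eval ((m + 1 : ℕ) : ℂ) := by
    intro p m
    rw [Polynomial.eval_comp, Polynomial.eval_add, Polynomial.eval_X, Polynomial.eval_C,
      Nat.cast_add, Nat.cast_one]
  refine ⟨D.comp (Polynomial.X + Polynomial.C 1),
    fun i => (x i).comp (Polynomial.X + Polynomial.C 1), fun m => ?_, fun m => ?_⟩
  · rw [e]; exact hD (m + 1)
  · rw [e, hx (m + 1)]
    exact Finset.sum_congr rfl fun i _ => by rw [e]

/-- exponents of degree `r` -/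
abbrev Mon (ι : Type) [Fintype ι] (r : ℕ) : Type := {x : ι → Fin (r + 1) // ∑ i, (x i : ℕ) = r}

noncomputable instance instFintypeMon (r : ℕ) : Fintype (Mon ι r) := Fintype.ofFinite _

/-- the exponent attached to an index -/
noncomputable def mexp {r : ℕ} (x : Mon ι r) : ι →₀ ℕ :=
  Finsupp.equivFunOnFinite.symm fun i => (x.1 i : ℕ)

theorem mexp_apply {r : ℕ} (x : Mon ι r) (i : ι) : mexp x i = x.1 i := rfl

theorem exists_mexp {r : ℕ} (s : ι →₀ ℕ) (hs : ∑ i, s i = r) : ∃ x : Mon ι r, mexp x = s := by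
  have h1 : ∀ i, s i < r + 1 := by
    intro i
    have : s i ≤ ∑ i, s i :=
      Finset.single_le_sum (f := fun i => s i) (fun _ _ => Nat.zero_le _) (Finset.mem_univ i)
    omega
  refine ⟨⟨fun i => ⟨s i, h1 i⟩, hs⟩, ?_⟩
  ext i
  rfl

/-- the basic family of sequences -/
noncomputable def vv (F : MvPolynomial ι ℂ) (μ : ι →₀ ℕ) (r : ℕ) : Mon ι r → ℕ → ℂ :=
  fun x m => II (monomial (m • μ) 1 * F ^ m * monomial (mexp x) 1)

theorem vv_base (F : MvPolynomial ι ℂ) (μ : ι →₀ ℕ) (r : ℕ) (G : MvPolynomial ι ℂ)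
    (hG : G.totalDegree ≤ r) :
    InV (vv F μ r) (fun m => II (monomial (m • μ) 1 * F ^ m * G)) := by
  have hraise := raise (v := vv F μ r) (fun _ => 1) (fun m => monomial (m • μ) 1 * F ^ m) r
    (?_) G hG
  · exact hraise.congr fun m => by rw [one_mul]
  clear G hG
  intro G hG
  have h1 : ∀ s ∈ G.support, InV (vv F μ r) (fun m => coeff s G *
      II (monomial (m • μ) 1 * F ^ m * monomial s 1)) := by
    intro s hs
    obtain ⟨x, hx⟩ := exists_mexp s (sum_of_isHomogeneous hG hs)
    refine ((InV.basis (vv F μ r) x).const_mul (coeff s G)).congr fun m => ?_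
    rw [vv, hx]
  refine (InV.sum G.support h1).congr fun m => ?_
  rw [one_mul]
  conv_lhs => rw [← MvPolynomial.support_sum_monomial_coeff G]
  rw [Finset.mul_sum, map_sum]
  refine Finset.sum_congr rfl fun s _ => ?_
  have h2 : (monomial s (coeff s G) : MvPolynomial ι ℂ) = coeff s G • monomial s 1 := by
    rw [smul_monomial, smul_eq_mul, mul_one]
  rw [h2, mul_smul_comm, map_smul, smul_eq_mul]

/-- thresholds -/
theorem thresholds (D : ND ι κ) (V : ℕ) : ∃ (r : ℕ) (r0 : κ → ℕ) (N : ℕ), V ≤ r ∧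
    (∀ j, D.dA j ≤ r0 j) ∧
    (∀ j, ∀ k, r0 j ≤ k → ∀ G : MvPolynomial ι ℂ, G.IsHomogeneous k →
      ∃ Q : ι → MvPolynomial ι ℂ, (∀ l, (Q l).IsHomogeneous (k - D.dA j)) ∧
        G = ∑ l, NN l (D.A j) * Q l) ∧
    (∀ j, r0 j + D.a j * D.dQ j ≤ r) ∧ (∀ j, D.N0 + D.a j ≤ N) ∧ (∀ j, N * D.dQ j ≤ r) ∧
    (∀ G : MvPolynomial ι ℂ, G.IsHomogeneous r →
      ∃ Q : κ → MvPolynomial ι ℂ, (∀ l, (Q l).IsHomogeneous (r - N * D.dQ l)) ∧
        G = ∑ l, D.Q l ^ N * Q l) ∧
    (∀ j, D.dQ j + D.dA j ≤ r) ∧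
    (∀ G : MvPolynomial ι ℂ, G.IsHomogeneous r →
      ∃ Q : κ × ι → MvPolynomial ι ℂ,
        (∀ l, (Q l).IsHomogeneous (r - (D.dQ l.1 + D.dA l.1))) ∧
        G = ∑ l, (D.Q l.1 * NN l.2 (D.A l.1)) * Q l) := by
  have h0 : ∀ j, ∃ r0 : ℕ, D.dA j ≤ r0 ∧ ∀ k, r0 ≤ k → ∀ G : MvPolynomial ι ℂ,
      G.IsHomogeneous k → ∃ Q : ι → MvPolynomial ι ℂ,
        (∀ l, (Q l).IsHomogeneous (k - D.dA j)) ∧ G = ∑ l, NN l (D.A j) * Q l := by
    intro j
    obtain ⟨r0, h1, h2⟩ := nul (fun l => NN l (D.A j)) (fun _ => D.dA j)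
      (fun l => NN_homog (D.hA j) l) (fun z hz => by
        obtain ⟨i, hi⟩ := D.hAz j z hz
        refine ⟨i, ?_⟩
        rw [NN_apply, map_mul, eval_X]
        exact hi)
    exact ⟨r0, h1 (Classical.arbitrary ι), h2⟩
  choose r0 hr0a hr0b using h0
  set N : ℕ := D.N0 + ∑ j, D.a j with hN
  obtain ⟨r1, h1a, h1b⟩ := nul (fun j => D.Q j ^ N) (fun j => D.dQ j * N)
    (fun j => (D.hQ j).pow N) (fun z hz => by
      obtain ⟨j, hj⟩ := D.hQz z hz
      refine ⟨j, ?_⟩
      rw [map_pow]
      exact pow_ne_zero _ hj)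
  obtain ⟨r2, h2a, h2b⟩ := nul (fun p : κ × ι => D.Q p.1 * NN p.2 (D.A p.1))
    (fun p => D.dQ p.1 + D.dA p.1)
    (fun p => (D.hQ p.1).mul (NN_homog (D.hA p.1) p.2)) (fun z hz => by
      obtain ⟨j, hj⟩ := D.hQz z hz
      obtain ⟨i, hi⟩ := D.hAz j z hz
      refine ⟨(j, i), ?_⟩
      rw [map_mul]
      refine mul_ne_zero hj ?_
      rw [NN_apply, map_mul, eval_X]
      exact hi)
  have hsum1 : ∀ j, r0 j + D.a j * D.dQ j ≤ ∑ j, (r0 j + D.a j * D.dQ j) := fun j =>
    Finset.single_le_sum (f := fun j => r0 j + D.a j * D.dQ j) (fun _ _ => Nat.zero_le _)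
      (Finset.mem_univ j)
  have hsum2 : ∀ j, D.a j ≤ ∑ j, D.a j := fun j =>
    Finset.single_le_sum (f := fun j => D.a j) (fun _ _ => Nat.zero_le _) (Finset.mem_univ j)
  refine ⟨V + r1 + r2 + ∑ j, (r0 j + D.a j * D.dQ j), r0, N, by omega, hr0a, hr0b, fun j => ?_,
    fun j => ?_, fun j => ?_, fun G hG => ?_, fun j => ?_, fun G hG => ?_⟩
  · have := hsum1 j; omega
  · have := hsum2 j; omega
  · have := h1a j
    rw [mul_comm N]
    omega
  · obtain ⟨Q, hQ, hG'⟩ := h1b _ (by omega) G hG
    refine ⟨Q, fun l => ?_, hG'⟩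
    rw [mul_comm N]
    exact hQ l
  · have := h2a (j, Classical.arbitrary ι)
    simp only at this
    omega
  · exact h2b _ (by omega) G hG

/-- the moments of `F^m`: relations and absence of a new value at zero -/
theorem klF (D : ND ι κ) (μ : ι →₀ ℕ) (V : ℕ) :
    ∃ (κv : Type) (_ : Fintype κv) (v : κv → ℕ → ℂ),
      (∀ τ : ℕ, ∀ G : MvPolynomial ι ℂ, G.totalDegree ≤ V →
        InV v (fun m => (m.descFactorial τ : ℂ) *
          II (monomial (m • μ) 1 * D.F ^ (m - τ) * G))) ∧
      (∀ w : ℕ → ℂ, InV v w → (∀ m : ℕ, 1 ≤ m → w m = 0) → w 0 = 0) := by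
  obtain ⟨r, r0, N, hVr, hdr, hr0, hr, hN, hrN, hr1, hrd, hr2⟩ := thresholds D V
  refine ⟨Mon ι r, inferInstance, vv D.F μ r, ?_, ?_⟩
  · intro τ
    have h1 : ∀ G : MvPolynomial ι ℂ, G.totalDegree ≤ r →
        InV (vv D.F μ r) (fun m => (m.descFactorial τ : ℂ) *
          II (monomial (m • μ) 1 * D.F ^ (m - τ) * G)) := by
      induction τ with
      | zero =>
        intro G hG
        refine (vv_base D.F μ r G hG).congr fun m => ?_
        rw [Nat.descFactorial_zero, Nat.cast_one, one_mul, Nat.sub_zero]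
      | succ τ ih =>
        intro G hG
        have h2 := gainF D μ (v := vv D.F μ r) (fun m => (m.descFactorial τ : ℂ))
          (fun m => m - τ) (Polynomial.X - Polynomial.C (τ : ℂ)) (fun m hm => by
            have h3 : τ ≤ m := by
              by_contra hcon
              push Not at hcon
              exact hm (by rw [Nat.descFactorial_of_lt hcon, Nat.cast_zero])
            rw [Nat.cast_sub h3, Polynomial.eval_sub, Polynomial.eval_X, Polynomial.eval_C])
          (fun m => ⟨(m : ℤ) - τ, by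
            rw [Polynomial.eval_sub, Polynomial.eval_X, Polynomial.eval_C]
            push_cast
            ring⟩) r r0 hdr hr0 hr N hN hrN hr1 ih G hG
        refine h2.congr fun m => ?_
        rw [Nat.descFactorial_succ, Nat.cast_mul, Nat.sub_sub]
        ring
    intro G hG
    exact h1 G (le_trans hG hVr)
  · intro w hw h0
    refine kl (vv D.F μ r) (fun x => ?_) hw h0
    -- the backward recursion
    have hU : ∀ k : ℕ, ∀ ν : ι →₀ ℕ, ν ≤ μ → (μ - ν).degree = k →
        ∀ G : MvPolynomial ι ℂ, G.totalDegree ≤ r →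
        InV (fun (j : Mon ι r) m => vv D.F μ r j (m + 1))
          (fun m => II (monomial (m • μ + ν) 1 * D.F ^ (m + 1) * G)) := by
      intro k
      induction k with
      | zero =>
        intro ν hν hk G hG
        have h1 : ν = μ := by
          rw [Finsupp.degree_eq_zero_iff] at hk
          exact le_antisymm hν (tsub_eq_zero_iff_le.mp hk)
        refine (vv_base D.F μ r G hG).shift.congr fun m => ?_
        rw [h1, add_smul, one_smul]
      | succ k ih =>
        intro ν hν hk
        obtain ⟨i, hi⟩ : ∃ i, ν i < μ i := by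
          by_contra hcon
          push Not at hcon
          have : μ - ν = 0 := tsub_eq_zero_iff_le.mpr hcon
          rw [this, map_zero] at hk
          omega
        refine gainU D μ ν i r hrd hr2 ?_
        refine ih (ν + Finsupp.single i 1) ?_ ?_
        · classical
          intro j
          rw [Finsupp.add_apply, Finsupp.single_apply]
          by_cases hij : i = j
          · subst hij
            rw [if_pos rfl]
            exact hi
          · rw [if_neg hij, add_zero]
            exact hν j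
        · have h1 : μ - ν = (μ - (ν + Finsupp.single i 1)) + Finsupp.single i 1 := by
            classical
            ext j
            rw [Finsupp.tsub_apply, Finsupp.add_apply, Finsupp.tsub_apply, Finsupp.add_apply,
              Finsupp.single_apply]
            by_cases hij : i = j
            · subst hij
              rw [if_pos rfl]
              omega
            · rw [if_neg hij, add_zero, add_zero]
          rw [h1, map_add, Finsupp.degree_single] at hk
          omega
    have hF1 : ∀ G : MvPolynomial ι ℂ, G.totalDegree ≤ r →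
        InV (fun (j : Mon ι r) m => vv D.F μ r j (m + 1))
          (fun m => (1 : ℂ) * II (monomial (m • μ) 1 * D.F ^ (m + 1) * G)) := by
      intro G hG
      refine (hU _ 0 zero_le rfl G hG).congr fun m => ?_
      rw [add_zero, one_mul]
    have h2 := gainF D μ (v := fun (j : Mon ι r) m => vv D.F μ r j (m + 1)) (fun _ => 1)
      (fun m => m + 1) (Polynomial.X + Polynomial.C 1) (fun m _ => by
        rw [Nat.cast_add, Nat.cast_one, Polynomial.eval_add, Polynomial.eval_X,
          Polynomial.eval_C])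
      (fun m => ⟨(m : ℤ) + 1, by
        rw [Polynomial.eval_add, Polynomial.eval_X, Polynomial.eval_C]
        push_cast
        ring⟩) r r0 hdr hr0 hr N hN hrN hr1 hF1 (monomial (mexp x) 1) (by
        refine le_trans (totalDegree_monomial_le _ _) ?_
        have h3 : ∑ i, mexp x i = r := x.2
        rw [Finsupp.sum_fintype _ _ fun _ => rfl]
        exact h3.le)
    refine InV.of_mul (Polynomial.X + Polynomial.C 1) (fun m => ?_) ?_
    · rw [Polynomial.eval_add, Polynomial.eval_X, Polynomial.eval_C]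
      exact Nat.cast_add_one_ne_zero m
    · refine h2.congr fun m => ?_
      rw [Polynomial.eval_add, Polynomial.eval_X, Polynomial.eval_C, Nat.add_sub_cancel, vv]
      push_cast
      ring

end Pool.Agent.MP_410f3c_al.Q
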